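import Pool.Agent.LibSchP.C1
import Pool.Agent.LibSchTri.Defs

/-! **T4a.**  Superadditivity. -/

open Matrix
open scoped ComplexOrder

namespace Pool.Agent.LibSchP

open Pool.Agent.LibSch Pool.Agent.LibSchTri

theorem t4a_trace_nonneg {n : Type} [Fintype n] [DecidableEq n] (P : Matrix n n ℂ)
    (hP : P.PosSemidef) (W : Matrix n n ℂ) (y : n → ℝ) (hy : ∀ k, 0 ≤ y k) :
    0 ≤ (trace (P * ud W y)).re := by
  set S : Matrix n n ℂ := W * dg fun k => √(y k) with hS
  have h1 : ud W y = S * Sᴴ := by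
    unfold ud
    rw [hS, conjTranspose_mul, dg_conjTranspose]
    have h2 : (dg fun k => √(y k)) * (dg fun k => √(y k)) = dg y := by
      rw [dg_mul]; congr 1; funext k; exact Real.mul_self_sqrt (hy k)
    rw [← h2]
    simp only [Matrix.mul_assoc]
  rw [h1, ← Matrix.mul_assoc, trace_mul_comm, ← Matrix.mul_assoc]
  have h3 := (hP.conjTranspose_mul_mul_same S).trace_nonneg
  exact (Complex.le_def.1 h3).1

theorem t4a_trace_ud {n : Type} [Fintype n] [DecidableEq n] (W : Matrix n n ℂ)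
    (hW : W ∈ unitaryGroup n ℂ) (z : n → ℝ) : (trace (ud W z)).re = ∑ k, z k := by
  unfold ud
  rw [trace_mul_comm, ← Matrix.mul_assoc]
  have h : Wᴴ * W = 1 := by
    have := mem_unitaryGroup_iff'.1 hW
    exact this
  rw [h, Matrix.one_mul]
  unfold trace dg
  simp [Complex.re_sum]

/-- Hölder form of `young`: `pw p X ^ (2/p) ≤ tr XᴴX B^(1-2/p)` if `tr B = 1`
(`young` with `c B`, `c = L^(p/2)`, `L = tr XᴴX B^(1-2/p)`). -/
theorem young_holder {m n : Type} [Fintype m] [Fintype n] [DecidableEq n] (p : ℝ) (h0 : 0 < p)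
    (h2 : p < 2) (X : Matrix m n ℂ) (W : Matrix n n ℂ) (hW : W ∈ unitaryGroup n ℂ) (b : n → ℝ)
    (hb : ∀ k, 0 < b k) (hb1 : ∑ k, b k = 1) :
    pw p X ^ (2 / p) ≤ (trace (Xᴴ * X * ud W fun k => b k ^ (1 - 2 / p))).re := by
  set L : ℝ := (trace (Xᴴ * X * ud W fun k => b k ^ (1 - 2 / p))).re with hL
  have hL0 : 0 ≤ L := t4a_trace_nonneg _ (posSemidef_conjTranspose_mul_self X) W _
    (fun k => Real.rpow_nonneg (hb k).le _)
  have hpw : 0 ≤ pw p X := pw_nonneg p X
  have key : ∀ c : ℝ, 0 < c → pw p X ≤ p / 2 * (c ^ (1 - 2 / p) * L) + (1 - p / 2) * c := by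
    intro c hc
    have h := young p h0 h2 X W hW (fun k => c * b k) (fun k => mul_pos hc (hb k))
    have e1 : (ud W fun k => (c * b k) ^ (1 - 2 / p)) =
        ((c ^ (1 - 2 / p) : ℝ) : ℂ) • (ud W fun k => b k ^ (1 - 2 / p)) := by
      unfold ud
      have : (dg fun k => (c * b k) ^ (1 - 2 / p)) =
          ((c ^ (1 - 2 / p) : ℝ) : ℂ) • (dg fun k => b k ^ (1 - 2 / p)) := by
        ext i j
        rw [dg_apply, Matrix.smul_apply, dg_apply]
        by_cases hij : i = j
        · rw [if_pos hij, if_pos hij, Real.mul_rpow hc.le (hb i).le]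
          push_cast
          rfl
        · rw [if_neg hij, if_neg hij, smul_zero]
      rw [this, Matrix.mul_smul, Matrix.smul_mul]
    rw [e1, Matrix.mul_smul, trace_smul, smul_eq_mul, Complex.re_ofReal_mul, ← hL,
      ← Finset.mul_sum, hb1, mul_one] at h
    exact h
  rcases hL0.eq_or_lt with hz | hpos
  · -- L = 0
    rw [← hz] at key ⊢
    have h1 : pw p X ≤ 0 := by
      refine le_of_forall_pos_le_add ?_
      intro ε hε
      have h := key ε hε
      rw [mul_zero, mul_zero, zero_add] at h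
      have : (1 - p / 2) * ε ≤ 1 * ε := mul_le_mul_of_nonneg_right (by linarith) hε.le
      linarith
    have h2' : pw p X = 0 := le_antisymm h1 hpw
    rw [h2', Real.zero_rpow (by positivity)]
  · have h := key (L ^ (p / 2)) (Real.rpow_pos_of_pos hpos _)
    have e1 : (L ^ (p / 2)) ^ (1 - 2 / p) * L = L ^ (p / 2) := by
      rw [← Real.rpow_mul hpos.le]
      nth_rewrite 2 [← Real.rpow_one L]
      rw [← Real.rpow_add hpos]
      congr 1
      field_simp
      ring
    rw [e1] at h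
    have h3 : pw p X ≤ L ^ (p / 2) := by nlinarith [h]
    calc pw p X ^ (2 / p) ≤ (L ^ (p / 2)) ^ (2 / p) :=
          Real.rpow_le_rpow hpw h3 (by positivity)
      _ = L := by
          rw [← Real.rpow_mul hpos.le]
          have : p / 2 * (2 / p) = 1 := by field_simp
          rw [this, Real.rpow_one]

/-- **superadditivity**: `XᴴX ≥ ∑ Y_kᴴY_k`, `XᴴX` positive definite.  `B = (XᴴX)^(p/2) / τ`,
`τ = pw p X = tr (XᴴX)^(p/2)`: `∑_k pw p (Y_k)^(2/p) ≤ ∑_k tr Y_kᴴY_k B^(1-2/p) ≤ tr XᴴX B^(1-2/p)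
= τ^(2/p-1) tr (XᴴX)^(1+(p/2)(1-2/p)) = τ^(2/p)`. -/
theorem pw_super {ι m n : Type} [Fintype ι] [Fintype m] [Fintype n] [DecidableEq n] {m' : ι → Type}
    [∀ k, Fintype (m' k)] (p : ℝ) (h0 : 0 < p) (h2 : p < 2) (X : Matrix m n ℂ)
    (Y : ∀ k, Matrix (m' k) n ℂ) (hX : (Xᴴ * X).PosDef)
    (h : (Xᴴ * X - ∑ k, (Y k)ᴴ * Y k).PosSemidef) :
    ∑ k, pw p (Y k) ^ (2 / p) ≤ pw p X ^ (2 / p) := by
  obtain ⟨W, hW, x, hx, hXW⟩ := ud_exists_pos _ hX
  have hτ : pw p X = ∑ k, x k ^ (p / 2) := pw_ud p X W hW x hXW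
  rcases isEmpty_or_nonempty n with hn | hn
  · have hY : ∀ k, pw p (Y k) = 0 := by
      intro k; unfold pw; simp
    have h1 : pw p X = 0 := by rw [hτ]; simp
    rw [h1, Real.zero_rpow (by positivity)]
    refine le_of_eq (Finset.sum_eq_zero ?_)
    intro k _
    rw [hY k, Real.zero_rpow (by positivity)]
  · set τ : ℝ := pw p X with hτd
    have hτ0 : 0 < τ := by
      rw [hτ]
      exact Finset.sum_pos (fun k _ => Real.rpow_pos_of_pos (hx k) _) Finset.univ_nonempty
    set b : n → ℝ := fun k => x k ^ (p / 2) / τ with hbd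
    have hb : ∀ k, 0 < b k := fun k => div_pos (Real.rpow_pos_of_pos (hx k) _) hτ0
    have hb1 : ∑ k, b k = 1 := by
      rw [hbd]
      rw [← Finset.sum_div, ← hτ, div_self hτ0.ne']
    set Z : Matrix n n ℂ := ud W fun k => b k ^ (1 - 2 / p) with hZ
    have s1 : ∑ k, pw p (Y k) ^ (2 / p) ≤ ∑ k, (trace ((Y k)ᴴ * Y k * Z)).re :=
      Finset.sum_le_sum fun k _ => young_holder p h0 h2 (Y k) W hW b hb hb1
    have s2 : ∑ k, (trace ((Y k)ᴴ * Y k * Z)).re = (trace ((∑ k, (Y k)ᴴ * Y k) * Z)).re := by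
      rw [Finset.sum_mul, trace_sum, Complex.re_sum]
    have s3 : (trace ((∑ k, (Y k)ᴴ * Y k) * Z)).re ≤ (trace (Xᴴ * X * Z)).re := by
      have h3 := t4a_trace_nonneg _ h W (fun k => b k ^ (1 - 2 / p))
        (fun k => Real.rpow_nonneg (hb k).le _)
      rw [← hZ, Matrix.sub_mul, trace_sub, Complex.sub_re] at h3
      linarith
    have s4 : (trace (Xᴴ * X * Z)).re = τ ^ (2 / p) := by
      rw [hXW, hZ, ud_mul W hW, t4a_trace_ud W hW]
      have : ∀ k, x k * b k ^ (1 - 2 / p) = x k ^ (p / 2) * τ ^ (2 / p - 1) := by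
        intro k
        rw [hbd]
        show x k * (x k ^ (p / 2) / τ) ^ (1 - 2 / p) = _
        rw [Real.div_rpow (Real.rpow_nonneg (hx k).le _) hτ0.le, ← Real.rpow_mul (hx k).le,
          div_eq_mul_inv, ← Real.rpow_neg hτ0.le, ← mul_assoc]
        congr 1
        · nth_rewrite 1 [← Real.rpow_one (x k)]
          rw [← Real.rpow_add (hx k)]
          congr 1
          field_simp
          ring
        · congr 1; ring
      rw [Finset.sum_congr rfl (fun k _ => this k), ← Finset.sum_mul, ← hτ]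
      nth_rewrite 1 [← Real.rpow_one τ]
      rw [← Real.rpow_add hτ0]
      congr 1
      ring
    linarith

end Pool.Agent.LibSchP
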