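import Pool.Agent.LibSchP.A4a

/-! **A4b.**  Lipschitz bounds for powers. -/

open Matrix
open scoped ComplexOrder

namespace Pool.Agent.LibSchP

variable {m n : Type} [Fintype m] [Fintype n] [DecidableEq n]

theorem a4b_rpow_lip (s R : ℝ) (hs : 1 ≤ s) (a b : ℝ) (ha : 0 ≤ a) (haR : a ≤ R)
    (hb : 0 ≤ b) (hbR : b ≤ R) : |a ^ s - b ^ s| ≤ s * R ^ (s - 1) * |a - b| := by
  have h := Convex.norm_image_sub_le_of_norm_hasDerivWithin_le (𝕜 := ℝ)
    (f := fun x : ℝ => x ^ s) (f' := fun x : ℝ => s * x ^ (s - 1)) (C := s * R ^ (s - 1))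
    (s := Set.Icc 0 R) (x := b) (y := a)
    (fun x _ => (Real.hasDerivAt_rpow_const (Or.inr hs)).hasDerivWithinAt)
    (fun x hx => by
      rw [Real.norm_eq_abs, abs_of_nonneg (mul_nonneg (by linarith) (Real.rpow_nonneg hx.1 _))]
      exact mul_le_mul_of_nonneg_left
        (Real.rpow_le_rpow hx.1 hx.2 (by linarith)) (by linarith))
    (convex_Icc 0 R) ⟨hb, hbR⟩ ⟨ha, haR⟩
  simpa [Real.norm_eq_abs] using h

/-- `x ↦ x^s`, `s ≥ 1`, is Lipschitz on bounded sets of positive semidefinite matrices -/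
theorem rp_lip (s R : ℝ) (hs : 1 ≤ s) (hR : 0 ≤ R) : ∃ L : ℝ, 0 ≤ L ∧
    ∀ X Y : Matrix n n ℂ, X.PosSemidef → Y.PosSemidef → nf X ≤ R → nf Y ≤ R →
      nf (rp s X - rp s Y) ≤ L * nf (X - Y) := by
  have hL : 0 ≤ s * R ^ (s - 1) := mul_nonneg (by linarith) (Real.rpow_nonneg hR _)
  refine ⟨s * R ^ (s - 1), hL, fun X Y hX hY hXR hYR => ?_⟩
  obtain ⟨U, hU, x, hx, rfl⟩ := ud_exists_nonneg X hX
  obtain ⟨V, hV, y, hy, rfl⟩ := ud_exists_nonneg Y hY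
  rw [rp_ud s U hU x, rp_ud s V hV y]
  refine ud_lip U V hU hV x y (fun t => t ^ s) _ hL fun j k => ?_
  have h1 : x j ≤ R := ((le_abs_self _).trans (ud_le_nf U hU x j)).trans hXR
  have h2 : y k ≤ R := ((le_abs_self _).trans (ud_le_nf V hV y k)).trans hYR
  exact a4b_rpow_lip s R hs (x j) (y k) (hx j) h1 (hy k) h2

/-- the square root is Lipschitz at a positive definite point:
`|x - y| = |x² - y²|/(x+y) ≤ |x² - y²|/m₀` -/
theorem sqrt_lip (m₀ : ℝ) (hm : 0 < m₀) (Θ : Matrix n n ℂ) (hΘ : Θ.PosSemidef) (θ : n → ℝ)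
    (hθ : ∀ k, m₀ ≤ θ k) :
    nf (Θ - dg θ) ≤ m₀⁻¹ * nf (Θ * Θ - dg fun k => θ k ^ 2) := by
  obtain ⟨U, hU, x, hx, rfl⟩ := ud_exists_nonneg Θ hΘ
  rw [ud_mul U hU x x, ← ud_one_fun, ← ud_one_fun]
  have h1 : (1 : Matrix n n ℂ) ∈ unitaryGroup n ℂ := one_mem _
  have hθ0 : ∀ k, 0 ≤ θ k := fun k => hm.le.trans (hθ k)
  have key := ud_lip U 1 hU h1 (fun k => x k * x k) (fun k => θ k ^ 2) Real.sqrt m₀⁻¹
    (inv_nonneg.2 hm.le) (fun j k => by
      rw [Real.sqrt_mul_self (hx j), Real.sqrt_sq (hθ0 k)]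
      have h2 : x j * x j - θ k ^ 2 = (x j + θ k) * (x j - θ k) := by ring
      rw [h2, abs_mul, abs_of_nonneg (add_nonneg (hx j) (hθ0 k)), ← mul_assoc]
      have h3 : 1 ≤ m₀⁻¹ * (x j + θ k) := by
        rw [inv_mul_eq_div, le_div_iff₀ hm, one_mul]
        linarith [hx j, hθ k]
      calc |x j - θ k| = 1 * |x j - θ k| := (one_mul _).symm
        _ ≤ m₀⁻¹ * (x j + θ k) * |x j - θ k| :=
          mul_le_mul_of_nonneg_right h3 (abs_nonneg _))
  have e1 : (fun k => Real.sqrt (x k * x k)) = x := by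
    funext k; exact Real.sqrt_mul_self (hx k)
  have e2 : (fun k => Real.sqrt (θ k ^ 2)) = θ := by
    funext k; exact Real.sqrt_sq (hθ0 k)
  rw [e1, e2] at key
  exact key

end Pool.Agent.LibSchP
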