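import Pool.Agent.LibSchP.Defs

/-! **A1.**  API of the Frobenius norm `nf`.  Hint: in this file make
`attribute [local instance] Matrix.frobeniusNormedAddCommGroup Matrix.frobeniusNormedSpace
Matrix.frobeniusNormedRing` available and use `nf X = ‖X‖` (`Matrix.frobenius_norm_def`), or argue
directly. -/

open Matrix
open scoped ComplexOrder

namespace Pool.Agent.LibSchP

variable {κ m n n' : Type} [Fintype κ] [Fintype m] [Fintype n] [Fintype n']

theorem fr_nonneg (X : Matrix m n ℂ) : 0 ≤ fr X := by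
  unfold fr
  positivity

theorem nf_nonneg (X : Matrix m n ℂ) : 0 ≤ nf X := Real.sqrt_nonneg _

theorem nf_sq (X : Matrix m n ℂ) : nf X ^ 2 = fr X := by
  unfold nf
  exact Real.sq_sqrt (fr_nonneg X)

section
attribute [local instance] Matrix.frobeniusSeminormedAddCommGroup
  Matrix.frobeniusNormedAddCommGroup Matrix.frobeniusNormedSpace

theorem a1_norm (X : Matrix m n ℂ) : nf X = ‖X‖ := by
  rw [Matrix.frobenius_norm_def]
  unfold nf fr
  rw [Real.sqrt_eq_rpow]
  norm_num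

theorem nf_add_le (X Y : Matrix m n ℂ) : nf (X + Y) ≤ nf X + nf Y := by
  rw [a1_norm, a1_norm, a1_norm]
  exact norm_add_le _ _

theorem nf_sub_le (X Y : Matrix m n ℂ) : nf (X - Y) ≤ nf X + nf Y := by
  rw [a1_norm, a1_norm, a1_norm]
  exact norm_sub_le _ _

theorem nf_smul (c : ℂ) (X : Matrix m n ℂ) : nf (c • X) = ‖c‖ * nf X := by
  rw [a1_norm, a1_norm]
  exact norm_smul _ _

theorem nf_mul_le (X : Matrix m n ℂ) (Y : Matrix n n' ℂ) : nf (X * Y) ≤ nf X * nf Y := by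
  rw [a1_norm, a1_norm, a1_norm]
  exact Matrix.frobenius_norm_mul X Y

theorem nf_conjTranspose (X : Matrix m n ℂ) : nf Xᴴ = nf X := by
  rw [a1_norm, a1_norm]
  exact Matrix.frobenius_norm_conjTranspose X

theorem nf_zero : nf (0 : Matrix m n ℂ) = 0 := by
  rw [a1_norm]
  exact norm_zero

end

theorem a1_trace (X Y : Matrix m n ℂ) :
    (trace (Xᴴ * Y)) = ∑ i, ∑ j, star (X i j) * Y i j := by
  simp only [trace, diag_apply, mul_apply, conjTranspose_apply]
  rw [Finset.sum_comm]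

/-- `fr X = tr XᴴX` -/
theorem fr_eq_trace (X : Matrix m n ℂ) : fr X = (trace (Xᴴ * X)).re := by
  rw [a1_trace]
  unfold fr
  rw [Complex.re_sum]
  refine Finset.sum_congr rfl fun i _ => ?_
  rw [Complex.re_sum]
  refine Finset.sum_congr rfl fun j _ => ?_
  rw [Complex.star_def, ← Complex.normSq_eq_conj_mul_self, Complex.ofReal_re,
    Complex.normSq_eq_norm_sq]

theorem nf_unitary_mul [DecidableEq m] (U : Matrix m m ℂ) (hU : U ∈ unitaryGroup m ℂ)
    (X : Matrix m n ℂ) : nf (U * X) = nf X := by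
  unfold nf
  rw [fr_eq_trace, fr_eq_trace X, conjTranspose_mul]
  have h : Uᴴ * U = 1 := by
    have := mem_unitaryGroup_iff'.mp hU
    rwa [star_eq_conjTranspose] at this
  rw [Matrix.mul_assoc, ← Matrix.mul_assoc Uᴴ U X, h, Matrix.one_mul]

theorem nf_mul_unitary [DecidableEq n] (U : Matrix n n ℂ) (hU : U ∈ unitaryGroup n ℂ)
    (X : Matrix m n ℂ) : nf (X * U) = nf X := by
  rw [← nf_conjTranspose, conjTranspose_mul, nf_unitary_mul, nf_conjTranspose]
  have := Unitary.star_mem hU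
  rwa [star_eq_conjTranspose] at this

theorem norm_le_nf (X : Matrix m n ℂ) (i : m) (j : n) : ‖X i j‖ ≤ nf X := by
  unfold nf
  refine Real.le_sqrt_of_sq_le ?_
  unfold fr
  calc ‖X i j‖ ^ 2 ≤ ∑ j', ‖X i j'‖ ^ 2 :=
        Finset.single_le_sum (f := fun j' => ‖X i j'‖ ^ 2) (fun j' _ => by positivity)
          (Finset.mem_univ j)
    _ ≤ ∑ i', ∑ j', ‖X i' j'‖ ^ 2 :=
        Finset.single_le_sum (f := fun i' => ∑ j', ‖X i' j'‖ ^ 2) (fun i' _ => by positivity)
          (Finset.mem_univ i)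

/-- Cauchy-Schwarz -/
theorem re_trace_le (X Y : Matrix m n ℂ) : |(trace (Xᴴ * Y)).re| ≤ nf X * nf Y := by
  have h1 : |(trace (Xᴴ * Y)).re| ≤ ∑ p : m × n, ‖X p.1 p.2‖ * ‖Y p.1 p.2‖ := by
    refine (Complex.abs_re_le_norm _).trans ?_
    rw [a1_trace, Fintype.sum_prod_type]
    refine (norm_sum_le _ _).trans (Finset.sum_le_sum fun i _ => ?_)
    refine (norm_sum_le _ _).trans (Finset.sum_le_sum fun j _ => ?_)
    rw [norm_mul, norm_star]
  have h2 : (∑ p : m × n, ‖X p.1 p.2‖ * ‖Y p.1 p.2‖) ≤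
      √(∑ p : m × n, ‖X p.1 p.2‖ ^ 2) * √(∑ p : m × n, ‖Y p.1 p.2‖ ^ 2) :=
    Real.sum_mul_le_sqrt_mul_sqrt _ _ _
  refine h1.trans (h2.trans (le_of_eq ?_))
  rw [Fintype.sum_prod_type, Fintype.sum_prod_type]
  rfl

end Pool.Agent.LibSchP
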