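import Pool.Agent.LibSchP.A4a

/-! **E1a.**  Klein identity. -/

open Matrix
open scoped ComplexOrder

namespace Pool.Agent.LibSchP

variable {κ : Type} [Fintype κ] [DecidableEq κ]

theorem e1a_apply (V : Matrix κ κ ℂ) (l : κ → ℝ) (i j : κ) :
    (ud V l) i j = ∑ k, V i k * (l k : ℂ) * star (V j k) := by
  unfold ud dg
  rw [Matrix.mul_apply]
  refine Finset.sum_congr rfl fun k _ => ?_
  rw [Matrix.mul_diagonal, Matrix.conjTranspose_apply]

theorem e1a_mem (V : Matrix κ κ ℂ) (hV : V ∈ unitaryGroup κ ℂ) : Vᴴ * V = 1 :=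
  Matrix.mem_unitaryGroup_iff'.1 hV

theorem e1a_mem' (V : Matrix κ κ ℂ) (hV : V ∈ unitaryGroup κ ℂ) : V * Vᴴ = 1 :=
  Matrix.mem_unitaryGroup_iff.1 hV

theorem e1a_nn (z : ℂ) (a : ℝ) : z * (a : ℂ) * star z = ((‖z‖ ^ 2 * a : ℝ) : ℂ) := by
  have h : z * star z = ((‖z‖ ^ 2 : ℝ) : ℂ) := by
    rw [Complex.star_def, Complex.mul_conj, Complex.normSq_eq_norm_sq]
  calc z * (a : ℂ) * star z = (z * star z) * a := by ring
    _ = _ := by rw [h]; push_cast; ring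

theorem e1a_row (V : Matrix κ κ ℂ) (hV : V ∈ unitaryGroup κ ℂ) (j : κ) :
    ∑ k, ‖V j k‖ ^ 2 = 1 := by
  have h2 := congrFun (congrFun (e1a_mem' V hV) j) j
  rw [Matrix.mul_apply, Matrix.one_apply_eq] at h2
  have h3 : ((∑ k, ‖V j k‖ ^ 2 : ℝ) : ℂ) = 1 := by
    rw [← h2]
    push_cast
    refine Finset.sum_congr rfl fun k _ => ?_
    have := e1a_nn (V j k) 1
    rw [Matrix.conjTranspose_apply]
    push_cast at this
    rw [mul_one, mul_one] at this
    exact this.symm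
  exact_mod_cast h3

theorem e1a_col (V : Matrix κ κ ℂ) (hV : V ∈ unitaryGroup κ ℂ) (k : κ) :
    ∑ j, ‖V j k‖ ^ 2 = 1 := by
  have h2 := congrFun (congrFun (e1a_mem V hV) k) k
  rw [Matrix.mul_apply, Matrix.one_apply_eq] at h2
  have h3 : ((∑ j, ‖V j k‖ ^ 2 : ℝ) : ℂ) = 1 := by
    rw [← h2]
    push_cast
    refine Finset.sum_congr rfl fun j _ => ?_
    have := e1a_nn (V j k) 1
    rw [Matrix.conjTranspose_apply]
    push_cast at this
    rw [mul_one, mul_one] at this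
    rw [mul_comm]
    exact this.symm
  exact_mod_cast h3

theorem e1a_diag (V : Matrix κ κ ℂ) (l q : κ → ℝ) (j : κ) :
    ((ud V l - dg q) j j).re = ∑ k, ‖V j k‖ ^ 2 * l k - q j := by
  rw [Matrix.sub_apply, e1a_apply]
  have h : (dg q) j j = (q j : ℂ) := by
    unfold dg
    rw [Matrix.diagonal_apply_eq]
  have h2 : ∑ k, V j k * (l k : ℂ) * star (V j k) = ((∑ k, ‖V j k‖ ^ 2 * l k : ℝ) : ℂ) := by
    push_cast
    refine Finset.sum_congr rfl fun k _ => ?_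
    rw [e1a_nn]
    push_cast
    rfl
  rw [h, h2, ← Complex.ofReal_sub, Complex.ofReal_re]

/-- Klein's identity: `(ud V l)_jj = ∑_k |V_jk|² l_k` and `∑_j |V_jk|² = ∑_k |V_jk|² = 1`. -/
theorem klein (V : Matrix κ κ ℂ) (hV : V ∈ unitaryGroup κ ℂ) (l q : κ → ℝ) (f f' : ℝ → ℝ) :
    ∑ k, f (l k) = ∑ j, f (q j) + ∑ j, f' (q j) * ((ud V l - dg q) j j).re +
      ∑ j, ∑ k, ‖V j k‖ ^ 2 * (f (l k) - f (q j) - f' (q j) * (l k - q j)) := by
  have h1 : ∑ j, ∑ k, ‖V j k‖ ^ 2 * f (l k) = ∑ k, f (l k) := by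
    rw [Finset.sum_comm]
    refine Finset.sum_congr rfl fun k _ => ?_
    rw [← Finset.sum_mul, e1a_col V hV, one_mul]
  have h2 : ∀ j, ∑ k, ‖V j k‖ ^ 2 * (f (l k) - f (q j) - f' (q j) * (l k - q j)) =
      ∑ k, ‖V j k‖ ^ 2 * f (l k) - f (q j) - f' (q j) * (∑ k, ‖V j k‖ ^ 2 * l k - q j) := by
    intro j
    have h3 : ∀ k, ‖V j k‖ ^ 2 * (f (l k) - f (q j) - f' (q j) * (l k - q j)) =
        ‖V j k‖ ^ 2 * f (l k) - ‖V j k‖ ^ 2 * f (q j) -
          (f' (q j) * (‖V j k‖ ^ 2 * l k) - (f' (q j) * q j) * ‖V j k‖ ^ 2) := by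
      intro k
      ring
    rw [Finset.sum_congr rfl fun k _ => h3 k, Finset.sum_sub_distrib, Finset.sum_sub_distrib,
      Finset.sum_sub_distrib, ← Finset.sum_mul, ← Finset.mul_sum, ← Finset.mul_sum,
      e1a_row V hV j]
    ring
  rw [Finset.sum_congr rfl fun j _ => h2 j, Finset.sum_sub_distrib, Finset.sum_sub_distrib, h1,
    Finset.sum_congr rfl fun j _ => congrArg (fun z => f' (q j) * z) (e1a_diag V l q j)]
  ring

/-- `((ud V l - dg q) V)_jk = (l_k - q_j) V_jk`; hence with `D = ud V l - dg q` and the matrix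
`G = ud V (g ∘ l) - dg (g ∘ q)`:
`∑_k |V_jk|² (l_k - q_j)² g(l_k) - ∑_i |D_ji|² g(q_i) = (D G Dᴴ)_jj`, and `nf G ≤ L nf D` by
`ud_lip` (with `dg q = ud 1 q`). -/
theorem second_row (V : Matrix κ κ ℂ) (hV : V ∈ unitaryGroup κ ℂ) (l q : κ → ℝ) (g : ℝ → ℝ)
    (L : ℝ) (hL : 0 ≤ L) (hg : ∀ k j, |g (l k) - g (q j)| ≤ L * |l k - q j|) (j : κ) :
    |∑ k, ‖V j k‖ ^ 2 * (l k - q j) ^ 2 * g (l k) - ∑ i, ‖(ud V l - dg q) j i‖ ^ 2 * g (q i)| ≤
      L * nf (ud V l - dg q) * ∑ i, ‖(ud V l - dg q) j i‖ ^ 2 := by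
  have hu1 : ∀ x : κ → ℝ, ud (1 : Matrix κ κ ℂ) x = dg x := by
    intro x
    unfold ud
    rw [Matrix.one_mul, Matrix.conjTranspose_one, Matrix.mul_one]
  -- the matrix `G`
  have hG : nf ((ud V fun k => g (l k)) - dg fun k => g (q k)) ≤ L * nf (ud V l - dg q) := by
    have h := ud_lip V 1 hV (one_mem _) l q g L hL hg
    rw [hu1, hu1] at h
    exact h
  set D := ud V l - dg q with hD
  obtain ⟨r, hr⟩ : ∃ r : Matrix (Fin 1) κ ℂ, ∀ a i, r a i = D j i := ⟨fun _ i => D j i, fun _ _ => rfl⟩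
  have hfr : fr r = ∑ i, ‖D j i‖ ^ 2 := by
    unfold fr
    rw [Fin.sum_univ_one]
    exact Finset.sum_congr rfl fun i _ => by rw [hr]
  -- `D V`
  have hDV : D * V = V * dg l - dg q * V := by
    rw [hD, Matrix.sub_mul]
    unfold ud
    rw [Matrix.mul_assoc, e1a_mem V hV, Matrix.mul_one]
  have hrV : ∀ a k, (r * V) a k = ((l k - q j : ℝ) : ℂ) * V j k := by
    intro a k
    have h1 : (r * V) a k = (D * V) j k := by
      rw [Matrix.mul_apply, Matrix.mul_apply]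
      exact Finset.sum_congr rfl fun i _ => by rw [hr]
    rw [h1, hDV, Matrix.sub_apply]
    unfold dg
    rw [Matrix.mul_diagonal, Matrix.diagonal_mul]
    push_cast
    ring
  have key : (r * ((ud V fun k => g (l k)) - dg fun k => g (q k)) * rᴴ) 0 0 =
      ((∑ k, ‖V j k‖ ^ 2 * (l k - q j) ^ 2 * g (l k) - ∑ i, ‖D j i‖ ^ 2 * g (q i) : ℝ) : ℂ) := by
    rw [Matrix.mul_sub, Matrix.sub_mul, Matrix.sub_apply]
    have h1 : (r * (ud V fun k => g (l k)) * rᴴ) 0 0 =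
        ((∑ k, ‖V j k‖ ^ 2 * (l k - q j) ^ 2 * g (l k) : ℝ) : ℂ) := by
      have e : r * (ud V fun k => g (l k)) * rᴴ = (r * V) * dg (fun k => g (l k)) * (r * V)ᴴ := by
        unfold ud
        rw [Matrix.conjTranspose_mul]
        simp only [Matrix.mul_assoc]
      rw [e, Matrix.mul_apply]
      push_cast
      refine Finset.sum_congr rfl fun k _ => ?_
      unfold dg
      rw [Matrix.mul_diagonal, Matrix.conjTranspose_apply, e1a_nn, hrV, norm_mul,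
        Complex.norm_real, Real.norm_eq_abs, mul_pow, sq_abs]
      push_cast
      ring
    have h2 : (r * (dg fun k => g (q k)) * rᴴ) 0 0 = ((∑ i, ‖D j i‖ ^ 2 * g (q i) : ℝ) : ℂ) := by
      rw [Matrix.mul_apply]
      push_cast
      refine Finset.sum_congr rfl fun k _ => ?_
      unfold dg
      rw [Matrix.mul_diagonal, Matrix.conjTranspose_apply, e1a_nn, hr]
      push_cast
      rfl
    rw [h1, h2, ← Complex.ofReal_sub]
  have h3 : |∑ k, ‖V j k‖ ^ 2 * (l k - q j) ^ 2 * g (l k) - ∑ i, ‖D j i‖ ^ 2 * g (q i)| =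
      ‖(r * ((ud V fun k => g (l k)) - dg fun k => g (q k)) * rᴴ) 0 0‖ := by
    rw [key, Complex.norm_real, Real.norm_eq_abs]
  rw [h3]
  refine (norm_le_nf _ 0 0).trans ?_
  refine (nf_mul_le _ _).trans ?_
  rw [nf_conjTranspose]
  have h4 : nf (r * ((ud V fun k => g (l k)) - dg fun k => g (q k))) ≤
      nf r * (L * nf D) := (nf_mul_le _ _).trans (mul_le_mul_of_nonneg_left hG (nf_nonneg _))
  refine (mul_le_mul_of_nonneg_right h4 (nf_nonneg _)).trans ?_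
  rw [← hfr, ← nf_sq]
  exact le_of_eq (by ring)

end Pool.Agent.LibSchP
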