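import Pool.Agent.LibSchP.Defs
import Pool.Agent.LibSch.PwBasic

/-! **A2.**  API of `dg` and `ud`. -/

open Matrix
open scoped ComplexOrder

namespace Pool.Agent.LibSchP

variable {κ m n : Type} [Fintype κ] [Fintype m] [Fintype n] [DecidableEq n] [DecidableEq κ]

theorem dg_apply (a : n → ℝ) (j k : n) : dg a j k = if j = k then (a j : ℂ) else 0 := by
  simp [dg, diagonal_apply]

theorem dg_mul (a b : n → ℝ) : dg a * dg b = dg fun k => a k * b k := by
  unfold dg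
  rw [diagonal_mul_diagonal]
  congr 1
  funext k
  push_cast
  rfl

theorem dg_conjTranspose (a : n → ℝ) : (dg a)ᴴ = dg a := by
  unfold dg
  rw [diagonal_conjTranspose]
  congr 1
  funext k
  simp

theorem dg_isHermitian (a : n → ℝ) : (dg a).IsHermitian := dg_conjTranspose a

theorem a2_dg_one : (dg (fun _ => (1 : ℝ)) : Matrix n n ℂ) = 1 := by
  unfold dg
  simp

/-- `(dg a)⁻¹` -/
theorem dg_mul_inv (a : n → ℝ) (ha : ∀ k, 0 < a k) : dg a * (dg fun k => (a k)⁻¹) = 1 := by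
  rw [dg_mul, ← a2_dg_one]
  congr 1
  funext k
  exact mul_inv_cancel₀ (ha k).ne'

theorem dg_inv_mul (a : n → ℝ) (ha : ∀ k, 0 < a k) : (dg fun k => (a k)⁻¹) * dg a = 1 := by
  rw [dg_mul, ← a2_dg_one]
  congr 1
  funext k
  exact inv_mul_cancel₀ (ha k).ne'

theorem a2_dg_form (a : κ → ℝ) (η : κ → ℂ) :
    star η ⬝ᵥ (dg a *ᵥ η) = ((∑ j, a j * ‖η j‖ ^ 2 : ℝ) : ℂ) := by
  unfold dg
  rw [dotProduct]
  push_cast
  refine Finset.sum_congr rfl fun j _ => ?_
  rw [mulVec_diagonal, Pi.star_apply]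
  have h : star (η j) * η j = ((‖η j‖ ^ 2 : ℝ) : ℂ) := by
    rw [Complex.star_def, mul_comm, Complex.mul_conj, Complex.normSq_eq_norm_sq]
  rw [mul_left_comm, h]
  push_cast
  ring

theorem a2_qf (V : Matrix κ n ℂ) (a : κ → ℝ) (ξ : n → ℂ) :
    ((qf V a ξ : ℝ) : ℂ) = star ξ ⬝ᵥ ((Vᴴ * dg a * V) *ᵥ ξ) := by
  have h1 := a2_dg_form a (V *ᵥ ξ)
  unfold qf
  rw [← h1, star_mulVec, ← mulVec_mulVec, ← mulVec_mulVec, ← dotProduct_mulVec]

/-- an isometry: `|V ξ|² = |ξ|²`;  more generally `Vᴴ a V = b` gives `qf V a ξ = ∑ b_k |ξ_k|²` -/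
theorem qf_of_eq (V : Matrix κ n ℂ) (a : κ → ℝ) (b : n → ℝ) (h : Vᴴ * dg a * V = dg b)
    (ξ : n → ℂ) : qf V a ξ = ∑ k, b k * ‖ξ k‖ ^ 2 := by
  have h1 := a2_qf V a ξ
  rw [h, a2_dg_form] at h1
  exact_mod_cast h1

theorem qf_one (V : Matrix κ n ℂ) (h : Vᴴ * V = 1) (ξ : n → ℂ) :
    qf V (fun _ => 1) ξ = ∑ k, ‖ξ k‖ ^ 2 := by
  rw [qf_of_eq V (fun _ => 1) (fun _ => 1) (by rw [a2_dg_one, Matrix.mul_one, h, a2_dg_one])]
  simp

theorem ud_isHermitian (U : Matrix n n ℂ) (x : n → ℝ) : (ud U x).IsHermitian :=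
  isHermitian_mul_mul_conjTranspose U (dg_isHermitian x)

theorem a2_uu (U : Matrix n n ℂ) (hU : U ∈ unitaryGroup n ℂ) : Uᴴ * U = 1 := by
  rw [mem_unitaryGroup_iff'] at hU
  exact hU

theorem a2_uu' (U : Matrix n n ℂ) (hU : U ∈ unitaryGroup n ℂ) : U * Uᴴ = 1 := by
  rw [mem_unitaryGroup_iff] at hU
  exact hU

theorem ud_mul (U : Matrix n n ℂ) (hU : U ∈ unitaryGroup n ℂ) (x y : n → ℝ) :
    ud U x * ud U y = ud U fun k => x k * y k := by
  unfold ud
  rw [← dg_mul]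
  calc U * dg x * Uᴴ * (U * dg y * Uᴴ) = U * dg x * (Uᴴ * U) * dg y * Uᴴ := by
        simp only [Matrix.mul_assoc]
    _ = U * (dg x * dg y) * Uᴴ := by
        rw [a2_uu U hU, Matrix.mul_one]
        simp only [Matrix.mul_assoc]

/-- spectral theorem (`Matrix.IsHermitian.spectral_theorem`) -/
theorem ud_exists (H : Matrix n n ℂ) (hH : H.IsHermitian) :
    H = ud (hH.eigenvectorUnitary : Matrix n n ℂ) hH.eigenvalues := by
  have h := hH.spectral_theorem
  rw [Unitary.conjStarAlgAut_apply] at h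
  exact h

theorem a2_back (U : Matrix n n ℂ) (hU : U ∈ unitaryGroup n ℂ) (x : n → ℝ) :
    Uᴴ * ud U x * U = dg x := by
  unfold ud
  calc Uᴴ * (U * dg x * Uᴴ) * U = (Uᴴ * U) * dg x * (Uᴴ * U) := by
        simp only [Matrix.mul_assoc]
    _ = dg x := by rw [a2_uu U hU, Matrix.one_mul, Matrix.mul_one]

theorem a2_diag (x : n → ℝ) (k : n) :
    star (Pi.single k (1 : ℂ)) ⬝ᵥ (dg x *ᵥ Pi.single k 1) = (x k : ℂ) := by
  rw [a2_dg_form]
  congr 1
  rw [Finset.sum_eq_single k]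
  · simp
  · intro j _ hj
    simp [hj]
  · simp

theorem a2_injective (U : Matrix n n ℂ) (hU : U ∈ unitaryGroup n ℂ) :
    Function.Injective U.mulVec := by
  intro a b hab
  have h := congrArg (fun v => Uᴴ *ᵥ v) hab
  simpa [mulVec_mulVec, a2_uu U hU] using h

theorem ud_posDef (U : Matrix n n ℂ) (hU : U ∈ unitaryGroup n ℂ) (x : n → ℝ)
    (hx : ∀ k, 0 < x k) : (ud U x).PosDef := by
  have hd : (dg x).PosDef := by
    refine PosDef.of_dotProduct_mulVec_pos (dg_isHermitian x) fun η hη => ?_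
    rw [a2_dg_form]
    have : 0 < ∑ j, x j * ‖η j‖ ^ 2 := by
      obtain ⟨k, hk⟩ := Function.ne_iff.mp hη
      refine Finset.sum_pos' (fun j _ => mul_nonneg (hx j).le (by positivity))
        ⟨k, Finset.mem_univ _, mul_pos (hx k) ?_⟩
      have : 0 < ‖η k‖ := norm_pos_iff.mpr hk
      positivity
    exact_mod_cast this
  have h2 := hd.conjTranspose_mul_mul_same (B := Uᴴ) (by
    intro a b hab
    have h := congrArg (fun v => U *ᵥ v) hab
    simpa [mulVec_mulVec, a2_uu' U hU] using h)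
  rwa [conjTranspose_conjTranspose] at h2

theorem ud_posSemidef (U : Matrix n n ℂ) (x : n → ℝ) (hx : ∀ k, 0 ≤ x k) :
    (ud U x).PosSemidef := by
  have hd : (dg x).PosSemidef := by
    unfold dg
    refine PosSemidef.diagonal fun k => ?_
    show (0 : ℂ) ≤ (x k : ℂ)
    exact_mod_cast hx k
  have h2 := hd.conjTranspose_mul_mul_same Uᴴ
  rwa [conjTranspose_conjTranspose] at h2

/-- converse of `ud_posDef`: the `x k` are eigenvalues (`xᴴ (ud U x) x` at the `k`-th column) -/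
theorem ud_pos_of_posDef (U : Matrix n n ℂ) (hU : U ∈ unitaryGroup n ℂ) (x : n → ℝ)
    (h : (ud U x).PosDef) (k : n) : 0 < x k := by
  have h2 := h.conjTranspose_mul_mul_same (a2_injective U hU)
  rw [a2_back U hU] at h2
  have h3 := h2.dotProduct_mulVec_pos (x := Pi.single k 1) (by
    intro h0
    have := congrFun h0 k
    simp at this)
  rw [a2_diag] at h3
  exact_mod_cast h3

theorem ud_nonneg_of_posSemidef (U : Matrix n n ℂ) (hU : U ∈ unitaryGroup n ℂ) (x : n → ℝ)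
    (h : (ud U x).PosSemidef) (k : n) : 0 ≤ x k := by
  have h2 := h.conjTranspose_mul_mul_same U
  rw [a2_back U hU] at h2
  unfold dg at h2
  have h3 := posSemidef_diagonal_iff.mp h2 k
  exact_mod_cast h3

theorem ud_exists_pos (H : Matrix n n ℂ) (hH : H.PosDef) :
    ∃ U ∈ unitaryGroup n ℂ, ∃ x : n → ℝ, (∀ k, 0 < x k) ∧ H = ud U x := by
  have h := ud_exists H hH.isHermitian
  refine ⟨_, hH.isHermitian.eigenvectorUnitary.2, _, ?_, h⟩
  exact ud_pos_of_posDef _ hH.isHermitian.eigenvectorUnitary.2 _ (h ▸ hH)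

theorem ud_exists_nonneg (H : Matrix n n ℂ) (hH : H.PosSemidef) :
    ∃ U ∈ unitaryGroup n ℂ, ∃ x : n → ℝ, (∀ k, 0 ≤ x k) ∧ H = ud U x := by
  have h := ud_exists H hH.isHermitian
  refine ⟨_, hH.isHermitian.eigenvectorUnitary.2, _, ?_, h⟩
  exact hH.eigenvalues_nonneg

theorem ud_one_fun (x : n → ℝ) : ud (1 : Matrix n n ℂ) x = dg x := by
  unfold ud
  rw [conjTranspose_one, Matrix.one_mul, Matrix.mul_one]

/-- the functional calculus is well defined: with `W = Uᴴ V` the hypothesis says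
`x_j W_jk = W_jk y_k`, hence `f(x_j) W_jk = W_jk f(y_k)`. -/
theorem ud_fun (U V : Matrix n n ℂ) (hU : U ∈ unitaryGroup n ℂ) (hV : V ∈ unitaryGroup n ℂ)
    (x y : n → ℝ) (h : ud U x = ud V y) (f : ℝ → ℝ) :
    (ud U fun k => f (x k)) = ud V fun k => f (y k) := by
  have h1 : dg x * (Uᴴ * V) = (Uᴴ * V) * dg y := by
    have h2 := congrArg (fun M => Uᴴ * M * V) h
    unfold ud at h2
    calc dg x * (Uᴴ * V) = (Uᴴ * U) * dg x * (Uᴴ * V) := by rw [a2_uu U hU, Matrix.one_mul]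
      _ = Uᴴ * (U * dg x * Uᴴ) * V := by simp only [Matrix.mul_assoc]
      _ = Uᴴ * (V * dg y * Vᴴ) * V := h2
      _ = (Uᴴ * V) * dg y * (Vᴴ * V) := by simp only [Matrix.mul_assoc]
      _ = (Uᴴ * V) * dg y := by rw [a2_uu V hV, Matrix.mul_one]
  have h2 : (dg fun k => f (x k)) * (Uᴴ * V) = (Uᴴ * V) * dg fun k => f (y k) := by
    ext j k
    have h3 := congrFun (congrFun h1 j) k
    unfold dg at h3 ⊢
    rw [diagonal_mul, mul_diagonal] at h3 ⊢
    by_cases hW : (Uᴴ * V) j k = 0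
    · rw [hW]; simp
    · have h4 : (x j : ℂ) = y k := by
        have : ((x j : ℂ) - y k) * (Uᴴ * V) j k = 0 := by linear_combination h3
        rcases mul_eq_zero.mp this with h5 | h5
        · linear_combination h5
        · exact absurd h5 hW
      have h5 : x j = y k := by exact_mod_cast h4
      show ((f (x j) : ℝ) : ℂ) * (Uᴴ * V) j k = (Uᴴ * V) j k * ((f (y k) : ℝ) : ℂ)
      rw [h5, mul_comm]
  unfold ud
  calc U * (dg fun k => f (x k)) * Uᴴ = U * (dg fun k => f (x k)) * Uᴴ * (V * Vᴴ) := by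
        rw [a2_uu' V hV, Matrix.mul_one]
    _ = U * ((dg fun k => f (x k)) * (Uᴴ * V)) * Vᴴ := by simp only [Matrix.mul_assoc]
    _ = U * ((Uᴴ * V) * dg fun k => f (y k)) * Vᴴ := by rw [h2]
    _ = (U * Uᴴ) * (V * (dg fun k => f (y k)) * Vᴴ) := by simp only [Matrix.mul_assoc]
    _ = V * (dg fun k => f (y k)) * Vᴴ := by rw [a2_uu' U hU, Matrix.one_mul]

/-- `pw` from any diagonalisation of `XᴴX` (`PwBasic_pw`; the characteristic polynomial of
`U D Uᴴ` is that of `D`; `PwBasic_S_diagonal`) -/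
theorem pw_ud (p : ℝ) (X : Matrix m n ℂ) (U : Matrix n n ℂ) (hU : U ∈ unitaryGroup n ℂ)
    (x : n → ℝ) (h : Xᴴ * X = ud U x) : LibSch.pw p X = ∑ k, x k ^ (p / 2) := by
  have h1 := LibSch.PwBasic_S_diagonal (p / 2) (fun k => (x k : ℂ))
  rw [LibSch.PwBasic_pw, h]
  unfold LibSch.PwBasic_S at h1 ⊢
  unfold ud
  rw [Matrix.mul_assoc, charpoly_mul_comm, Matrix.mul_assoc, a2_uu U hU, Matrix.mul_one]
  unfold dg
  rw [h1]
  simp

/-- `pw` depends only on `XᴴX` -/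
theorem pw_congr {m' : Type} [Fintype m'] (p : ℝ) (X : Matrix m n ℂ) (Y : Matrix m' n ℂ)
    (h : Xᴴ * X = Yᴴ * Y) : LibSch.pw p X = LibSch.pw p Y := by
  rw [LibSch.PwBasic_pw, LibSch.PwBasic_pw, h]

/-- `pw` depends only on `XXᴴ` (`pw_conjTranspose`) -/
theorem pw_congr' {n' : Type} [Fintype n'] [DecidableEq n'] [DecidableEq m] (p : ℝ) (hp : 0 < p)
    (X : Matrix m n ℂ) (Y : Matrix m n' ℂ) (h : X * Xᴴ = Y * Yᴴ) :
    LibSch.pw p X = LibSch.pw p Y := by
  rw [← LibSch.pw_conjTranspose p hp X, ← LibSch.pw_conjTranspose p hp Y]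
  refine pw_congr p _ _ ?_
  rw [conjTranspose_conjTranspose, conjTranspose_conjTranspose, h]

end Pool.Agent.LibSchP
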