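import Pool.Agent.LibSchP.Defs

/-! **I1.**  The basic integral. -/

open MeasureTheory Set

namespace Pool.Agent.LibSchP

theorem i1_eqOn (s x : ℝ) (h0 : 0 < s) (h1 : s < 1) (hx : 0 < x) :
    EqOn (fun r : ℝ => r ^ (s - 1) / (x + r))
      (fun r : ℝ => x⁻¹ * Real.rpowIntegrand₀₁ s r x) (Ioi 0) := by
  intro r hr
  have hr0 : (0 : ℝ) < r := hr
  have h := Real.rpowIntegrand₀₁_eq_pow_div (p := s) ⟨h0, h1⟩ hr0.le hx.le
  show r ^ (s - 1) / (x + r) = x⁻¹ * Real.rpowIntegrand₀₁ s r x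
  rw [h]
  have h2 : x + r ≠ 0 := by positivity
  have h3 : r + x ≠ 0 := by positivity
  field_simp
  ring

theorem i1_cst (s : ℝ) (h0 : 0 < s) (h1 : s < 1) :
    cst s = ∫ r in Ioi (0 : ℝ), Real.rpowIntegrand₀₁ s r 1 := by
  unfold cst
  refine setIntegral_congr_fun measurableSet_Ioi ?_
  intro r hr
  have h := i1_eqOn s 1 h0 h1 one_pos hr
  simp only [inv_one, one_mul] at h
  exact h

/-- scaling `r = x ρ` (`MeasureTheory.integral_comp_mul_left_Ioi`), integrability e.g. from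
`Real.integrableOn_rpowIntegrand₀₁_Ioi` (Mathlib's `rpowIntegrand₀₁ s t 1 = t^(s-1)/(t+1)`). -/
theorem int_base (s x : ℝ) (h0 : 0 < s) (h1 : s < 1) (hx : 0 < x) :
    IntegrableOn (fun r : ℝ => r ^ (s - 1) / (x + r)) (Ioi 0) ∧
      ∫ r in Ioi (0 : ℝ), r ^ (s - 1) / (x + r) = cst s * x ^ (s - 1) := by
  have hI : IntegrableOn (fun r : ℝ => x⁻¹ * Real.rpowIntegrand₀₁ s r x) (Ioi 0) :=
    (Real.integrableOn_rpowIntegrand₀₁_Ioi (p := s) ⟨h0, h1⟩ hx.le).const_mul _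
  refine ⟨hI.congr_fun (fun r hr => (i1_eqOn s x h0 h1 hx hr).symm) measurableSet_Ioi, ?_⟩
  rw [setIntegral_congr_fun measurableSet_Ioi (i1_eqOn s x h0 h1 hx), integral_const_mul,
    Real.integral_rpowIntegrand₀₁_eq_rpow_mul_const (p := s) ⟨h0, h1⟩ hx.le,
    i1_cst s h0 h1, Real.rpow_sub_one hx.ne']
  field_simp

theorem cst_pos (s : ℝ) (h0 : 0 < s) (h1 : s < 1) : 0 < cst s := by
  rw [i1_cst s h0 h1]
  exact Real.integral_rpowIntegrand₀₁_one_pos (p := s) ⟨h0, h1⟩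

end Pool.Agent.LibSchP
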