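import Pool.Agent.LibSchP.A2

/-! **C2a.**  The affine minorants in Ando`s theorem. -/

open Matrix MeasureTheory Set
open scoped ComplexOrder

namespace Pool.Agent.LibSchP

variable {m n : Type} [Fintype m] [Fintype n] [DecidableEq m] [DecidableEq n]

/-- the form `⟨K, L_δ² (L_δ + λ R_B)⁻¹ K⟩` in the double eigenbasis (`δ = ud U d`, `B = ud W b`) -/
noncomputable def hl (lam : ℝ) (K : Matrix m n ℂ) (U : Matrix m m ℂ) (d : m → ℝ)
    (W : Matrix n n ℂ) (b : n → ℝ) : ℝ :=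
  ∑ j, ∑ k, d j ^ 2 / (d j + lam * b k) * ‖(Uᴴ * K * W) j k‖ ^ 2

omit [DecidableEq n] in
theorem c2a_tr1 (A B : Matrix m n ℂ) (d : m → ℝ) :
    (trace (Aᴴ * dg d * B)).re = ∑ j, ∑ k, d j * (star (A j k) * B j k).re := by
  have h : trace (Aᴴ * dg d * B) = ∑ k, ∑ j, star (A j k) * (d j : ℂ) * B j k := by
    simp only [trace, diag, mul_apply, conjTranspose_apply, dg, diagonal_apply, mul_ite, mul_zero,
      Finset.sum_ite_eq', Finset.mem_univ, if_true]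
  rw [h, Finset.sum_comm, Complex.re_sum]
  refine Finset.sum_congr rfl fun j _ => ?_
  rw [Complex.re_sum]
  refine Finset.sum_congr rfl fun k _ => ?_
  have : star (A j k) * (d j : ℂ) * B j k = (d j : ℂ) * (star (A j k) * B j k) := by ring
  rw [this, Complex.re_ofReal_mul]

omit [DecidableEq m] in
theorem c2a_tr2 (A : Matrix m n ℂ) (b : n → ℝ) :
    (trace (A * dg b * Aᴴ)).re = ∑ j, ∑ k, b k * ‖A j k‖ ^ 2 := by
  have h : trace (A * dg b * Aᴴ) = ∑ j, ∑ k, A j k * (b k : ℂ) * star (A j k) := by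
    simp only [trace, diag, mul_apply, conjTranspose_apply, dg, diagonal_apply, mul_ite, mul_zero,
      Finset.sum_ite_eq', Finset.mem_univ, if_true]
  rw [h, Complex.re_sum]
  refine Finset.sum_congr rfl fun j _ => ?_
  rw [Complex.re_sum]
  refine Finset.sum_congr rfl fun k _ => ?_
  have : A j k * (b k : ℂ) * star (A j k) = (b k : ℂ) * (A j k * star (A j k)) := by ring
  rw [this, Complex.re_ofReal_mul]
  congr 1
  rw [Complex.star_def, Complex.mul_conj, Complex.ofReal_re, Complex.normSq_eq_norm_sq]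

omit [DecidableEq n] in
theorem c2a_selfre (z : ℂ) : (star z * z).re = ‖z‖ ^ 2 := by
  rw [Complex.star_def, mul_comm, Complex.mul_conj, Complex.ofReal_re, Complex.normSq_eq_norm_sq]

/-- the left-hand side in the double eigenbasis -/
theorem c2a_lhs (lam : ℝ) (K Y : Matrix m n ℂ) (U : Matrix m m ℂ) (d : m → ℝ)
    (W : Matrix n n ℂ) (b : n → ℝ) (hU : U ∈ unitaryGroup m ℂ) (hW : W ∈ unitaryGroup n ℂ) :
    2 * (trace (Kᴴ * ud U d * Y)).re - (trace (Yᴴ * ud U d * Y)).re -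
      lam * (trace (Y * ud W b * Yᴴ)).re =
    ∑ j, ∑ k, (2 * (d j * (star ((Uᴴ * K * W) j k) * (Uᴴ * Y * W) j k).re) -
      d j * ‖(Uᴴ * Y * W) j k‖ ^ 2 - lam * (b k * ‖(Uᴴ * Y * W) j k‖ ^ 2)) := by
  have hW' : W * Wᴴ = 1 := (mem_unitaryGroup_iff.1 hW)
  have hU' : U * Uᴴ = 1 := (mem_unitaryGroup_iff.1 hU)
  have e1 : ∀ A B : Matrix m n ℂ, trace (Aᴴ * ud U d * B) =
      trace ((Uᴴ * A * W)ᴴ * dg d * (Uᴴ * B * W)) := by
    intro A B
    have : (Uᴴ * A * W)ᴴ * dg d * (Uᴴ * B * W) = Wᴴ * (Aᴴ * ud U d * B * W) := by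
      simp only [conjTranspose_mul, conjTranspose_conjTranspose, ud, Matrix.mul_assoc]
    rw [this, trace_mul_comm Wᴴ, Matrix.mul_assoc _ W Wᴴ, hW', Matrix.mul_one]
  have e2 : trace (Y * ud W b * Yᴴ) = trace ((Uᴴ * Y * W) * dg b * (Uᴴ * Y * W)ᴴ) := by
    have : (Uᴴ * Y * W) * dg b * (Uᴴ * Y * W)ᴴ = Uᴴ * (Y * ud W b * Yᴴ * U) := by
      simp only [conjTranspose_mul, conjTranspose_conjTranspose, ud, Matrix.mul_assoc]
    rw [this, trace_mul_comm Uᴴ, Matrix.mul_assoc _ U Uᴴ, hU', Matrix.mul_one]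
  rw [e1 K Y, e1 Y Y, e2, c2a_tr1, c2a_tr1, c2a_tr2]
  simp only [c2a_selfre, Finset.mul_sum, ← Finset.sum_sub_distrib]

/-- the affine minorants: for every `Y`
`2 Re tr Kᴴ δ Y - tr Yᴴ δ Y - λ tr Y B Yᴴ ≤ hl`; termwise in the double eigenbasis. -/
theorem hl_ge (lam : ℝ) (hl0 : 0 < lam) (K Y : Matrix m n ℂ) (U : Matrix m m ℂ) (d : m → ℝ)
    (W : Matrix n n ℂ) (b : n → ℝ) (hU : U ∈ unitaryGroup m ℂ) (hW : W ∈ unitaryGroup n ℂ)
    (hd : ∀ j, 0 < d j) (hb : ∀ k, 0 < b k) :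
    2 * (trace (Kᴴ * ud U d * Y)).re - (trace (Yᴴ * ud U d * Y)).re -
      lam * (trace (Y * ud W b * Yᴴ)).re ≤ hl lam K U d W b := by
  rw [c2a_lhs lam K Y U d W b hU hW, hl]
  refine Finset.sum_le_sum fun j _ => Finset.sum_le_sum fun k _ => ?_
  set z := (Uᴴ * K * W) j k
  set y := (Uᴴ * Y * W) j k
  have hc : 0 < d j + lam * b k := add_pos (hd j) (mul_pos hl0 (hb k))
  have h1 : (star z * y).re ≤ ‖z‖ * ‖y‖ := by
    refine (Complex.re_le_norm _).trans ?_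
    rw [norm_mul, norm_star]
  have h2 : d j * (star z * y).re ≤ d j * (‖z‖ * ‖y‖) := mul_le_mul_of_nonneg_left h1 (hd j).le
  have h3 : 2 * (d j * (‖z‖ * ‖y‖)) - (d j + lam * b k) * ‖y‖ ^ 2 ≤
      d j ^ 2 / (d j + lam * b k) * ‖z‖ ^ 2 := by
    rw [div_mul_eq_mul_div, le_div_iff₀ hc]
    nlinarith [sq_nonneg ((d j + lam * b k) * ‖y‖ - d j * ‖z‖)]
  nlinarith [h2, h3]

/-- equality for `Y = U Ỹ Wᴴ`, `Ỹ_jk = d_j K̃_jk/(d_j + λ b_k)`, `K̃ = Uᴴ K W`. -/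
theorem hl_attained (lam : ℝ) (hl0 : 0 < lam) (K : Matrix m n ℂ) (U : Matrix m m ℂ) (d : m → ℝ)
    (W : Matrix n n ℂ) (b : n → ℝ) (hU : U ∈ unitaryGroup m ℂ) (hW : W ∈ unitaryGroup n ℂ)
    (hd : ∀ j, 0 < d j) (hb : ∀ k, 0 < b k) : ∃ Y : Matrix m n ℂ,
    2 * (trace (Kᴴ * ud U d * Y)).re - (trace (Yᴴ * ud U d * Y)).re -
      lam * (trace (Y * ud W b * Yᴴ)).re = hl lam K U d W b := by
  have hW' : Wᴴ * W = 1 := (mem_unitaryGroup_iff'.1 hW)
  have hU' : Uᴴ * U = 1 := (mem_unitaryGroup_iff'.1 hU)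
  refine ⟨U * (of fun j k => ((d j / (d j + lam * b k) : ℝ) : ℂ) * (Uᴴ * K * W) j k) * Wᴴ, ?_⟩
  rw [c2a_lhs lam K _ U d W b hU hW, hl]
  have hY : Uᴴ * (U * (of fun j k => ((d j / (d j + lam * b k) : ℝ) : ℂ) * (Uᴴ * K * W) j k) * Wᴴ)
      * W = of fun j k => ((d j / (d j + lam * b k) : ℝ) : ℂ) * (Uᴴ * K * W) j k := by
    rw [← Matrix.mul_assoc, ← Matrix.mul_assoc, hU', Matrix.one_mul, Matrix.mul_assoc, hW',
      Matrix.mul_one]
  rw [hY]
  refine Finset.sum_congr rfl fun j _ => Finset.sum_congr rfl fun k _ => ?_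
  have hc : 0 < d j + lam * b k := add_pos (hd j) (mul_pos hl0 (hb k))
  simp only [of_apply]
  set z := (Uᴴ * K * W) j k
  have h1 : (star z * (((d j / (d j + lam * b k) : ℝ) : ℂ) * z)).re =
      d j / (d j + lam * b k) * ‖z‖ ^ 2 := by
    have : star z * (((d j / (d j + lam * b k) : ℝ) : ℂ) * z) =
        ((d j / (d j + lam * b k) : ℝ) : ℂ) * (star z * z) := by ring
    rw [this, Complex.re_ofReal_mul, c2a_selfre]
  have h2 : ‖((d j / (d j + lam * b k) : ℝ) : ℂ) * z‖ ^ 2 =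
      (d j / (d j + lam * b k)) ^ 2 * ‖z‖ ^ 2 := by
    rw [norm_mul, mul_pow, Complex.norm_real, Real.norm_eq_abs, sq_abs]
  rw [h1, h2]
  field_simp
  ring

end Pool.Agent.LibSchP
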