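import Pool.Agent.LibSchP.A4b

/-! **T2.**  Continuity of `pw`. -/

open Matrix
open scoped ComplexOrder

namespace Pool.Agent.LibSchP

variable {m n : Type} [Fintype m] [Fintype n] [DecidableEq n]

theorem t2_sub (u x y : ℝ) (h0 : 0 < u) (h1 : u < 1) (hx : 0 ≤ x) (hy : 0 ≤ y) (hxy : y ≤ x) :
    |x ^ u - y ^ u| ≤ (x - y) ^ u := by
  have hmono : y ^ u ≤ x ^ u := Real.rpow_le_rpow hy hxy h0.le
  rw [abs_of_nonneg (sub_nonneg.2 hmono)]
  have h2 := Real.rpow_add_le_add_rpow hy (sub_nonneg.2 hxy) h0.le h1.le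
  have h3 : y + (x - y) = x := by ring
  rw [h3] at h2
  linarith

/-- `|x^u - y^u| ≤ |x-y|^u ≤ ε + C (x-y)²` -/
theorem rpow_mod (u ε : ℝ) (h0 : 0 < u) (h1 : u < 1) (hε : 0 < ε) : ∃ C : ℝ, 0 ≤ C ∧
    ∀ x y : ℝ, 0 ≤ x → 0 ≤ y → |x ^ u - y ^ u| ≤ ε + C * (x - y) ^ 2 := by
  set δ : ℝ := ε ^ (1 / u) with hδ
  have hδ0 : 0 < δ := Real.rpow_pos_of_pos hε _
  have hδu : δ ^ u = ε := by
    rw [hδ, ← Real.rpow_mul hε.le, one_div, inv_mul_cancel₀ h0.ne', Real.rpow_one]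
  set C : ℝ := (δ ^ (2 - u))⁻¹ with hC
  have hD0 : 0 < δ ^ (2 - u) := Real.rpow_pos_of_pos hδ0 _
  have hC0 : 0 ≤ C := (inv_pos.2 hD0).le
  have key : ∀ t : ℝ, 0 ≤ t → t ^ u ≤ ε + C * t ^ 2 := by
    intro t ht
    rcases le_or_gt t δ with htd | htd
    · have h2 : t ^ u ≤ ε := by
        rw [← hδu]
        exact Real.rpow_le_rpow ht htd h0.le
      have h3 : 0 ≤ C * t ^ 2 := by positivity
      linarith
    · have ht0 : 0 < t := lt_trans hδ0 htd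
      have h2 : δ ^ (2 - u) ≤ t ^ (2 - u) :=
        Real.rpow_le_rpow hδ0.le htd.le (by linarith)
      have h3 : t ^ u * t ^ (2 - u) = t ^ 2 := by
        rw [← Real.rpow_add ht0]
        have : u + (2 - u) = ((2 : ℕ) : ℝ) := by push_cast; ring
        rw [this, Real.rpow_natCast]
      have h4 : t ^ u * δ ^ (2 - u) ≤ t ^ 2 := by
        rw [← h3]
        exact mul_le_mul_of_nonneg_left h2 (Real.rpow_nonneg ht _)
      have h5 : t ^ u ≤ C * t ^ 2 := by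
        rw [hC, inv_mul_eq_div, le_div_iff₀ hD0]
        exact h4
      linarith
  refine ⟨C, hC0, ?_⟩
  intro x y hx hy
  rcases le_total y x with h | h
  · exact le_trans (t2_sub u x y h0 h1 hx hy h) (key _ (sub_nonneg.2 h))
  · have h2 := le_trans (t2_sub u y x h0 h1 hy hx h) (key _ (sub_nonneg.2 h))
    rw [abs_sub_comm]
    have h3 : (x - y) ^ 2 = (y - x) ^ 2 := by ring
    rw [h3]
    exact h2

theorem t2_row (S : Matrix n n ℂ) (hS : S * Sᴴ = 1) (j : n) : ∑ k, ‖S j k‖ ^ 2 = 1 := by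
  have h2 := congrFun (congrFun hS j) j
  rw [Matrix.mul_apply, Matrix.one_apply_eq] at h2
  have h3 : ((∑ k, ‖S j k‖ ^ 2 : ℝ) : ℂ) = 1 := by
    rw [← h2]
    push_cast
    refine Finset.sum_congr rfl fun k _ => ?_
    rw [conjTranspose_apply]
    exact (Complex.mul_conj' (S j k)).symm
  exact_mod_cast h3

theorem t2_col (S : Matrix n n ℂ) (hS : Sᴴ * S = 1) (k : n) : ∑ j, ‖S j k‖ ^ 2 = 1 := by
  have h2 := congrFun (congrFun hS k) k
  rw [Matrix.mul_apply, Matrix.one_apply_eq] at h2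
  have h3 : ((∑ j, ‖S j k‖ ^ 2 : ℝ) : ℂ) = 1 := by
    rw [← h2]
    push_cast
    refine Finset.sum_congr rfl fun j _ => ?_
    rw [conjTranspose_apply, mul_comm]
    exact (Complex.mul_conj' (S j k)).symm
  exact_mod_cast h3

/-- double eigenbasis (`ud_fr`): `|∑ x_j^u - ∑ y_k^u| ≤ ∑ |W_jk|² |x_j^u - y_k^u|` -/
theorem pw_cont (p : ℝ) (h0 : 0 < p) (h2 : p < 2) (ε : ℝ) (hε : 0 < ε) : ∃ C : ℝ, 0 ≤ C ∧
    ∀ X Y : Matrix m n ℂ, |LibSch.pw p X - LibSch.pw p Y| ≤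
      ε + C * fr (Xᴴ * X - Yᴴ * Y) := by
  have hN : (0 : ℝ) < (Fintype.card n : ℝ) + 1 := by positivity
  obtain ⟨C, hC, hmod⟩ := rpow_mod (p / 2) (ε / ((Fintype.card n : ℝ) + 1)) (by linarith)
    (by linarith) (by positivity)
  refine ⟨C, hC, ?_⟩
  intro X Y
  obtain ⟨U, hU, x, hx, hUx⟩ := ud_exists_nonneg (Xᴴ * X) (posSemidef_conjTranspose_mul_self X)
  obtain ⟨V, hV, y, hy, hVy⟩ := ud_exists_nonneg (Yᴴ * Y) (posSemidef_conjTranspose_mul_self Y)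
  rw [pw_ud p X U hU x hUx, pw_ud p Y V hV y hVy, hUx, hVy, ud_fr U V hU hV]
  have hUU : U * Uᴴ = 1 := mem_unitaryGroup_iff.1 hU
  have hUU' : Uᴴ * U = 1 := mem_unitaryGroup_iff'.1 hU
  have hVV : V * Vᴴ = 1 := mem_unitaryGroup_iff.1 hV
  have hVV' : Vᴴ * V = 1 := mem_unitaryGroup_iff'.1 hV
  have hS1 : (Uᴴ * V) * (Uᴴ * V)ᴴ = 1 := by
    rw [conjTranspose_mul, conjTranspose_conjTranspose]
    calc Uᴴ * V * (Vᴴ * U) = Uᴴ * (V * Vᴴ) * U := by simp only [Matrix.mul_assoc]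
      _ = 1 := by rw [hVV, Matrix.mul_one, hUU']
  have hS2 : (Uᴴ * V)ᴴ * (Uᴴ * V) = 1 := by
    rw [conjTranspose_mul, conjTranspose_conjTranspose]
    calc Vᴴ * U * (Uᴴ * V) = Vᴴ * (U * Uᴴ) * V := by simp only [Matrix.mul_assoc]
      _ = 1 := by rw [hUU, Matrix.mul_one, hVV']
  set S := Uᴴ * V with hS
  have e1 : ∑ k, x k ^ (p / 2) = ∑ j, ∑ k, ‖S j k‖ ^ 2 * x j ^ (p / 2) := by
    refine Finset.sum_congr rfl fun j _ => ?_
    rw [← Finset.sum_mul, t2_row S hS1, one_mul]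
  have e2 : ∑ k, y k ^ (p / 2) = ∑ j, ∑ k, ‖S j k‖ ^ 2 * y k ^ (p / 2) := by
    rw [Finset.sum_comm]
    refine Finset.sum_congr rfl fun k _ => ?_
    rw [← Finset.sum_mul, t2_col S hS2, one_mul]
  have e3 : (∑ j, ∑ k, ‖S j k‖ ^ 2 * (ε / ((Fintype.card n : ℝ) + 1))) ≤ ε := by
    have h3 : ∀ j, ∑ k, ‖S j k‖ ^ 2 * (ε / ((Fintype.card n : ℝ) + 1)) =
        ε / ((Fintype.card n : ℝ) + 1) := by
      intro j
      rw [← Finset.sum_mul, t2_row S hS1, one_mul]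
    simp only [h3]
    rw [Finset.sum_const, Finset.card_univ, nsmul_eq_mul]
    have h4 : (Fintype.card n : ℝ) * (ε / ((Fintype.card n : ℝ) + 1)) =
        (Fintype.card n : ℝ) * ε / ((Fintype.card n : ℝ) + 1) := by ring
    rw [h4, div_le_iff₀ hN]
    nlinarith
  rw [e1, e2, ← Finset.sum_sub_distrib]
  calc |∑ j, (∑ k, ‖S j k‖ ^ 2 * x j ^ (p / 2) - ∑ k, ‖S j k‖ ^ 2 * y k ^ (p / 2))|
      ≤ ∑ j, |∑ k, ‖S j k‖ ^ 2 * x j ^ (p / 2) - ∑ k, ‖S j k‖ ^ 2 * y k ^ (p / 2)| :=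
        Finset.abs_sum_le_sum_abs _ _
    _ ≤ ∑ j, ∑ k, ‖S j k‖ ^ 2 *
        (ε / ((Fintype.card n : ℝ) + 1) + C * (x j - y k) ^ 2) := by
        refine Finset.sum_le_sum fun j _ => ?_
        rw [← Finset.sum_sub_distrib]
        refine le_trans (Finset.abs_sum_le_sum_abs _ _) ?_
        refine Finset.sum_le_sum fun k _ => ?_
        rw [← mul_sub, abs_mul, abs_of_nonneg (sq_nonneg ‖S j k‖)]
        exact mul_le_mul_of_nonneg_left (hmod _ _ (hx j) (hy k)) (sq_nonneg _)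
    _ = (∑ j, ∑ k, ‖S j k‖ ^ 2 * (ε / ((Fintype.card n : ℝ) + 1))) +
        C * ∑ j, ∑ k, ‖S j k‖ ^ 2 * (x j - y k) ^ 2 := by
        rw [Finset.mul_sum, ← Finset.sum_add_distrib]
        refine Finset.sum_congr rfl fun j _ => ?_
        rw [Finset.mul_sum, ← Finset.sum_add_distrib]
        refine Finset.sum_congr rfl fun k _ => ?_
        ring
    _ ≤ ε + C * ∑ j, ∑ k, ‖S j k‖ ^ 2 * (x j - y k) ^ 2 := by linarith

theorem t2_fr_zero : fr (0 : Matrix n n ℂ) = 0 := by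
  unfold fr
  simp

theorem pw_continuous (p : ℝ) (h0 : 0 < p) (h2 : p < 2) (X Z : Matrix m n ℂ) :
    Continuous fun r : ℝ => LibSch.pw p (X + (r : ℂ) • Z) := by
  rw [Metric.continuous_iff]
  intro r₀ ε hε
  obtain ⟨C, hC, hcont⟩ := pw_cont (m := m) (n := n) p h0 h2 (ε / 2) (by linarith)
  have hM : Continuous fun r : ℝ => (X + (r : ℂ) • Z)ᴴ * (X + (r : ℂ) • Z) -
      (X + (r₀ : ℂ) • Z)ᴴ * (X + (r₀ : ℂ) • Z) := by
    have hl : Continuous fun r : ℝ => X + (r : ℂ) • Z :=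
      continuous_const.add (Complex.continuous_ofReal.smul continuous_const)
    exact (hl.matrix_conjTranspose.matrix_mul hl).sub continuous_const
  have hfr : Continuous fun r : ℝ => C * fr ((X + (r : ℂ) • Z)ᴴ * (X + (r : ℂ) • Z) -
      (X + (r₀ : ℂ) • Z)ᴴ * (X + (r₀ : ℂ) • Z)) := by
    unfold fr
    refine continuous_const.mul (continuous_finsetSum _ fun i _ =>
      continuous_finsetSum _ fun j _ => ?_)
    exact (hM.matrix_elem i j).norm.pow 2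
  rw [Metric.continuous_iff] at hfr
  obtain ⟨δ, hδ, hδ2⟩ := hfr r₀ (ε / 2) (by linarith)
  refine ⟨δ, hδ, ?_⟩
  intro r hr
  have h3 := hδ2 r hr
  rw [Real.dist_eq] at h3
  rw [sub_self, t2_fr_zero, mul_zero, sub_zero] at h3
  have h4 := le_abs_self (C * fr ((X + (r : ℂ) • Z)ᴴ * (X + (r : ℂ) • Z) -
      (X + (r₀ : ℂ) • Z)ᴴ * (X + (r₀ : ℂ) • Z)))
  have h5 := hcont (X + (r : ℂ) • Z) (X + (r₀ : ℂ) • Z)
  rw [Real.dist_eq]
  linarith

end Pool.Agent.LibSchP
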