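import Pool.Agent.LibSchP.A2

/-! **A3.**  API of `rp` (real powers of Hermitian matrices). -/

open Matrix
open scoped ComplexOrder

namespace Pool.Agent.LibSchP

variable {m n : Type} [Fintype m] [Fintype n] [DecidableEq n]

/-- from `ud_exists` and `ud_fun` -/
theorem rp_ud (s : ℝ) (U : Matrix n n ℂ) (hU : U ∈ unitaryGroup n ℂ) (x : n → ℝ) :
    rp s (ud U x) = ud U fun k => x k ^ s := by
  have hH := ud_isHermitian U x
  rw [rp, dif_pos hH]
  exact ud_fun _ U (hH.eigenvectorUnitary).2 hU _ x (ud_exists _ hH).symm (fun y => y ^ s)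

theorem rp_dg (s : ℝ) (x : n → ℝ) : rp s (dg x) = dg fun k => x k ^ s := by
  rw [← ud_one_fun x, rp_ud s 1 (one_mem _), ud_one_fun]

theorem rp_isHermitian (s : ℝ) (H : Matrix n n ℂ) : (rp s H).IsHermitian := by
  rw [rp]
  split_ifs
  · exact ud_isHermitian _ _
  · exact isHermitian_zero

theorem rp_posDef (s : ℝ) (H : Matrix n n ℂ) (hH : H.PosDef) : (rp s H).PosDef := by
  obtain ⟨U, hU, x, hx, rfl⟩ := ud_exists_pos H hH
  rw [rp_ud s U hU]
  exact ud_posDef U hU _ fun k => Real.rpow_pos_of_pos (hx k) s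

theorem rp_posSemidef (s : ℝ) (H : Matrix n n ℂ) (hH : H.PosSemidef) :
    (rp s H).PosSemidef := by
  obtain ⟨U, hU, x, hx, rfl⟩ := ud_exists_nonneg H hH
  rw [rp_ud s U hU]
  exact ud_posSemidef U _ fun k => Real.rpow_nonneg (hx k) s

theorem rp_mul (s s' : ℝ) (H : Matrix n n ℂ) (hH : H.PosDef) :
    rp s H * rp s' H = rp (s + s') H := by
  obtain ⟨U, hU, x, hx, rfl⟩ := ud_exists_pos H hH
  rw [rp_ud s U hU, rp_ud s' U hU, rp_ud _ U hU, ud_mul U hU]
  congr 1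
  funext k
  rw [Real.rpow_add (hx k)]

theorem rp_rp (s s' : ℝ) (H : Matrix n n ℂ) (hH : H.PosDef) :
    rp s (rp s' H) = rp (s' * s) H := by
  obtain ⟨U, hU, x, hx, rfl⟩ := ud_exists_pos H hH
  rw [rp_ud s' U hU, rp_ud s U hU, rp_ud _ U hU]
  congr 1
  funext k
  rw [Real.rpow_mul (hx k).le]

theorem rp_one (H : Matrix n n ℂ) (hH : H.IsHermitian) : rp 1 H = H := by
  have h := ud_exists H hH
  conv_lhs => rw [h]
  rw [rp_ud 1 _ (hH.eigenvectorUnitary).2]
  conv_rhs => rw [h]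
  congr 1
  funext k
  rw [Real.rpow_one]

/-- `rp (1/2) H * rp (1/2) H = H` for positive semidefinite `H` -/
theorem rp_half_mul (H : Matrix n n ℂ) (hH : H.PosSemidef) :
    rp (1 / 2) H * rp (1 / 2) H = H := by
  obtain ⟨U, hU, x, hx, rfl⟩ := ud_exists_nonneg H hH
  rw [rp_ud _ U hU, ud_mul U hU]
  congr 1
  funext k
  rw [← Real.sqrt_eq_rpow, Real.mul_self_sqrt (hx k)]

theorem rp_conj (s : ℝ) (U : Matrix n n ℂ) (hU : U ∈ unitaryGroup n ℂ) (H : Matrix n n ℂ)
    (hH : H.IsHermitian) : rp s (U * H * Uᴴ) = U * rp s H * Uᴴ := by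
  have h := ud_exists H hH
  set V : Matrix n n ℂ := (hH.eigenvectorUnitary : Matrix n n ℂ) with hV
  have hVm : V ∈ unitaryGroup n ℂ := (hH.eigenvectorUnitary).2
  have key : ∀ y : n → ℝ, U * ud V y * Uᴴ = ud (U * V) y := by
    intro y
    simp only [ud, conjTranspose_mul, Matrix.mul_assoc]
  rw [h, key, rp_ud s _ (mul_mem hU hVm), rp_ud s V hVm, key]

/-- `tr α = tr |α^{1/p}|^p` -/
theorem pw_rp (p : ℝ) (hp : 0 < p) (H : Matrix n n ℂ) (hH : H.PosDef) :
    LibSch.pw p (rp (1 / p) H) = (trace H).re := by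
  obtain ⟨U, hU, x, hx, rfl⟩ := ud_exists_pos H hH
  have hUU : Uᴴ * U = 1 := by
    have := hU
    rw [mem_unitaryGroup_iff'] at this
    exact this
  rw [rp_ud _ U hU]
  rw [pw_ud p _ U hU (fun k => x k ^ (1 / p) * x k ^ (1 / p))]
  · have ht : trace (ud U x) = ∑ k, (x k : ℂ) := by
      rw [ud, trace_mul_cycle, hUU, Matrix.one_mul, dg, trace_diagonal]
    rw [ht, Complex.re_sum]
    refine Finset.sum_congr rfl fun k _ => ?_
    rw [Complex.ofReal_re]
    have h0 : 0 < x k ^ (1 / p) := Real.rpow_pos_of_pos (hx k) _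
    rw [Real.mul_rpow h0.le h0.le, ← Real.rpow_add h0, ← Real.rpow_mul (hx k).le]
    have : 1 / p * (p / 2 + p / 2) = 1 := by field_simp; ring
    rw [this, Real.rpow_one]
  · have := ud_isHermitian U (fun k => x k ^ (1 / p))
    rw [this.eq, ud_mul U hU]

/-- `rp (1/p) (rp p A) = A` -/
theorem rp_inv_rp (p : ℝ) (hp : 0 < p) (A : Matrix n n ℂ) (hA : A.PosDef) :
    rp (1 / p) (rp p A) = A := by
  rw [rp_rp _ _ A hA, mul_one_div_cancel hp.ne', rp_one A hA.1]

end Pool.Agent.LibSchP
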