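import Pool.Agent.LibSchP.A1
import Pool.Agent.LibSchP.A3

/-! **A4a.**  Lipschitz functional calculus in the Frobenius norm by double eigenbases. -/

open Matrix
open scoped ComplexOrder

namespace Pool.Agent.LibSchP

variable {m n : Type} [Fintype m] [Fintype n] [DecidableEq n]

theorem a4a_conj_mem (U : Matrix n n ℂ) (hU : U ∈ unitaryGroup n ℂ) : Uᴴ ∈ unitaryGroup n ℂ := by
  rw [mem_unitaryGroup_iff] at *
  rw [star_eq_conjTranspose, conjTranspose_conjTranspose]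
  have := mem_unitaryGroup_iff'.mp (mem_unitaryGroup_iff.mpr hU)
  rwa [star_eq_conjTranspose] at this

/-- `‖U x Uᴴ - V y Vᴴ‖² = ‖x W - W y‖² = ∑ |W_jk|² (x_j - y_k)²`, `W = Uᴴ V`. -/
theorem ud_fr (U V : Matrix n n ℂ) (hU : U ∈ unitaryGroup n ℂ) (hV : V ∈ unitaryGroup n ℂ)
    (x y : n → ℝ) :
    fr (ud U x - ud V y) = ∑ j, ∑ k, ‖(Uᴴ * V) j k‖ ^ 2 * (x j - y k) ^ 2 := by
  have hU1 : U * Uᴴ = 1 := by
    have := mem_unitaryGroup_iff.mp hU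
    rwa [star_eq_conjTranspose] at this
  have hV1 : V * Vᴴ = 1 := by
    have := mem_unitaryGroup_iff.mp hV
    rwa [star_eq_conjTranspose] at this
  have key : ud U x - ud V y = U * ((dg x * (Uᴴ * V) - (Uᴴ * V) * dg y) * Vᴴ) := by
    unfold ud
    have e1 : U * (dg x * (Uᴴ * V) * Vᴴ) = U * dg x * Uᴴ := by
      calc U * (dg x * (Uᴴ * V) * Vᴴ) = U * dg x * Uᴴ * (V * Vᴴ) := by
            simp only [Matrix.mul_assoc]
        _ = _ := by rw [hV1, Matrix.mul_one]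
    have e2 : U * ((Uᴴ * V) * dg y * Vᴴ) = V * dg y * Vᴴ := by
      calc U * ((Uᴴ * V) * dg y * Vᴴ) = (U * Uᴴ) * V * dg y * Vᴴ := by
            simp only [Matrix.mul_assoc]
        _ = _ := by rw [hU1, Matrix.one_mul]
    rw [Matrix.sub_mul, Matrix.mul_sub, e1, e2]
  have h1 : nf (ud U x - ud V y) = nf (dg x * (Uᴴ * V) - (Uᴴ * V) * dg y) := by
    rw [key, nf_unitary_mul U hU, nf_mul_unitary Vᴴ (a4a_conj_mem V hV)]
  rw [← nf_sq, h1, nf_sq]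
  unfold fr
  refine Finset.sum_congr rfl fun j _ => Finset.sum_congr rfl fun k _ => ?_
  have e3 : (dg x * (Uᴴ * V) - (Uᴴ * V) * dg y) j k = ((x j - y k : ℝ) : ℂ) * (Uᴴ * V) j k := by
    rw [Matrix.sub_apply, dg, dg, Matrix.diagonal_mul, Matrix.mul_diagonal]
    push_cast
    ring
  rw [e3, norm_mul, mul_pow, Complex.norm_real, Real.norm_eq_abs, sq_abs, mul_comm]

theorem ud_lip (U V : Matrix n n ℂ) (hU : U ∈ unitaryGroup n ℂ) (hV : V ∈ unitaryGroup n ℂ)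
    (x y : n → ℝ) (f : ℝ → ℝ) (L : ℝ) (hL : 0 ≤ L)
    (h : ∀ j k, |f (x j) - f (y k)| ≤ L * |x j - y k|) :
    nf ((ud U fun k => f (x k)) - ud V fun k => f (y k)) ≤ L * nf (ud U x - ud V y) := by
  refine abs_le_of_sq_le_sq' ?_ (mul_nonneg hL (nf_nonneg _)) |>.2
  rw [mul_pow, nf_sq, nf_sq, ud_fr U V hU hV, ud_fr U V hU hV, Finset.mul_sum]
  refine Finset.sum_le_sum fun j _ => ?_
  rw [Finset.mul_sum]
  refine Finset.sum_le_sum fun k _ => ?_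
  have h1 : (f (x j) - f (y k)) ^ 2 ≤ L ^ 2 * (x j - y k) ^ 2 := by
    rw [← sq_abs, ← sq_abs (x j - y k), ← mul_pow]
    exact pow_le_pow_left₀ (abs_nonneg _) (h j k) 2
  calc ‖(Uᴴ * V) j k‖ ^ 2 * (f (x j) - f (y k)) ^ 2
      ≤ ‖(Uᴴ * V) j k‖ ^ 2 * (L ^ 2 * (x j - y k) ^ 2) :=
        mul_le_mul_of_nonneg_left h1 (sq_nonneg _)
    _ = L ^ 2 * (‖(Uᴴ * V) j k‖ ^ 2 * (x j - y k) ^ 2) := by ring

/-- the eigenvalues are bounded by the Frobenius norm -/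
theorem ud_le_nf (U : Matrix n n ℂ) (hU : U ∈ unitaryGroup n ℂ) (x : n → ℝ) (k : n) :
    |x k| ≤ nf (ud U x) := by
  have h1 : nf (ud U x) = nf (dg x) := by
    unfold ud
    rw [Matrix.mul_assoc, nf_unitary_mul U hU, nf_mul_unitary Uᴴ (a4a_conj_mem U hU)]
  rw [h1]
  have h2 := norm_le_nf (dg x) k k
  rw [dg, Matrix.diagonal_apply_eq, Complex.norm_real, Real.norm_eq_abs] at h2
  exact h2

theorem a4a_row (U : Matrix n n ℂ) (hU : U ∈ unitaryGroup n ℂ) (j : n) :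
    ∑ k, ‖(Uᴴ * (1 : Matrix n n ℂ)) j k‖ ^ 2 = 1 := by
  rw [Matrix.mul_one]
  have h1 : Uᴴ * U = 1 := by
    have := mem_unitaryGroup_iff'.mp hU
    rwa [star_eq_conjTranspose] at this
  have h2 := congrFun (congrFun h1 j) j
  rw [Matrix.mul_apply, Matrix.one_apply_eq] at h2
  have h3 : ((∑ k, ‖Uᴴ j k‖ ^ 2 : ℝ) : ℂ) = 1 := by
    rw [← h2]
    push_cast
    refine Finset.sum_congr rfl fun k _ => ?_
    have : U k j = star (Uᴴ j k) := by
      rw [Matrix.conjTranspose_apply, star_star]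
    rw [this]
    exact (Complex.mul_conj' (Uᴴ j k)).symm
  exact_mod_cast h3

/-- Weyl: if `nf (ud U x - dg q) ≤ η` then all `x k ≥ min q - η`. -/
theorem ud_ge (U : Matrix n n ℂ) (hU : U ∈ unitaryGroup n ℂ) (x q : n → ℝ) (m₀ η : ℝ)
    (hq : ∀ j, m₀ ≤ q j) (h : nf (ud U x - dg q) ≤ η) (k : n) : m₀ - η ≤ x k := by
  by_contra hlt
  push Not at hlt
  have hη : 0 ≤ η := (nf_nonneg _).trans h
  have e1 : dg q = ud (1 : Matrix n n ℂ) q := by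
    unfold ud
    simp
  have h1 : fr (ud U x - dg q) ≤ η ^ 2 := by
    rw [← nf_sq]
    exact pow_le_pow_left₀ (nf_nonneg _) h 2
  rw [e1, ud_fr U 1 hU (one_mem _)] at h1
  set d : ℝ := m₀ - x k with hd
  have hd1 : η < d := by rw [hd]; linarith
  have h2 : d ^ 2 ≤ ∑ l, ‖(Uᴴ * (1 : Matrix n n ℂ)) k l‖ ^ 2 * (x k - q l) ^ 2 := by
    calc d ^ 2 = ∑ l, ‖(Uᴴ * (1 : Matrix n n ℂ)) k l‖ ^ 2 * d ^ 2 := by
          rw [← Finset.sum_mul, a4a_row U hU k, one_mul]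
      _ ≤ _ := by
          refine Finset.sum_le_sum fun l _ => mul_le_mul_of_nonneg_left ?_ (sq_nonneg _)
          have := hq l
          nlinarith
  have h3 : ∑ l, ‖(Uᴴ * (1 : Matrix n n ℂ)) k l‖ ^ 2 * (x k - q l) ^ 2
      ≤ ∑ j, ∑ l, ‖(Uᴴ * (1 : Matrix n n ℂ)) j l‖ ^ 2 * (x j - q l) ^ 2 :=
    Finset.single_le_sum (f := fun j => ∑ l, ‖(Uᴴ * (1 : Matrix n n ℂ)) j l‖ ^ 2 * (x j - q l) ^ 2)
      (fun j _ => Finset.sum_nonneg fun l _ => mul_nonneg (sq_nonneg _) (sq_nonneg _))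
      (Finset.mem_univ k)
  nlinarith

end Pool.Agent.LibSchP
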