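import Pool.Agent.LibSchP.C2a
import Pool.Agent.LibSchP.I1

/-! **C2b.**  Ando`s convexity theorem. -/

open Matrix MeasureTheory Set
open scoped ComplexOrder

namespace Pool.Agent.LibSchP

variable {m n : Type} [Fintype m] [Fintype n] [DecidableEq m] [DecidableEq n]

/-- `d^(1+σ) b^(-σ) = (cst σ)⁻¹ ∫ λ^(σ-1) d²/(d+λb) dλ` (`int_base` with `x = d/b`). -/
theorem ando_scalar (σ d b : ℝ) (h0 : 0 < σ) (h1 : σ < 1) (hd : 0 < d) (hb : 0 < b) :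
    IntegrableOn (fun l : ℝ => l ^ (σ - 1) * (d ^ 2 / (d + l * b))) (Ioi 0) ∧
    ∫ l in Ioi (0 : ℝ), l ^ (σ - 1) * (d ^ 2 / (d + l * b)) =
      cst σ * (d ^ (1 + σ) * b ^ (-σ)) := by
  have hx : 0 < d / b := div_pos hd hb
  obtain ⟨a1, a2⟩ := int_base σ (d / b) h0 h1 hx
  have hEq : EqOn (fun l : ℝ => l ^ (σ - 1) * (d ^ 2 / (d + l * b)))
      (fun l : ℝ => d ^ 2 / b * (l ^ (σ - 1) / (d / b + l))) (Ioi 0) := by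
    intro l hl
    have hl0 : (0 : ℝ) < l := hl
    have n1 : d + l * b ≠ 0 := by positivity
    have n2 : d / b + l ≠ 0 := by positivity
    show l ^ (σ - 1) * (d ^ 2 / (d + l * b)) = d ^ 2 / b * (l ^ (σ - 1) / (d / b + l))
    field_simp
    try ring
  have hI : IntegrableOn (fun l : ℝ => d ^ 2 / b * (l ^ (σ - 1) / (d / b + l))) (Ioi 0) :=
    a1.const_mul _
  refine ⟨hI.congr_fun (fun l hl => (hEq hl).symm) measurableSet_Ioi, ?_⟩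
  rw [setIntegral_congr_fun measurableSet_Ioi hEq, integral_const_mul, a2]
  have e1 : (d / b) ^ (σ - 1) = d ^ (σ - 1) * b ^ (1 - σ) := by
    rw [Real.div_rpow hd.le hb.le, div_eq_mul_inv, ← Real.rpow_neg hb.le, neg_sub]
  have e2 : d ^ (1 + σ) = d ^ 2 * d ^ (σ - 1) := by
    have : (1 + σ) = (2 : ℕ) + (σ - 1) := by push_cast; ring
    rw [this, Real.rpow_add hd, Real.rpow_natCast]
  have e3 : b ^ (1 - σ) = b * b ^ (-σ) := by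
    have : (1 - σ) = 1 + (-σ) := by ring
    rw [this, Real.rpow_add hb, Real.rpow_one]
  rw [e1, e2, e3]
  field_simp

/-- integrated form of `hl`. -/
theorem c2b_int (σ : ℝ) (h0 : 0 < σ) (h1 : σ < 1) (K : Matrix m n ℂ)
    (U : Matrix m m ℂ) (d : m → ℝ) (W : Matrix n n ℂ) (b : n → ℝ)
    (hd : ∀ j, 0 < d j) (hb : ∀ j, 0 < b j) :
    IntegrableOn (fun l : ℝ => l ^ (σ - 1) * hl l K U d W b) (Ioi 0) ∧
    ∫ l in Ioi (0 : ℝ), l ^ (σ - 1) * hl l K U d W b =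
      cst σ * ∑ j, ∑ k, d j ^ (1 + σ) * b k ^ (-σ) * ‖(Uᴴ * K * W) j k‖ ^ 2 := by
  have hEq : (fun l : ℝ => l ^ (σ - 1) * hl l K U d W b) =
      (fun l : ℝ => ∑ j, ∑ k, l ^ (σ - 1) * (d j ^ 2 / (d j + l * b k)) *
        ‖(Uᴴ * K * W) j k‖ ^ 2) := by
    funext l
    unfold hl
    rw [Finset.mul_sum]
    refine Finset.sum_congr rfl fun j _ => ?_
    rw [Finset.mul_sum]
    refine Finset.sum_congr rfl fun k _ => ?_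
    ring
  have hint : ∀ j k, Integrable (fun l : ℝ => l ^ (σ - 1) * (d j ^ 2 / (d j + l * b k)) *
        ‖(Uᴴ * K * W) j k‖ ^ 2) (volume.restrict (Ioi 0)) := fun j k =>
    (ando_scalar σ (d j) (b k) h0 h1 (hd j) (hb k)).1.mul_const _
  rw [hEq]
  refine ⟨?_, ?_⟩
  · exact integrable_finsetSum _ fun j _ => integrable_finsetSum _ fun k _ => hint j k
  · rw [integral_finsetSum _ fun j _ => integrable_finsetSum _ fun k _ => hint j k,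
      Finset.mul_sum]
    refine Finset.sum_congr rfl fun j _ => ?_
    rw [integral_finsetSum _ fun k _ => hint j k, Finset.mul_sum]
    refine Finset.sum_congr rfl fun k _ => ?_
    rw [integral_mul_const, (ando_scalar σ (d j) (b k) h0 h1 (hd j) (hb k)).2]
    ring

/-- **Ando**, midpoint form, in eigenbases: index `0` is the mean of `1` and `2`. -/
theorem ando (σ : ℝ) (h0 : 0 < σ) (h1 : σ < 1) (K : Matrix m n ℂ)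
    (U₀ U₁ U₂ : Matrix m m ℂ) (d₀ d₁ d₂ : m → ℝ) (W₀ W₁ W₂ : Matrix n n ℂ) (b₀ b₁ b₂ : n → ℝ)
    (hU₀ : U₀ ∈ unitaryGroup m ℂ) (hU₁ : U₁ ∈ unitaryGroup m ℂ) (hU₂ : U₂ ∈ unitaryGroup m ℂ)
    (hW₀ : W₀ ∈ unitaryGroup n ℂ) (hW₁ : W₁ ∈ unitaryGroup n ℂ) (hW₂ : W₂ ∈ unitaryGroup n ℂ)
    (hd₀ : ∀ j, 0 < d₀ j) (hd₁ : ∀ j, 0 < d₁ j) (hd₂ : ∀ j, 0 < d₂ j)
    (hb₀ : ∀ j, 0 < b₀ j) (hb₁ : ∀ j, 0 < b₁ j) (hb₂ : ∀ j, 0 < b₂ j)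
    (hδ : (2 : ℂ) • ud U₀ d₀ = ud U₁ d₁ + ud U₂ d₂)
    (hB : (2 : ℂ) • ud W₀ b₀ = ud W₁ b₁ + ud W₂ b₂) :
    2 * ∑ j, ∑ k, d₀ j ^ (1 + σ) * b₀ k ^ (-σ) * ‖(U₀ᴴ * K * W₀) j k‖ ^ 2 ≤
      ∑ j, ∑ k, d₁ j ^ (1 + σ) * b₁ k ^ (-σ) * ‖(U₁ᴴ * K * W₁) j k‖ ^ 2 +
      ∑ j, ∑ k, d₂ j ^ (1 + σ) * b₂ k ^ (-σ) * ‖(U₂ᴴ * K * W₂) j k‖ ^ 2 := by
  obtain ⟨i0, v0⟩ := c2b_int σ h0 h1 K U₀ d₀ W₀ b₀ hd₀ hb₀
  obtain ⟨i1, v1⟩ := c2b_int σ h0 h1 K U₁ d₁ W₁ b₁ hd₁ hb₁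
  obtain ⟨i2, v2⟩ := c2b_int σ h0 h1 K U₂ d₂ W₂ b₂ hd₂ hb₂
  have hc := cst_pos σ h0 h1
  have hpt : ∀ l : ℝ, 0 < l → 2 * hl l K U₀ d₀ W₀ b₀ ≤
      hl l K U₁ d₁ W₁ b₁ + hl l K U₂ d₂ W₂ b₂ := by
    intro l hl0
    obtain ⟨Y, hY⟩ := hl_attained l hl0 K U₀ d₀ W₀ b₀ hU₀ hW₀ hd₀ hb₀
    have g1 := hl_ge l hl0 K Y U₁ d₁ W₁ b₁ hU₁ hW₁ hd₁ hb₁
    have g2 := hl_ge l hl0 K Y U₂ d₂ W₂ b₂ hU₂ hW₂ hd₂ hb₂
    have t1 : 2 * (trace (Kᴴ * ud U₀ d₀ * Y)).re =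
        (trace (Kᴴ * ud U₁ d₁ * Y)).re + (trace (Kᴴ * ud U₂ d₂ * Y)).re := by
      have e : (2 : ℂ) * trace (Kᴴ * ud U₀ d₀ * Y) =
          trace (Kᴴ * ud U₁ d₁ * Y) + trace (Kᴴ * ud U₂ d₂ * Y) := by
        rw [← trace_add, ← Matrix.add_mul, ← Matrix.mul_add, ← hδ, Matrix.mul_smul, Matrix.smul_mul, trace_smul, smul_eq_mul]
      have e' := congrArg Complex.re e
      simpa using e'
    have t2 : 2 * (trace (Yᴴ * ud U₀ d₀ * Y)).re =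
        (trace (Yᴴ * ud U₁ d₁ * Y)).re + (trace (Yᴴ * ud U₂ d₂ * Y)).re := by
      have e : (2 : ℂ) * trace (Yᴴ * ud U₀ d₀ * Y) =
          trace (Yᴴ * ud U₁ d₁ * Y) + trace (Yᴴ * ud U₂ d₂ * Y) := by
        rw [← trace_add, ← Matrix.add_mul, ← Matrix.mul_add, ← hδ, Matrix.mul_smul, Matrix.smul_mul, trace_smul, smul_eq_mul]
      have e' := congrArg Complex.re e
      simpa using e'
    have t3 : 2 * (trace (Y * ud W₀ b₀ * Yᴴ)).re =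
        (trace (Y * ud W₁ b₁ * Yᴴ)).re + (trace (Y * ud W₂ b₂ * Yᴴ)).re := by
      have e : (2 : ℂ) * trace (Y * ud W₀ b₀ * Yᴴ) =
          trace (Y * ud W₁ b₁ * Yᴴ) + trace (Y * ud W₂ b₂ * Yᴴ) := by
        rw [← trace_add, ← Matrix.add_mul, ← Matrix.mul_add, ← hB, Matrix.mul_smul, Matrix.smul_mul, trace_smul, smul_eq_mul]
      have e' := congrArg Complex.re e
      simpa using e'
    have t4 : 2 * (l * (trace (Y * ud W₀ b₀ * Yᴴ)).re) =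
        l * (trace (Y * ud W₁ b₁ * Yᴴ)).re + l * (trace (Y * ud W₂ b₂ * Yᴴ)).re := by
      rw [← mul_add, ← t3]; ring
    rw [← hY]
    linarith
  have hmono : ∫ l in Ioi (0 : ℝ), 2 * (l ^ (σ - 1) * hl l K U₀ d₀ W₀ b₀) ≤
      ∫ l in Ioi (0 : ℝ), (l ^ (σ - 1) * hl l K U₁ d₁ W₁ b₁ +
        l ^ (σ - 1) * hl l K U₂ d₂ W₂ b₂) := by
    refine setIntegral_mono_on (i0.const_mul 2) (i1.add i2) measurableSet_Ioi ?_
    intro l hl'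
    have hl0 : (0 : ℝ) < l := hl'
    have hp : 0 ≤ l ^ (σ - 1) := (Real.rpow_pos_of_pos hl0 _).le
    have := mul_le_mul_of_nonneg_left (hpt l hl0) hp
    linarith
  rw [integral_const_mul, integral_add i1 i2, v0, v1, v2] at hmono
  have h3 : cst σ * (2 * ∑ j, ∑ k, d₀ j ^ (1 + σ) * b₀ k ^ (-σ) * ‖(U₀ᴴ * K * W₀) j k‖ ^ 2) ≤
      cst σ * (∑ j, ∑ k, d₁ j ^ (1 + σ) * b₁ k ^ (-σ) * ‖(U₁ᴴ * K * W₁) j k‖ ^ 2 +
      ∑ j, ∑ k, d₂ j ^ (1 + σ) * b₂ k ^ (-σ) * ‖(U₂ᴴ * K * W₂) j k‖ ^ 2) := by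
    linarith
  exact le_of_mul_le_mul_left h3 hc

end Pool.Agent.LibSchP
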