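import Pool.Agent.LibSchP.C1
import Pool.Agent.LibSchP.C2b

/-! **C3.**  Convexity of `δ ↦ tr (Kᴴ δ^(2/p) K)^(p/2)`. -/

open Matrix
open scoped ComplexOrder

namespace Pool.Agent.LibSchP

variable {n : Type} [Fintype n] [DecidableEq n]

theorem c3_tr (X : Matrix n n ℂ) (d b : n → ℝ) :
    (trace (Xᴴ * dg d * X * dg b)).re = ∑ j, ∑ k, d j * b k * ‖X j k‖ ^ 2 := by
  have h : trace (Xᴴ * dg d * X * dg b) =
      ((∑ j, ∑ k, d j * b k * ‖X j k‖ ^ 2 : ℝ) : ℂ) := by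
    rw [Finset.sum_comm, trace, Complex.ofReal_sum]
    refine Finset.sum_congr rfl fun k _ => ?_
    rw [diag_apply, dg, dg, mul_diagonal, Matrix.mul_apply, Finset.sum_mul, Complex.ofReal_sum]
    refine Finset.sum_congr rfl fun j _ => ?_
    rw [mul_diagonal, conjTranspose_apply]
    push_cast
    have h2 : star (X j k) * X j k = ((‖X j k‖ : ℂ)) ^ 2 := by
      have := Complex.conj_mul' (X j k)
      simpa using this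
    rw [← h2]
    ring
  rw [h, Complex.ofReal_re]

/-- `tr Kᴴ (ud U d) K (ud W b) = ∑_jk d_j b_k |(UᴴKW)_jk|²` -/
theorem trace_double (K U W : Matrix n n ℂ) (d b : n → ℝ) :
    (trace (Kᴴ * ud U d * K * ud W b)).re = ∑ j, ∑ k, d j * b k * ‖(Uᴴ * K * W) j k‖ ^ 2 := by
  rw [← c3_tr]
  congr 1
  have h1 : Kᴴ * ud U d * K * ud W b = (Kᴴ * U * dg d * Uᴴ * K * W * dg b) * Wᴴ := by
    simp only [ud, Matrix.mul_assoc]
  have h2 : (Uᴴ * K * W)ᴴ * dg d * (Uᴴ * K * W) * dg b =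
      Wᴴ * (Kᴴ * U * dg d * Uᴴ * K * W * dg b) := by
    simp only [conjTranspose_mul, conjTranspose_conjTranspose, Matrix.mul_assoc]
  rw [h1, h2, trace_mul_comm]

theorem c3_trace_ud (W : Matrix n n ℂ) (hW : W ∈ unitaryGroup n ℂ) (b : n → ℝ) :
    trace (ud W b) = ((∑ k, b k : ℝ) : ℂ) := by
  have h : Wᴴ * W = 1 := by
    have := mem_unitaryGroup_iff'.1 hW
    simpa [star_eq_conjTranspose] using this
  rw [ud, trace_mul_comm, ← Matrix.mul_assoc, h, Matrix.one_mul, dg, trace_diagonal]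
  push_cast
  rfl

theorem c3_X (p : ℝ) (K U : Matrix n n ℂ) (hU : U ∈ unitaryGroup n ℂ)
    (d : n → ℝ) (hd : ∀ k, 0 < d k) :
    (rp (1 / p) (ud U d) * K)ᴴ * (rp (1 / p) (ud U d) * K) =
      Kᴴ * ud U (fun k => d k ^ (2 / p)) * K := by
  rw [rp_ud _ _ hU, conjTranspose_mul, (ud_isHermitian U _).eq]
  have h := ud_mul U hU (fun k => d k ^ (1 / p)) (fun k => d k ^ (1 / p))
  have h2 : (fun k => d k ^ (1 / p) * d k ^ (1 / p)) = fun k => d k ^ (2 / p) := by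
    funext k
    rw [← Real.rpow_add (hd k)]
    congr 1
    ring
  rw [h2] at h
  rw [← h]
  simp only [Matrix.mul_assoc]

theorem c3_posDef (p : ℝ) (K U : Matrix n n ℂ) (hK : IsUnit K.det)
    (hU : U ∈ unitaryGroup n ℂ) (d : n → ℝ) (hd : ∀ k, 0 < d k) :
    (Kᴴ * ud U (fun k => d k ^ (2 / p)) * K).PosDef := by
  have h := ud_posDef U hU (fun k => d k ^ (2 / p)) (fun k => Real.rpow_pos_of_pos (hd k) _)
  refine h.conjTranspose_mul_mul_same ?_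
  exact Matrix.mulVec_injective_iff_isUnit.2 ((Matrix.isUnit_iff_isUnit_det _).2 hK)

/-- `G(δ) = pw p (δ^(1/p) K)`; `(δ^(1/p)K)ᴴ(δ^(1/p)K) = Kᴴ δ^(2/p) K`.  `young_eq` at `δ₁`, `δ₂`
gives `B₁`, `B₂`; `young` at `δ₀` with `B₀ = (B₁+B₂)/2`; `ando` with `σ = 2/p - 1`. -/
theorem GC (p : ℝ) (h1 : 1 < p) (h2 : p < 2) (K : Matrix n n ℂ) (hK : IsUnit K.det)
    (δ₀ δ₁ δ₂ : Matrix n n ℂ) (hδ₀ : δ₀.PosDef) (hδ₁ : δ₁.PosDef) (hδ₂ : δ₂.PosDef)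
    (h : (2 : ℂ) • δ₀ = δ₁ + δ₂) :
    2 * LibSch.pw p (rp (1 / p) δ₀ * K) ≤
      LibSch.pw p (rp (1 / p) δ₁ * K) + LibSch.pw p (rp (1 / p) δ₂ * K) := by
  have hp0 : 0 < p := by linarith
  obtain ⟨U₀, hU₀, d₀, hd₀, rfl⟩ := ud_exists_pos δ₀ hδ₀
  obtain ⟨U₁, hU₁, d₁, hd₁, rfl⟩ := ud_exists_pos δ₁ hδ₁
  obtain ⟨U₂, hU₂, d₂, hd₂, rfl⟩ := ud_exists_pos δ₂ hδ₂
  obtain ⟨W₁, b₁, hW₁, hb₁, e₁⟩ := young_eq p hp0 h2 (rp (1 / p) (ud U₁ d₁) * K)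
    (by rw [c3_X p K U₁ hU₁ d₁ hd₁]; exact c3_posDef p K U₁ hK hU₁ d₁ hd₁)
  obtain ⟨W₂, b₂, hW₂, hb₂, e₂⟩ := young_eq p hp0 h2 (rp (1 / p) (ud U₂ d₂) * K)
    (by rw [c3_X p K U₂ hU₂ d₂ hd₂]; exact c3_posDef p K U₂ hK hU₂ d₂ hd₂)
  have hB : ((1 / 2 : ℂ) • (ud W₁ b₁ + ud W₂ b₂)).PosDef := by
    have hs := (ud_posDef W₁ hW₁ b₁ hb₁).add (ud_posDef W₂ hW₂ b₂ hb₂)
    have h3 : (0 : ℂ) < 1 / 2 := by
      have : ((1 / 2 : ℝ) : ℂ) = 1 / 2 := by push_cast; ring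
      rw [← this]
      exact_mod_cast (by norm_num : (0 : ℝ) < 1 / 2)
    exact hs.smul h3
  obtain ⟨W₀, hW₀, b₀, hb₀, eB⟩ := ud_exists_pos _ hB
  have eB2 : (2 : ℂ) • ud W₀ b₀ = ud W₁ b₁ + ud W₂ b₂ := by
    rw [← eB, smul_smul]
    norm_num
  have hY := young p hp0 h2 (rp (1 / p) (ud U₀ d₀) * K) W₀ hW₀ b₀ hb₀
  rw [c3_X p K U₀ hU₀ d₀ hd₀, trace_double] at hY
  rw [c3_X p K U₁ hU₁ d₁ hd₁, trace_double] at e₁
  rw [c3_X p K U₂ hU₂ d₂ hd₂, trace_double] at e₂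
  have hA := ando (2 / p - 1) (by rw [sub_pos, lt_div_iff₀ hp0]; linarith)
    (by rw [sub_lt_iff_lt_add, div_lt_iff₀ hp0]; linarith) K U₀ U₁ U₂ d₀ d₁ d₂ W₀ W₁ W₂ b₀ b₁ b₂
    hU₀ hU₁ hU₂ hW₀ hW₁ hW₂ hd₀ hd₁ hd₂ hb₀ hb₁ hb₂ h eB2
  have hx1 : 1 + (2 / p - 1) = 2 / p := by ring
  have hx2 : -(2 / p - 1) = 1 - 2 / p := by ring
  rw [hx1, hx2] at hA
  have hT : 2 * ∑ k, b₀ k = ∑ k, b₁ k + ∑ k, b₂ k := by
    have ht := congrArg trace eB2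
    rw [trace_smul, trace_add, c3_trace_ud W₀ hW₀, c3_trace_ud W₁ hW₁, c3_trace_ud W₂ hW₂,
      smul_eq_mul] at ht
    exact_mod_cast ht
  rw [e₁, e₂]
  have hp2 : 0 ≤ p / 2 := by linarith
  have := mul_le_mul_of_nonneg_left hA hp2
  nlinarith [this, hY, hT]

end Pool.Agent.LibSchP
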