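import Pool.Agent.LibSch.Defs

/-! Definitions for the triangular case of the Schatten norm compression inequality, `1 < p < 2`
(`MP_9d9785_an`). -/

open Matrix
open scoped ComplexOrder

namespace Pool.Agent.LibSchP

/-- divided difference of `x ↦ x ^ s` on `(0, ∞)` -/
noncomputable def dd (s x y : ℝ) : ℝ := if x = y then s * x ^ (s - 1) else (x ^ s - y ^ s) / (x - y)

/-- `∫_0^∞ r^(s-1)/(1+r) dr` -/
noncomputable def cst (s : ℝ) : ℝ := ∫ r in Set.Ioi (0 : ℝ), r ^ (s - 1) / (1 + r)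

/-- `∫_0^∞ μ^u / ((q+μ)^2 (l+μ)) dμ` -/
noncomputable def gg (u q l : ℝ) : ℝ := ∫ μ in Set.Ioi (0 : ℝ), μ ^ u / ((q + μ) ^ 2 * (l + μ))

variable {κ m n n' n₁ n₂ : Type} [Fintype κ] [Fintype m] [Fintype n] [Fintype n₁] [Fintype n₂]

/-- the quadratic form `∑_j a_j |(V ξ)_j|²` -/
noncomputable def qf (V : Matrix κ n ℂ) (a : κ → ℝ) (ξ : n → ℂ) : ℝ :=
  ∑ j, a j * ‖(V *ᵥ ξ) j‖ ^ 2

/-- the squared Frobenius norm -/
noncomputable def fr (X : Matrix m n ℂ) : ℝ := ∑ i, ∑ j, ‖X i j‖ ^ 2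

/-- the Frobenius norm -/
noncomputable def nf (X : Matrix m n ℂ) : ℝ := √(fr X)

/-- the second order form with the divided differences of `x ^ (p - 1)` -/
noncomputable def SS (p : ℝ) (t : κ → ℝ) (M : Matrix κ κ ℂ) : ℝ :=
  ∑ j, ∑ l, dd (p - 1) (t j) (t l) * ‖M j l‖ ^ 2

/-- real diagonal matrix -/
def dg [DecidableEq n] (a : n → ℝ) : Matrix n n ℂ := diagonal fun k => (a k : ℂ)

/-- `U diag(x) Uᴴ` -/
def ud [DecidableEq n] (U : Matrix n n ℂ) (x : n → ℝ) : Matrix n n ℂ := U * dg x * Uᴴ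

/-- real power of a Hermitian matrix -/
noncomputable def rp [DecidableEq n] (s : ℝ) (H : Matrix n n ℂ) : Matrix n n ℂ :=
  open Classical in
  if h : H.IsHermitian then
    ud (h.eigenvectorUnitary : Matrix n n ℂ) (fun k => h.eigenvalues k ^ s)
  else 0

/-- the perturbation of `dg t` which corresponds to the perturbations `Δ₁`, `Δ₂` of `dg θ₁`,
`dg θ₂`. -/
noncomputable def MM [DecidableEq κ] [DecidableEq n₁] [DecidableEq n₂] (t : κ → ℝ) (θ₁ : n₁ → ℝ)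
    (θ₂ : n₂ → ℝ) (V₁ : Matrix κ n₁ ℂ) (V₂ : Matrix κ n₂ ℂ) (Δ₁ : Matrix n₁ n₁ ℂ)
    (Δ₂ : Matrix n₂ n₂ ℂ) : Matrix κ κ ℂ :=
  V₁ * (Δ₁ * dg fun k => (θ₁ k)⁻¹) * V₁ᴴ * dg t + dg t * V₂ * ((dg fun k => (θ₂ k)⁻¹) * Δ₂ᴴ) * V₂ᴴ

/-- the hypotheses on `t`, `θ`, `V` (one block): `V` is an isometry and `Vᴴ t^p V = θ^p`. -/
structure Blk [DecidableEq κ] [DecidableEq n] (p : ℝ) (t : κ → ℝ) (θ : n → ℝ)
    (V : Matrix κ n ℂ) : Prop where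
  ht : ∀ j, 0 < t j
  hθ : ∀ k, 0 < θ k
  hV : Vᴴ * V = 1
  hp : Vᴴ * (dg fun j => t j ^ p) * V = dg fun k => θ k ^ p

/-- `tr |[α^{1/p}, B; 0, δ^{1/p}]|^p` -/
noncomputable def FB [DecidableEq n] (p : ℝ) (B α δ : Matrix n n ℂ) : ℝ :=
  LibSch.pw p (fromBlocks (rp (1 / p) α) B 0 (rp (1 / p) δ))

end Pool.Agent.LibSchP
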