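import Pool.Agent.LibSchP.I3a

/-! **I3b.**  The second divided difference `gg`: symmetrisation and Lipschitz bound. -/

open MeasureTheory Set Filter Topology

namespace Pool.Agent.LibSchP

/-- `g(q,l) + g(l,q) = ∫ μ^u (q+l+2μ)/((q+μ)²(l+μ)²) = u ∫ μ^(u-1)/((q+μ)(l+μ))` by the
derivative of `μ^u/((q+μ)(l+μ))`; then `int_dd_neg`. -/
theorem gg_symm (u q l : ℝ) (h0 : 0 < u) (h1 : u < 1) (hq : 0 < q) (hl : 0 < l) :
    gg u q l + gg u l q = -(u * cst u * dd (u - 1) q l) := by
  have i1 := gg_integrable u q l h0 h1 hq hl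
  have i2 := gg_integrable u l q h0 h1 hl hq
  obtain ⟨i3, e3⟩ := int_dd_neg u q l h0 h1 hq hl
  have hF : ∫ r in Ioi (0 : ℝ), (u * (r ^ (u - 1) / ((q + r) * (l + r)))
      - (r ^ u / ((q + r) ^ 2 * (l + r)) + r ^ u / ((l + r) ^ 2 * (q + r))))
      = 0 - (0 : ℝ) ^ u / ((q + 0) * (l + 0)) := by
    apply integral_Ioi_of_hasDerivAt_of_tendsto
      (f := fun r : ℝ => r ^ u / ((q + r) * (l + r)))
    · -- continuity at 0
      apply ContinuousAt.continuousWithinAt
      apply ContinuousAt.div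
      · exact Real.continuousAt_rpow_const 0 u (Or.inr h0.le)
      · fun_prop
      · simp only [add_zero]; positivity
    · intro r hr
      have hr0 : (0 : ℝ) < r := hr
      have d1 : HasDerivAt (fun r : ℝ => r ^ u) (u * r ^ (u - 1)) r := by
        exact Real.hasDerivAt_rpow_const (Or.inl hr0.ne')
      have d2 : HasDerivAt (fun r : ℝ => (q + r) * (l + r)) ((l + r) + (q + r)) r := by
        have a1 : HasDerivAt (fun r : ℝ => q + r) 1 r := (hasDerivAt_id r).const_add q
        have a2 : HasDerivAt (fun r : ℝ => l + r) 1 r := (hasDerivAt_id r).const_add l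
        have := a1.mul a2
        simp only [one_mul, mul_one] at this
        exact this
      have hne : (q + r) * (l + r) ≠ 0 := by positivity
      have d3 := d1.div d2 hne
      have a1 : l + r ≠ 0 := by positivity
      have a2 : q + r ≠ 0 := by positivity
      have hval : u * (r ^ (u - 1) / ((q + r) * (l + r)))
          - (r ^ u / ((q + r) ^ 2 * (l + r)) + r ^ u / ((l + r) ^ 2 * (q + r)))
          = (u * r ^ (u - 1) * ((q + r) * (l + r)) - r ^ u * ((l + r) + (q + r)))
            / ((q + r) * (l + r)) ^ 2 := by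
        field_simp
      rw [hval]
      exact d3
    · exact (i3.const_mul u).sub (i1.add i2)
    · -- limit at infinity
      have t1 : Tendsto (fun r : ℝ => r ^ (-(1 - u))) atTop (𝓝 0) :=
        tendsto_rpow_neg_atTop (by linarith)
      have t2 : Tendsto (fun r : ℝ => l⁻¹ * r ^ (-(1 - u))) atTop (𝓝 0) := by
        have := t1.const_mul l⁻¹
        simpa using this
      refine squeeze_zero' ?_ ?_ t2
      · filter_upwards [eventually_gt_atTop (0 : ℝ)] with r hr
        have : 0 ≤ r ^ u := Real.rpow_nonneg hr.le u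
        positivity
      · filter_upwards [eventually_gt_atTop (0 : ℝ)] with r hr
        have hru : r ^ u = r * r ^ (-(1 - u)) := by
          rw [mul_comm, ← Real.rpow_add_one hr.ne']; congr 1; ring
        have hp : 0 ≤ r ^ (-(1 - u)) := Real.rpow_nonneg hr.le _
        rw [div_le_iff₀ (by positivity), hru]
        have e1 : l⁻¹ * r ^ (-(1 - u)) * ((q + r) * (l + r))
            = r ^ (-(1 - u)) * ((q + r) * ((l + r) / l)) := by
          field_simp
        rw [e1, mul_comm r]
        apply mul_le_mul_of_nonneg_left _ hp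
        have e2 : 1 ≤ (l + r) / l := by
          rw [le_div_iff₀ hl]; linarith
        nlinarith
  rw [Real.zero_rpow h0.ne', zero_div, sub_zero] at hF
  have i12 : IntegrableOn (fun r : ℝ => r ^ u / ((q + r) ^ 2 * (l + r))
      + r ^ u / ((l + r) ^ 2 * (q + r))) (Ioi 0) := i1.add i2
  rw [integral_sub (i3.const_mul u) i12, integral_const_mul, e3,
    integral_add i1 i2] at hF
  unfold gg
  linarith

/-- `|1/(l+μ) - 1/(l'+μ)| ≤ |l-l'|/(m₀+μ)²` -/
theorem gg_lip (u m₀ : ℝ) (h0 : 0 < u) (h1 : u < 1) (hm : 0 < m₀) : ∃ L : ℝ, 0 ≤ L ∧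
    ∀ q l l' : ℝ, m₀ ≤ q → m₀ ≤ l → m₀ ≤ l' → |gg u q l - gg u q l'| ≤ L * |l - l'| := by
  have hgg : 0 ≤ gg u m₀ m₀ := by
    unfold gg
    apply setIntegral_nonneg measurableSet_Ioi
    intro r hr
    have hr0 : (0 : ℝ) < r := hr
    have : 0 ≤ r ^ u := Real.rpow_nonneg hr0.le u
    positivity
  refine ⟨m₀⁻¹ * gg u m₀ m₀, by positivity, ?_⟩
  intro q l l' hq hl hl'
  have i1 := gg_integrable u q l h0 h1 (by linarith) (by linarith)
  have i2 := gg_integrable u q l' h0 h1 (by linarith) (by linarith)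
  have i3 := gg_integrable u m₀ m₀ h0 h1 hm hm
  have e1 : gg u q l - gg u q l' = ∫ r in Ioi (0 : ℝ), (r ^ u / ((q + r) ^ 2 * (l + r))
      - r ^ u / ((q + r) ^ 2 * (l' + r))) := by
    rw [integral_sub i1 i2]; rfl
  have e2 : m₀⁻¹ * gg u m₀ m₀ * |l - l'| = ∫ r in Ioi (0 : ℝ),
      (m₀⁻¹ * |l - l'|) * (r ^ u / ((m₀ + r) ^ 2 * (m₀ + r))) := by
    rw [integral_const_mul]; unfold gg; ring
  rw [e1, e2, ← Real.norm_eq_abs (∫ r in Ioi (0 : ℝ), _)]
  refine le_trans (norm_integral_le_integral_norm _) ?_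
  apply setIntegral_mono_on ((i1.sub i2).norm) (i3.const_mul _) measurableSet_Ioi
  intro r hr
  have hr0 : (0 : ℝ) < r := hr
  have hp : 0 ≤ r ^ u := Real.rpow_nonneg hr0.le u
  have p1 : 0 < q + r := by linarith
  have p2 : 0 < l + r := by linarith
  have p3 : 0 < l' + r := by linarith
  have p4 : 0 < m₀ + r := by linarith
  have e3 : r ^ u / ((q + r) ^ 2 * (l + r)) - r ^ u / ((q + r) ^ 2 * (l' + r))
      = (r ^ u / ((q + r) ^ 2 * (l + r) * (l' + r))) * (l' - l) := by
    field_simp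
    ring
  change ‖r ^ u / ((q + r) ^ 2 * (l + r)) - r ^ u / ((q + r) ^ 2 * (l' + r))‖ ≤ _
  rw [Real.norm_eq_abs, e3, abs_mul, abs_of_nonneg (by positivity), abs_sub_comm l' l]
  have e4 : m₀⁻¹ * |l - l'| * (r ^ u / ((m₀ + r) ^ 2 * (m₀ + r)))
      = (r ^ u / ((m₀ + r) ^ 2 * (m₀ + r) * m₀)) * |l - l'| := by
    field_simp
  rw [e4]
  apply mul_le_mul_of_nonneg_right _ (abs_nonneg _)
  apply div_le_div_of_nonneg_left hp (by positivity)
  have b1 : (m₀ + r) ^ 2 ≤ (q + r) ^ 2 := by nlinarith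
  have b2 : m₀ + r ≤ l + r := by linarith
  have b3 : m₀ ≤ l' + r := by linarith
  apply mul_le_mul (mul_le_mul b1 b2 p4.le (by positivity)) b3 hm.le (by positivity)

end Pool.Agent.LibSchP
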