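import Pool.Agent.LibSchP.E1a
import Pool.Agent.LibSchP.I3b

/-! **E1b.**  Second order expansion of `tr Q^u` at a diagonal point. -/

open Matrix
open scoped ComplexOrder

namespace Pool.Agent.LibSchP

variable {κ : Type} [Fintype κ] [DecidableEq κ]

theorem e1b_min (q : κ → ℝ) (hq : ∀ j, 0 < q j) : ∃ m₀ : ℝ, 0 < m₀ ∧ ∀ j, 2 * m₀ ≤ q j := by
  have hs : 0 ≤ ∑ j, (q j)⁻¹ := Finset.sum_nonneg fun j _ => (inv_pos.2 (hq j)).le
  refine ⟨(1 + ∑ j, (q j)⁻¹)⁻¹ / 2, by positivity, fun j => ?_⟩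
  have h1 : (q j)⁻¹ ≤ 1 + ∑ j, (q j)⁻¹ := by
    have := Finset.single_le_sum (f := fun j => (q j)⁻¹) (fun j _ => (inv_pos.2 (hq j)).le)
      (Finset.mem_univ j)
    linarith
  have h2 : (1 + ∑ j, (q j)⁻¹)⁻¹ ≤ q j := by
    rw [inv_le_comm₀ (by positivity) (hq j)]
    exact h1
  linarith

theorem e1b_herm (V : Matrix κ κ ℂ) (l q : κ → ℝ) (i j : κ) :
    ‖(ud V l - dg q) i j‖ = ‖(ud V l - dg q) j i‖ := by
  have h : (ud V l - dg q).IsHermitian := (ud_isHermitian V l).sub (dg_isHermitian q)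
  have h2 := h.apply i j
  rw [← h2, norm_star]

/-- `klein` with `f = x^u`, `f' = u x^(u-1)`, then `gg_expand`, `second_row` with `g = gg u (q j)`,
`gg_lip` and `gg_symm` (`D` is Hermitian).  `η = (min q)/2`, `m₀ = (min q)/2`, `ud_ge`. -/
theorem expand_Q (u : ℝ) (h0 : 0 < u) (h1 : u < 1) (q : κ → ℝ) (hq : ∀ j, 0 < q j) :
    ∃ C η : ℝ, 0 ≤ C ∧ 0 < η ∧ ∀ (V : Matrix κ κ ℂ) (l : κ → ℝ), V ∈ unitaryGroup κ ℂ →
      nf (ud V l - dg q) ≤ η →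
      |∑ k, l k ^ u - (∑ j, q j ^ u + u * ∑ j, q j ^ (u - 1) * ((ud V l - dg q) j j).re +
        u / 2 * ∑ j, ∑ i, dd (u - 1) (q j) (q i) * ‖(ud V l - dg q) j i‖ ^ 2)| ≤
        C * nf (ud V l - dg q) ^ 3 := by
  obtain ⟨m₀, hm₀, hqm⟩ := e1b_min q hq
  obtain ⟨L, hL, hlip⟩ := gg_lip u m₀ h0 h1 hm₀
  have hc := cst_pos u h0 h1
  refine ⟨(cst u)⁻¹ * L, m₀, by positivity, hm₀, fun V l hV hD => ?_⟩
  have hl : ∀ k, m₀ ≤ l k := fun k => by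
    have := ud_ge V hV l q (2 * m₀) m₀ hqm hD k
    linarith
  have hl0 : ∀ k, 0 < l k := fun k => lt_of_lt_of_le hm₀ (hl k)
  have hqm' : ∀ j, m₀ ≤ q j := fun j => by have := hqm j; linarith
  set D := ud V l - dg q with hDdef
  -- Klein
  have hk := klein V hV l q (fun x => x ^ u) (fun x => u * x ^ (u - 1))
  rw [← hDdef] at hk
  have e1 : ∑ j, ∑ k, ‖V j k‖ ^ 2 * (l k ^ u - q j ^ u - u * q j ^ (u - 1) * (l k - q j)) =
      -(cst u)⁻¹ * ∑ j, ∑ k, ‖V j k‖ ^ 2 * (l k - q j) ^ 2 * gg u (q j) (l k) := by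
    rw [Finset.mul_sum]
    refine Finset.sum_congr rfl fun j _ => ?_
    rw [Finset.mul_sum]
    refine Finset.sum_congr rfl fun k _ => ?_
    rw [gg_expand u (q j) (l k) h0 h1 (hq j) (hl0 k)]
    ring
  have e2 : ∑ j, u * q j ^ (u - 1) * (D j j).re = u * ∑ j, q j ^ (u - 1) * (D j j).re := by
    rw [Finset.mul_sum]
    exact Finset.sum_congr rfl fun j _ => by ring
  have e3 : u / 2 * ∑ j, ∑ i, dd (u - 1) (q j) (q i) * ‖D j i‖ ^ 2 =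
      -(cst u)⁻¹ * ∑ j, ∑ i, ‖D j i‖ ^ 2 * gg u (q j) (q i) := by
    have hs : ∑ j, ∑ i, ‖D j i‖ ^ 2 * gg u (q j) (q i) =
        ∑ j, ∑ i, ‖D j i‖ ^ 2 * gg u (q i) (q j) := by
      rw [Finset.sum_comm]
      refine Finset.sum_congr rfl fun i _ => Finset.sum_congr rfl fun j _ => ?_
      rw [hDdef, e1b_herm V l q j i]
    have hs2 : 2 * ∑ j, ∑ i, ‖D j i‖ ^ 2 * gg u (q j) (q i) =
        ∑ j, ∑ i, -(u * cst u) * (dd (u - 1) (q j) (q i) * ‖D j i‖ ^ 2) := by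
      rw [two_mul]
      nth_rewrite 2 [hs]
      rw [← Finset.sum_add_distrib]
      refine Finset.sum_congr rfl fun j _ => ?_
      rw [← Finset.sum_add_distrib]
      refine Finset.sum_congr rfl fun i _ => ?_
      rw [← mul_add, gg_symm u (q j) (q i) h0 h1 (hq j) (hq i)]
      ring
    have hs3 : ∑ j, ∑ i, -(u * cst u) * (dd (u - 1) (q j) (q i) * ‖D j i‖ ^ 2) =
        -(u * cst u) * ∑ j, ∑ i, dd (u - 1) (q j) (q i) * ‖D j i‖ ^ 2 := by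
      rw [Finset.mul_sum]
      exact Finset.sum_congr rfl fun j _ => by rw [Finset.mul_sum]
    rw [hs3] at hs2
    have hcc : (cst u)⁻¹ * cst u = 1 := inv_mul_cancel₀ hc.ne'
    generalize ∑ j, ∑ i, ‖D j i‖ ^ 2 * gg u (q j) (q i) = A at *
    generalize ∑ j, ∑ i, dd (u - 1) (q j) (q i) * ‖D j i‖ ^ 2 = B at *
    have : A = -(u * cst u) * B / 2 := by linarith
    rw [this]
    linear_combination (-(u * B / 2)) * hcc
  rw [hk, e1, e2, e3]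
  have e4 : ∑ j, q j ^ u + u * ∑ j, q j ^ (u - 1) * (D j j).re +
      -(cst u)⁻¹ * ∑ j, ∑ k, ‖V j k‖ ^ 2 * (l k - q j) ^ 2 * gg u (q j) (l k) -
      (∑ j, q j ^ u + u * ∑ j, q j ^ (u - 1) * (D j j).re +
      -(cst u)⁻¹ * ∑ j, ∑ i, ‖D j i‖ ^ 2 * gg u (q j) (q i)) =
      -(cst u)⁻¹ * ∑ j, (∑ k, ‖V j k‖ ^ 2 * (l k - q j) ^ 2 * gg u (q j) (l k) -
        ∑ i, ‖D j i‖ ^ 2 * gg u (q j) (q i)) := by
    rw [Finset.sum_sub_distrib]
    ring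
  rw [e4, abs_mul, abs_neg, abs_of_pos (inv_pos.2 hc), mul_assoc]
  refine mul_le_mul_of_nonneg_left ?_ (inv_pos.2 hc).le
  calc |∑ j, (∑ k, ‖V j k‖ ^ 2 * (l k - q j) ^ 2 * gg u (q j) (l k) -
        ∑ i, ‖D j i‖ ^ 2 * gg u (q j) (q i))|
      ≤ ∑ j, |∑ k, ‖V j k‖ ^ 2 * (l k - q j) ^ 2 * gg u (q j) (l k) -
        ∑ i, ‖D j i‖ ^ 2 * gg u (q j) (q i)| := Finset.abs_sum_le_sum_abs _ _
    _ ≤ ∑ j, L * nf D * ∑ i, ‖D j i‖ ^ 2 := by
        refine Finset.sum_le_sum fun j _ => ?_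
        exact second_row V hV l q (gg u (q j)) L hL
          (fun k i => hlip (q j) (l k) (q i) (hqm' j) (hl k) (hqm' i)) j
    _ = L * nf D * fr D := by rw [← Finset.mul_sum]; rfl
    _ = L * nf D ^ 3 := by rw [← nf_sq]; ring

end Pool.Agent.LibSchP
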