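import Pool.Agent.LibSchP.Defs

/-! **I4.**  Two algebraic identities for `dd` (case distinction `x = y`; then `field_simp`/`ring`
after writing the powers with `Real.rpow_add`, `Real.rpow_sub`, `Real.rpow_natCast`). -/

namespace Pool.Agent.LibSchP

/-- `x² (x^b - c^b)/(x-c) = x^(b+1) - c^b x^(b+1) (x^(1-b) - c^(1-b))/(x-c)` -/
theorem dd_zeta (b c x : ℝ) (h0 : 0 < b) (h1 : b < 1) (hc : 0 < c) (hx : 0 < x) :
    x ^ 2 * dd b c x = x ^ (b + 1) - c ^ b * x ^ (b + 1) * dd (1 - b) c x := by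
  have hX : 0 < x ^ b := Real.rpow_pos_of_pos hx b
  have hC : 0 < c ^ b := Real.rpow_pos_of_pos hc b
  have e1 : x ^ (b + 1) = x ^ b * x := by rw [Real.rpow_add hx, Real.rpow_one]
  have e2 : x ^ (1 - b) = x / x ^ b := by rw [Real.rpow_sub hx, Real.rpow_one]
  have e3 : c ^ (1 - b) = c / c ^ b := by rw [Real.rpow_sub hc, Real.rpow_one]
  unfold dd
  by_cases h : c = x
  · subst h
    have e4 : c ^ (b - 1) = c ^ b / c := by rw [Real.rpow_sub hc, Real.rpow_one]
    have e5 : c ^ (1 - b - 1) = 1 / c ^ b := by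
      rw [Real.rpow_sub hc, Real.rpow_sub hc, Real.rpow_one]
      field_simp
    simp only [if_true]
    rw [e1, e4, e5]
    field_simp
    ring
  · have hne : c - x ≠ 0 := sub_ne_zero.mpr h
    simp only [h, if_false]
    rw [e1, e2, e3]
    field_simp
    ring

/-- `(y^(p-1) - x^(p-1))/(y-x) + x (x+y) (x^(p-2) - y^(p-2))/(y²-x²) = y^(p-2)` -/
theorem dd_pair (p x y : ℝ) (h1 : 1 < p) (h2 : p < 2) (hx : 0 < x) (hy : 0 < y) :
    dd (p - 1) x y - x * (x + y) * dd (p / 2 - 1) (x ^ 2) (y ^ 2) = y ^ (p - 2) := by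
  have sqp : ∀ z : ℝ, 0 < z → ∀ s : ℝ, (z ^ 2) ^ s = z ^ (2 * s) := by
    intro z hz s
    rw [← Real.rpow_natCast z 2, ← Real.rpow_mul hz.le]
    norm_num
  have e1 : ∀ z : ℝ, 0 < z → z ^ (p - 1) = z ^ (p - 2) * z := by
    intro z hz
    rw [show p - 1 = (p - 2) + 1 by ring, Real.rpow_add hz, Real.rpow_one]
  unfold dd
  by_cases h : x = y
  · subst h
    have e2 : (x ^ 2) ^ (p / 2 - 1 - 1) = x ^ (p - 2) / x ^ 2 := by
      rw [sqp x hx, show 2 * (p / 2 - 1 - 1) = (p - 2) - 2 by ring, Real.rpow_sub hx]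
      norm_num
    have e3 : x ^ (p - 1 - 1) = x ^ (p - 2) := by
      congr 1
      ring
    simp only [if_true]
    rw [e2, e3]
    field_simp
    ring
  · have hne : x - y ≠ 0 := sub_ne_zero.mpr h
    have hs : x + y ≠ 0 := by positivity
    have h' : x ^ 2 ≠ y ^ 2 := by
      intro hh
      apply h
      nlinarith [mul_self_eq_mul_self_iff.mp (by nlinarith : x * x = y * y)]
    have hne2 : x ^ 2 - y ^ 2 ≠ 0 := sub_ne_zero.mpr h'
    simp only [h, h', if_false]
    rw [sqp x hx, sqp y hy, show 2 * (p / 2 - 1) = p - 2 by ring, e1 x hx, e1 y hy,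
      show x ^ 2 - y ^ 2 = (x + y) * (x - y) by ring]
    field_simp
    ring

end Pool.Agent.LibSchP
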