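import Pool.Agent.LibSchP.E1b
import Pool.Agent.LibSchP.I4

/-! **E2.**  Second order expansion of `pw p (t + M)` at a positive diagonal point. -/

open Matrix
open scoped ComplexOrder

namespace Pool.Agent.LibSchP

variable {κ : Type} [Fintype κ] [DecidableEq κ]

/-- the second order term -/
noncomputable def BB (p : ℝ) (t : κ → ℝ) (M : Matrix κ κ ℂ) : ℝ :=
  ∑ j, ∑ l, (t j ^ (p - 2) * ‖M l j‖ ^ 2 +
    1 / 2 * dd (p / 2 - 1) (t j ^ 2) (t l ^ 2) *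
      ‖(t j : ℂ) * M j l + (t l : ℂ) * star (M l j)‖ ^ 2)

theorem e2_MM_diag (M : Matrix κ κ ℂ) (j : κ) : ((Mᴴ * M) j j).re = ∑ l, ‖M l j‖ ^ 2 := by
  have h : (Mᴴ * M) j j = ((∑ l, ‖M l j‖ ^ 2 : ℝ) : ℂ) := by
    rw [Matrix.mul_apply, Complex.ofReal_sum]
    refine Finset.sum_congr rfl fun l _ => ?_
    rw [conjTranspose_apply]
    push_cast
    have := Complex.conj_mul' (M l j)
    simpa using this
  rw [h, Complex.ofReal_re]

theorem e2_E_apply (t : κ → ℝ) (M : Matrix κ κ ℂ) (j l : κ) :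
    (dg t * M + Mᴴ * dg t) j l = (t j : ℂ) * M j l + (t l : ℂ) * star (M l j) := by
  rw [Matrix.add_apply, dg, diagonal_mul, mul_diagonal, conjTranspose_apply, mul_comm (star _)]

theorem e2_Q (t : κ → ℝ) (M : Matrix κ κ ℂ) :
    (dg t + M)ᴴ * (dg t + M) - (dg fun j => t j ^ 2) = dg t * M + Mᴴ * dg t + Mᴴ * M := by
  have h : (dg fun j => t j ^ 2) = dg t * dg t := by
    rw [dg_mul]
    congr 1
    funext j
    ring
  rw [h, conjTranspose_add, dg_conjTranspose]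
  noncomm_ring

theorem e2_re (p : ℝ) (t : κ → ℝ) (ht : ∀ j, 0 < t j) (M : Matrix κ κ ℂ) (j : κ) :
    (t j ^ 2) ^ (p / 2 - 1) * ((dg t * M + Mᴴ * dg t + Mᴴ * M) j j).re =
      2 * (t j ^ (p - 1) * (M j j).re) + ∑ l, t j ^ (p - 2) * ‖M l j‖ ^ 2 := by
  have h1 : (t j ^ 2) ^ (p / 2 - 1) = t j ^ (p - 2) := by
    rw [← Real.rpow_natCast, ← Real.rpow_mul (ht j).le]
    congr 1
    push_cast
    ring
  have h2 : t j ^ (p - 1) = t j ^ (p - 2) * t j := by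
    have : p - 1 = (p - 2) + 1 := by ring
    rw [this, Real.rpow_add (ht j), Real.rpow_one]
  rw [h1, h2, Matrix.add_apply, e2_E_apply, Complex.add_re, e2_MM_diag, ← Finset.mul_sum]
  have h3 : ((t j : ℂ) * M j j + (t j : ℂ) * star (M j j)).re = 2 * (t j * (M j j).re) := by
    simp
    ring
  rw [h3]
  ring

/-- `Q = (t+M)ᴴ(t+M) = ud V l` (`ud_exists`), `pw p (t+M) = ∑ l_k^(p/2)` (`pw_ud`), `q = t²`,
`δQ = t M + Mᴴ t + MᴴM`, `nf δQ ≤ (2 max t + 1) nf M` for `nf M ≤ 1`; in the second order term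
of `expand_Q` (`u = p/2`) replace `δQ` by `t M + Mᴴ t` (error `O(nf M ^ 3)`). -/
theorem expand_pw (p : ℝ) (h1 : 1 < p) (h2 : p < 2) (t : κ → ℝ) (ht : ∀ j, 0 < t j) :
    ∃ C η : ℝ, 0 ≤ C ∧ 0 < η ∧ ∀ M : Matrix κ κ ℂ, nf M ≤ η →
      |LibSch.pw p (dg t + M) - (∑ j, t j ^ p + p * ∑ j, t j ^ (p - 1) * (M j j).re +
        p / 2 * BB p t M)| ≤ C * nf M ^ 3 := by
  obtain ⟨C₁, η₁, hC₁, hη₁, hexp⟩ := expand_Q (p / 2) (by linarith) (by linarith)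
    (fun j => t j ^ 2) (fun j => by have := ht j; positivity)
  have hT : 0 ≤ nf (dg t) := nf_nonneg _
  set K : ℝ := 2 * nf (dg t) + 1 with hK
  have hK0 : 0 < K := by positivity
  set S : ℝ := ∑ j, ∑ l, |dd (p / 2 - 1) (t j ^ 2) (t l ^ 2)| with hS
  have hS0 : 0 ≤ S := Finset.sum_nonneg fun j _ => Finset.sum_nonneg fun l _ => abs_nonneg _
  refine ⟨C₁ * K ^ 3 + p / 2 * K * S, min 1 (η₁ / K), by positivity, by positivity,
    fun M hM => ?_⟩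
  have hM1 : nf M ≤ 1 := hM.trans (min_le_left _ _)
  have hM2 : K * nf M ≤ η₁ := by
    have := hM.trans (min_le_right _ _)
    rw [le_div_iff₀ hK0] at this
    linarith
  have hM0 : 0 ≤ nf M := nf_nonneg _
  -- diagonalise Q
  obtain ⟨V, hV, l, hl, hQ⟩ := ud_exists_nonneg ((dg t + M)ᴴ * (dg t + M))
    (posSemidef_conjTranspose_mul_self _)
  have hD : ud V l - (dg fun j => t j ^ 2) = dg t * M + Mᴴ * dg t + Mᴴ * M := by
    rw [← hQ, e2_Q]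
  have hMM : nf (Mᴴ * M) ≤ nf M ^ 2 := by
    have := nf_mul_le Mᴴ M
    rw [nf_conjTranspose] at this
    rw [sq]
    exact this
  have hE : nf (dg t * M + Mᴴ * dg t) ≤ 2 * nf (dg t) * nf M := by
    have a1 := nf_add_le (dg t * M) (Mᴴ * dg t)
    have a2 := nf_mul_le (dg t) M
    have a3 := nf_mul_le Mᴴ (dg t)
    rw [nf_conjTranspose] at a3
    nlinarith
  have hEK : nf (dg t * M + Mᴴ * dg t) ≤ K * nf M := by
    rw [hK]
    nlinarith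
  have hDK : nf (dg t * M + Mᴴ * dg t + Mᴴ * M) ≤ K * nf M := by
    have a1 := nf_add_le (dg t * M + Mᴴ * dg t) (Mᴴ * M)
    rw [hK]
    nlinarith
  have hx := hexp V l hV (by rw [hD]; exact hDK.trans hM2)
  rw [hD] at hx
  rw [pw_ud p (dg t + M) V hV l hQ]
  have hD3 : C₁ * nf (dg t * M + Mᴴ * dg t + Mᴴ * M) ^ 3 ≤ C₁ * K ^ 3 * nf M ^ 3 := by
    have a1 := pow_le_pow_left₀ (nf_nonneg (dg t * M + Mᴴ * dg t + Mᴴ * M)) hDK 3
    have a2 := mul_le_mul_of_nonneg_left a1 hC₁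
    rw [mul_pow] at a2
    linarith
  have e1 : ∑ j, (t j ^ 2) ^ (p / 2) = ∑ j, t j ^ p := by
    refine Finset.sum_congr rfl fun j _ => ?_
    rw [← Real.rpow_natCast, ← Real.rpow_mul (ht j).le]
    congr 1
    push_cast
    ring
  have e2 : p / 2 * ∑ j, (t j ^ 2) ^ (p / 2 - 1) *
      ((dg t * M + Mᴴ * dg t + Mᴴ * M) j j).re =
      p * ∑ j, t j ^ (p - 1) * (M j j).re + p / 2 * ∑ j, ∑ l, t j ^ (p - 2) * ‖M l j‖ ^ 2 := by
    rw [Finset.sum_congr rfl fun j _ => e2_re p t ht M j, Finset.sum_add_distrib,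
      ← Finset.mul_sum]
    ring
  have e3 : BB p t M = ∑ j, ∑ l, t j ^ (p - 2) * ‖M l j‖ ^ 2 +
      1 / 2 * ∑ j, ∑ l, dd (p / 2 - 1) (t j ^ 2) (t l ^ 2) *
        ‖(dg t * M + Mᴴ * dg t) j l‖ ^ 2 := by
    rw [BB, Finset.mul_sum, ← Finset.sum_add_distrib]
    refine Finset.sum_congr rfl fun j _ => ?_
    rw [Finset.mul_sum, ← Finset.sum_add_distrib]
    refine Finset.sum_congr rfl fun k _ => ?_
    rw [e2_E_apply]
    ring
  have e4 : |∑ j, ∑ i, dd (p / 2 - 1) (t j ^ 2) (t i ^ 2) *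
        ‖(dg t * M + Mᴴ * dg t + Mᴴ * M) j i‖ ^ 2 -
      ∑ j, ∑ i, dd (p / 2 - 1) (t j ^ 2) (t i ^ 2) * ‖(dg t * M + Mᴴ * dg t) j i‖ ^ 2| ≤
      S * (2 * K * nf M ^ 3) := by
    rw [← Finset.sum_sub_distrib, hS, Finset.sum_mul]
    refine (Finset.abs_sum_le_sum_abs _ _).trans (Finset.sum_le_sum fun j _ => ?_)
    rw [← Finset.sum_sub_distrib, Finset.sum_mul]
    refine (Finset.abs_sum_le_sum_abs _ _).trans (Finset.sum_le_sum fun i _ => ?_)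
    rw [← mul_sub, abs_mul]
    refine mul_le_mul_of_nonneg_left ?_ (abs_nonneg _)
    have b1 : ‖(dg t * M + Mᴴ * dg t + Mᴴ * M) j i‖ ≤ K * nf M := (norm_le_nf _ j i).trans hDK
    have b2 : ‖(dg t * M + Mᴴ * dg t) j i‖ ≤ K * nf M := (norm_le_nf _ j i).trans hEK
    have b3 : |‖(dg t * M + Mᴴ * dg t + Mᴴ * M) j i‖ - ‖(dg t * M + Mᴴ * dg t) j i‖| ≤
        nf M ^ 2 := by
      refine (abs_norm_sub_norm_le _ _).trans ?_
      rw [Matrix.add_apply (dg t * M + Mᴴ * dg t) (Mᴴ * M), add_sub_cancel_left]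
      exact (norm_le_nf _ j i).trans hMM
    have b4 : ‖(dg t * M + Mᴴ * dg t + Mᴴ * M) j i‖ ^ 2 - ‖(dg t * M + Mᴴ * dg t) j i‖ ^ 2 =
        (‖(dg t * M + Mᴴ * dg t + Mᴴ * M) j i‖ - ‖(dg t * M + Mᴴ * dg t) j i‖) *
        (‖(dg t * M + Mᴴ * dg t + Mᴴ * M) j i‖ + ‖(dg t * M + Mᴴ * dg t) j i‖) := by ring
    rw [b4, abs_mul]
    have b5 : |‖(dg t * M + Mᴴ * dg t + Mᴴ * M) j i‖ + ‖(dg t * M + Mᴴ * dg t) j i‖| ≤
        2 * (K * nf M) := by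
      rw [abs_of_nonneg (by positivity)]
      linarith
    calc _ ≤ nf M ^ 2 * (2 * (K * nf M)) :=
          mul_le_mul b3 b5 (abs_nonneg _) (by positivity)
      _ = 2 * K * nf M ^ 3 := by ring
  rw [e1, e2] at hx
  rw [e3]
  generalize ∑ j, ∑ i, dd (p / 2 - 1) (t j ^ 2) (t i ^ 2) *
        ‖(dg t * M + Mᴴ * dg t + Mᴴ * M) j i‖ ^ 2 = A at *
  generalize ∑ j, ∑ i, dd (p / 2 - 1) (t j ^ 2) (t i ^ 2) *
        ‖(dg t * M + Mᴴ * dg t) j i‖ ^ 2 = B at *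
  generalize ∑ k, l k ^ (p / 2) = P at *
  generalize ∑ j, t j ^ p = R1 at *
  generalize ∑ j, t j ^ (p - 1) * (M j j).re = R2 at *
  generalize ∑ j, ∑ l, t j ^ (p - 2) * ‖M l j‖ ^ 2 = R3 at *
  have hx2 := hx.trans hD3
  rw [abs_le] at hx2 e4 ⊢
  have hp4 : 0 ≤ p / 2 / 2 := by linarith
  have c1 := mul_le_mul_of_nonneg_left e4.1 hp4
  have c2 := mul_le_mul_of_nonneg_left e4.2 hp4
  constructor <;> nlinarith [hx2.1, hx2.2, c1, c2]

end Pool.Agent.LibSchP
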