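import Pool.Agent.LibSchP.I1

/-! **I2.**  Divided differences as integrals. -/

open MeasureTheory Set

namespace Pool.Agent.LibSchP

theorem dd_comm (s x y : ℝ) : dd s x y = dd s y x := by
  unfold dd
  by_cases h : x = y
  · rw [if_pos h, if_pos h.symm, h]
  · have h' : y ≠ x := fun e => h e.symm
    rw [if_neg h, if_neg h']
    rw [← neg_sub y x, ← neg_sub (y ^ s) (x ^ s), neg_div_neg_eq]

theorem i2_rpow (s r : ℝ) (hr : 0 < r) : r ^ s = r * r ^ (s - 1) := by
  rw [Real.rpow_sub_one hr.ne']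
  field_simp

/-- the diagonal case: integrability. -/
theorem i2_int_sq (s x : ℝ) (h0 : 0 < s) (h1 : s < 1) (hx : 0 < x) :
    IntegrableOn (fun r : ℝ => r ^ s / ((x + r) * (x + r))) (Ioi 0) := by
  have hb := (int_base s x h0 h1 hx).1
  refine Integrable.mono' hb ?_ ?_
  · refine ContinuousOn.aestronglyMeasurable ?_ measurableSet_Ioi
    intro r hr
    have hr0 : (0 : ℝ) < r := hr
    refine ContinuousAt.continuousWithinAt ?_
    refine ContinuousAt.div (Real.continuousAt_rpow_const r s (Or.inl hr0.ne')) ?_ ?_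
    · fun_prop
    · positivity
  · refine (ae_restrict_iff' measurableSet_Ioi).2 (Filter.Eventually.of_forall ?_)
    intro r hr
    have hr0 : (0 : ℝ) < r := hr
    have hp : 0 < r ^ (s - 1) := Real.rpow_pos_of_pos hr0 _
    rw [i2_rpow s r hr0, Real.norm_of_nonneg (by positivity)]
    rw [div_le_div_iff₀ (by positivity) (by positivity)]
    have : r * r ^ (s - 1) * (x + r) ≤ (x + r) * r ^ (s - 1) * (x + r) := by
      have h5 : r ≤ x + r := by linarith
      gcongr
    linarith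

theorem i2_tendsto (s x : ℝ) (h0 : 0 < s) (h1 : s < 1) (hx : 0 < x) :
    Filter.Tendsto (fun r : ℝ => r ^ s / (x + r)) Filter.atTop (nhds 0) := by
  have h := tendsto_rpow_neg_atTop (y := 1 - s) (by linarith)
  refine squeeze_zero' (g := fun r : ℝ => r ^ (-(1 - s))) ?_ ?_ h
  · filter_upwards [Filter.eventually_gt_atTop 0] with r hr
    have hp : 0 < r ^ s := Real.rpow_pos_of_pos hr _
    positivity
  · filter_upwards [Filter.eventually_gt_atTop 0] with r hr
    have e : -(1 - s) = s - 1 := by ring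
    have hp : 0 < r ^ (s - 1) := Real.rpow_pos_of_pos hr _
    rw [e, i2_rpow s r hr, div_le_iff₀ (by positivity)]
    have : r * r ^ (s - 1) ≤ (x + r) * r ^ (s - 1) := by
      have h5 : r ≤ x + r := by linarith
      gcongr
    linarith

theorem i2_diag (s x : ℝ) (h0 : 0 < s) (h1 : s < 1) (hx : 0 < x) :
    ∫ r in Ioi (0 : ℝ), r ^ s / ((x + r) * (x + r)) = cst s * (s * x ^ (s - 1)) := by
  obtain ⟨hb1, hb2⟩ := int_base s x h0 h1 hx
  have hsq := i2_int_sq s x h0 h1 hx
  have hint : IntegrableOn (fun r : ℝ => s * (r ^ (s - 1) / (x + r)) -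
      r ^ s / ((x + r) * (x + r))) (Ioi 0) := (hb1.const_mul s).sub hsq
  have hcont : ContinuousWithinAt (fun r : ℝ => r ^ s / (x + r)) (Ici 0) 0 := by
    refine ContinuousAt.continuousWithinAt ?_
    refine ContinuousAt.div (Real.continuousAt_rpow_const 0 s (Or.inr h0.le)) ?_ ?_
    · fun_prop
    · rw [add_zero]; exact hx.ne'
  have hderiv : ∀ r ∈ Ioi (0 : ℝ), HasDerivAt (fun r : ℝ => r ^ s / (x + r))
      (s * (r ^ (s - 1) / (x + r)) - r ^ s / ((x + r) * (x + r))) r := by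
    intro r hr
    have hr0 : (0 : ℝ) < r := hr
    have hne : x + r ≠ 0 := by positivity
    have d1 : HasDerivAt (fun r : ℝ => r ^ s) (s * r ^ (s - 1)) r :=
      Real.hasDerivAt_rpow_const (Or.inl hr0.ne')
    have d2 : HasDerivAt (fun r : ℝ => x + r) 1 r := by
      simpa using (hasDerivAt_id r).const_add x
    have d3 := d1.div d2 hne
    refine d3.congr_deriv ?_
    field_simp
  have hmain := integral_Ioi_of_hasDerivAt_of_tendsto hcont hderiv hint
    (i2_tendsto s x h0 h1 hx)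
  rw [integral_sub (hb1.const_mul s) hsq, integral_const_mul, hb2] at hmain
  rw [Real.zero_rpow h0.ne', zero_div, sub_zero] at hmain
  linarith

/-- case `x ≠ y`: `r^s/((x+r)(y+r)) = (x r^(s-1)/(x+r) - y r^(s-1)/(y+r))/(x-y)`, then `int_base`;
case `x = y`: `d/dr [r^s/(x+r)] = s r^(s-1)/(x+r) - r^s/(x+r)^2`
(`MeasureTheory.integral_Ioi_of_hasDerivAt_of_tendsto`). -/
theorem int_dd (s x y : ℝ) (h0 : 0 < s) (h1 : s < 1) (hx : 0 < x) (hy : 0 < y) :
    IntegrableOn (fun r : ℝ => r ^ s / ((x + r) * (y + r))) (Ioi 0) ∧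
      ∫ r in Ioi (0 : ℝ), r ^ s / ((x + r) * (y + r)) = cst s * dd s x y := by
  by_cases hxy : x = y
  · subst hxy
    refine ⟨i2_int_sq s x h0 h1 hx, ?_⟩
    rw [i2_diag s x h0 h1 hx]
    unfold dd
    rw [if_pos rfl]
  · obtain ⟨a1, a2⟩ := int_base s x h0 h1 hx
    obtain ⟨b1, b2⟩ := int_base s y h0 h1 hy
    have hsub : x - y ≠ 0 := sub_ne_zero.2 hxy
    have hEq : EqOn (fun r : ℝ => r ^ s / ((x + r) * (y + r)))
        (fun r : ℝ => (x - y)⁻¹ * (x * (r ^ (s - 1) / (x + r)) - y * (r ^ (s - 1) / (y + r))))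
        (Ioi 0) := by
      intro r hr
      have hr0 : (0 : ℝ) < r := hr
      have hne1 : x + r ≠ 0 := by positivity
      have hne2 : y + r ≠ 0 := by positivity
      show r ^ s / ((x + r) * (y + r)) =
        (x - y)⁻¹ * (x * (r ^ (s - 1) / (x + r)) - y * (r ^ (s - 1) / (y + r)))
      rw [i2_rpow s r hr0]
      field_simp
      ring
    have hI : IntegrableOn (fun r : ℝ => (x - y)⁻¹ *
        (x * (r ^ (s - 1) / (x + r)) - y * (r ^ (s - 1) / (y + r)))) (Ioi 0) :=
      ((a1.const_mul x).sub (b1.const_mul y)).const_mul _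
    refine ⟨hI.congr_fun (fun r hr => (hEq hr).symm) measurableSet_Ioi, ?_⟩
    rw [setIntegral_congr_fun measurableSet_Ioi hEq, integral_const_mul,
      integral_sub (a1.const_mul x) (b1.const_mul y), integral_const_mul, integral_const_mul,
      a2, b2]
    unfold dd
    rw [if_neg hxy, i2_rpow s x hx, i2_rpow s y hy]
    field_simp

/-- case `x ≠ y`: partial fractions; case `x = y`: `x r^(s-1)/(x+r)^2 = r^(s-1)/(x+r) -
r^s/(x+r)^2` and the previous lemma. -/
theorem int_dd_neg (s x y : ℝ) (h0 : 0 < s) (h1 : s < 1) (hx : 0 < x) (hy : 0 < y) :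
    IntegrableOn (fun r : ℝ => r ^ (s - 1) / ((x + r) * (y + r))) (Ioi 0) ∧
      ∫ r in Ioi (0 : ℝ), r ^ (s - 1) / ((x + r) * (y + r)) = -(cst s * dd (s - 1) x y) := by
  by_cases hxy : x = y
  · subst hxy
    obtain ⟨a1, a2⟩ := int_base s x h0 h1 hx
    have hsq := i2_int_sq s x h0 h1 hx
    have hEq : EqOn (fun r : ℝ => r ^ (s - 1) / ((x + r) * (x + r)))
        (fun r : ℝ => x⁻¹ * (r ^ (s - 1) / (x + r) - r ^ s / ((x + r) * (x + r)))) (Ioi 0) := by
      intro r hr
      have hr0 : (0 : ℝ) < r := hr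
      have hne1 : x + r ≠ 0 := by positivity
      show r ^ (s - 1) / ((x + r) * (x + r)) =
        x⁻¹ * (r ^ (s - 1) / (x + r) - r ^ s / ((x + r) * (x + r)))
      rw [i2_rpow s r hr0]
      field_simp
      ring
    have hI : IntegrableOn (fun r : ℝ => x⁻¹ *
        (r ^ (s - 1) / (x + r) - r ^ s / ((x + r) * (x + r)))) (Ioi 0) :=
      (a1.sub hsq).const_mul _
    refine ⟨hI.congr_fun (fun r hr => (hEq hr).symm) measurableSet_Ioi, ?_⟩
    rw [setIntegral_congr_fun measurableSet_Ioi hEq, integral_const_mul,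
      integral_sub a1 hsq, a2, i2_diag s x h0 h1 hx]
    unfold dd
    rw [if_pos rfl, Real.rpow_sub_one hx.ne' (s - 1)]
    field_simp
    ring
  · obtain ⟨a1, a2⟩ := int_base s x h0 h1 hx
    obtain ⟨b1, b2⟩ := int_base s y h0 h1 hy
    have hsub : x - y ≠ 0 := sub_ne_zero.2 hxy
    have hEq : EqOn (fun r : ℝ => r ^ (s - 1) / ((x + r) * (y + r)))
        (fun r : ℝ => -(x - y)⁻¹ * (r ^ (s - 1) / (x + r) - r ^ (s - 1) / (y + r)))
        (Ioi 0) := by
      intro r hr
      have hr0 : (0 : ℝ) < r := hr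
      have hne1 : x + r ≠ 0 := by positivity
      have hne2 : y + r ≠ 0 := by positivity
      show r ^ (s - 1) / ((x + r) * (y + r)) =
        -(x - y)⁻¹ * (r ^ (s - 1) / (x + r) - r ^ (s - 1) / (y + r))
      field_simp
      ring
    have hI : IntegrableOn (fun r : ℝ => -(x - y)⁻¹ *
        (r ^ (s - 1) / (x + r) - r ^ (s - 1) / (y + r))) (Ioi 0) :=
      (a1.sub b1).const_mul _
    refine ⟨hI.congr_fun (fun r hr => (hEq hr).symm) measurableSet_Ioi, ?_⟩
    rw [setIntegral_congr_fun measurableSet_Ioi hEq, integral_const_mul,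
      integral_sub a1 b1, a2, b2]
    unfold dd
    rw [if_neg hxy]
    field_simp

theorem dd_nonneg (s x y : ℝ) (h0 : 0 < s) (h1 : s < 1) (hx : 0 < x) (hy : 0 < y) :
    0 ≤ dd s x y := by
  have h := (int_dd s x y h0 h1 hx hy).2
  have hc := cst_pos s h0 h1
  have hn : 0 ≤ ∫ r in Ioi (0 : ℝ), r ^ s / ((x + r) * (y + r)) := by
    refine setIntegral_nonneg measurableSet_Ioi ?_
    intro r hr
    have hr0 : (0 : ℝ) < r := hr
    have hp : 0 < r ^ s := Real.rpow_pos_of_pos hr0 _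
    positivity
  rw [h] at hn
  exact nonneg_of_mul_nonneg_right hn hc

theorem dd_neg_nonpos (s x y : ℝ) (h0 : 0 < s) (h1 : s < 1) (hx : 0 < x) (hy : 0 < y) :
    dd (s - 1) x y ≤ 0 := by
  have h := (int_dd_neg s x y h0 h1 hx hy).2
  have hc := cst_pos s h0 h1
  have hn : 0 ≤ ∫ r in Ioi (0 : ℝ), r ^ (s - 1) / ((x + r) * (y + r)) := by
    refine setIntegral_nonneg measurableSet_Ioi ?_
    intro r hr
    have hr0 : (0 : ℝ) < r := hr
    have hp : 0 < r ^ (s - 1) := Real.rpow_pos_of_pos hr0 _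
    positivity
  rw [h] at hn
  have h2 : 0 ≤ cst s * (-dd (s - 1) x y) := by linarith
  have h3 := nonneg_of_mul_nonneg_right h2 hc
  linarith

end Pool.Agent.LibSchP
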