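import Pool.Agent.LibSchP.E2
import Pool.Agent.LibSchP.I2

/-! **E3.**  Comparison of the second order forms `BB` and `SS`. -/

open Matrix
open scoped ComplexOrder

namespace Pool.Agent.LibSchP

variable {κ : Type} [Fintype κ] [DecidableEq κ]

theorem e3_norm (x y : ℝ) (z w : ℂ) :
    ‖(x : ℂ) * z + (y : ℂ) * w‖ ^ 2 =
      x * (x + y) * ‖z‖ ^ 2 + y * (x + y) * ‖w‖ ^ 2 - x * y * ‖z - w‖ ^ 2 := by
  have e : ∀ v : ℂ, ‖v‖ ^ 2 = v.re * v.re + v.im * v.im := by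
    intro v
    rw [← Complex.normSq_eq_norm_sq, Complex.normSq_apply]
  rw [e, e, e, e]
  simp only [Complex.add_re, Complex.add_im, Complex.mul_re, Complex.mul_im, Complex.ofReal_re,
    Complex.ofReal_im, Complex.sub_re, Complex.sub_im]
  ring

/-- symmetrise in `(j,l)`: with `z = M_jl`, `w = star (M_lj)`, `x = t_j`, `y = t_l`, `κ = -dd ≥ 0`:
`y^(p-2)|z|² + x^(p-2)|w|² - κ|xz+yw|² = dd (p-1) x y (|z|²+|w|²) + xyκ|z-w|²` by `dd_pair`
(for `(x,y)` and `(y,x)`). -/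
theorem BB_eq (p : ℝ) (h1 : 1 < p) (h2 : p < 2) (t : κ → ℝ) (ht : ∀ j, 0 < t j)
    (M : Matrix κ κ ℂ) :
    BB p t M = SS p t M - 1 / 2 * ∑ j, ∑ l, t j * t l * dd (p / 2 - 1) (t j ^ 2) (t l ^ 2) *
      ‖M j l - star (M l j)‖ ^ 2 := by
  obtain ⟨D, hD⟩ : ∃ D : κ → κ → ℝ, D = fun j l => dd (p / 2 - 1) (t j ^ 2) (t l ^ 2) := ⟨_, rfl⟩
  have hDs : ∀ j l, D j l = D l j := by
    intro j l; rw [hD]; exact dd_comm _ _ _
  have hD' : ∀ j l, dd (p / 2 - 1) (t j ^ 2) (t l ^ 2) = D j l := by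
    intro j l; rw [hD]
  obtain ⟨f, hf⟩ : ∃ f : κ → κ → ℝ, f = fun j l => t j ^ (p - 2) * ‖M l j‖ ^ 2 := ⟨_, rfl⟩
  obtain ⟨g, hg⟩ : ∃ g : κ → κ → ℝ,
    g = fun j l => 1 / 2 * D j l * (t l * (t j + t l)) * ‖M l j‖ ^ 2 := ⟨_, rfl⟩
  obtain ⟨h, hh⟩ : ∃ h : κ → κ → ℝ,
    h = fun j l => 1 / 2 * D j l * (t j * (t j + t l)) * ‖M j l‖ ^ 2 := ⟨_, rfl⟩
  obtain ⟨k, hk⟩ : ∃ k : κ → κ → ℝ,
    k = fun j l => t j * t l * D j l * ‖M j l - star (M l j)‖ ^ 2 := ⟨_, rfl⟩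
  have e1 : BB p t M = ∑ j, ∑ l, (f j l + g j l + h j l - 1 / 2 * k j l) := by
    unfold BB
    refine Finset.sum_congr rfl fun j _ => Finset.sum_congr rfl fun l _ => ?_
    rw [hD', e3_norm, hf, hg, hh, hk, norm_star]
    ring
  have e2 : ∑ j, ∑ l, (f j l + g j l + h j l - 1 / 2 * k j l) =
      (∑ j, ∑ l, f j l) + (∑ j, ∑ l, g j l) + (∑ j, ∑ l, h j l) - 1 / 2 * ∑ j, ∑ l, k j l := by
    simp only [Finset.sum_sub_distrib, Finset.sum_add_distrib, Finset.mul_sum]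
  have e3 : (∑ j, ∑ l, f j l) = ∑ j, ∑ l, f l j := Finset.sum_comm
  have e4 : (∑ j, ∑ l, g j l) = ∑ j, ∑ l, g l j := Finset.sum_comm
  have e5 : SS p t M = (∑ j, ∑ l, f l j) + (∑ j, ∑ l, g l j) + (∑ j, ∑ l, h j l) := by
    unfold SS
    rw [← Finset.sum_add_distrib, ← Finset.sum_add_distrib]
    refine Finset.sum_congr rfl fun j _ => ?_
    rw [← Finset.sum_add_distrib, ← Finset.sum_add_distrib]
    refine Finset.sum_congr rfl fun l _ => ?_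
    have hp := dd_pair p (t j) (t l) h1 h2 (ht j) (ht l)
    rw [hD'] at hp
    have hp' : dd (p - 1) (t j) (t l) = t l ^ (p - 2) + t j * (t j + t l) * D j l := by linarith
    rw [hp', hf, hg, hh]
    simp only
    rw [hDs l j]
    ring
  have e6 : ∑ j, ∑ l, t j * t l * dd (p / 2 - 1) (t j ^ 2) (t l ^ 2) *
      ‖M j l - star (M l j)‖ ^ 2 = ∑ j, ∑ l, k j l := by
    rw [hk]
    refine Finset.sum_congr rfl fun j _ => Finset.sum_congr rfl fun l _ => ?_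
    rw [hD']
  rw [e1, e2, e3, e4, e5, e6]

theorem BB_ge (p : ℝ) (h1 : 1 < p) (h2 : p < 2) (t : κ → ℝ) (ht : ∀ j, 0 < t j)
    (M : Matrix κ κ ℂ) : SS p t M ≤ BB p t M := by
  rw [BB_eq p h1 h2 t ht M]
  have h : ∑ j, ∑ l, t j * t l * dd (p / 2 - 1) (t j ^ 2) (t l ^ 2) *
      ‖M j l - star (M l j)‖ ^ 2 ≤ 0 := by
    refine Finset.sum_nonpos fun j _ => Finset.sum_nonpos fun l _ => ?_
    have hd : dd (p / 2 - 1) (t j ^ 2) (t l ^ 2) ≤ 0 :=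
      dd_neg_nonpos (p / 2) (t j ^ 2) (t l ^ 2) (by linarith) (by linarith)
        (pow_pos (ht j) 2) (pow_pos (ht l) 2)
    have h3 : 0 < t j * t l := mul_pos (ht j) (ht l)
    have h4 : t j * t l * dd (p / 2 - 1) (t j ^ 2) (t l ^ 2) ≤ 0 :=
      mul_nonpos_of_nonneg_of_nonpos h3.le hd
    exact mul_nonpos_of_nonpos_of_nonneg h4 (by positivity)
  linarith

theorem BB_herm (p : ℝ) (h1 : 1 < p) (h2 : p < 2) (t : κ → ℝ) (ht : ∀ j, 0 < t j)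
    (M : Matrix κ κ ℂ) (hM : M.IsHermitian) : BB p t M = SS p t M := by
  rw [BB_eq p h1 h2 t ht M]
  have h : ∑ j, ∑ l, t j * t l * dd (p / 2 - 1) (t j ^ 2) (t l ^ 2) *
      ‖M j l - star (M l j)‖ ^ 2 = 0 := by
    refine Finset.sum_eq_zero fun j _ => Finset.sum_eq_zero fun l _ => ?_
    rw [hM.apply j l, sub_self, norm_zero]
    ring
  rw [h]
  ring

/-- crude bound -/
theorem BB_le (p : ℝ) (t : κ → ℝ) : ∃ C : ℝ, 0 ≤ C ∧ ∀ M : Matrix κ κ ℂ,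
    |BB p t M| ≤ C * nf M ^ 2 := by
  refine ⟨∑ j, ∑ l, (|t j ^ (p - 2)| + 1 / 2 * |dd (p / 2 - 1) (t j ^ 2) (t l ^ 2)| *
    (|t j| + |t l|) ^ 2), ?_, ?_⟩
  · refine Finset.sum_nonneg fun j _ => Finset.sum_nonneg fun l _ => ?_
    positivity
  · intro M
    have hn := nf_nonneg M
    unfold BB
    refine (Finset.abs_sum_le_sum_abs _ _).trans ?_
    rw [Finset.sum_mul]
    refine Finset.sum_le_sum fun j _ => ?_
    refine (Finset.abs_sum_le_sum_abs _ _).trans ?_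
    rw [Finset.sum_mul]
    refine Finset.sum_le_sum fun l _ => ?_
    have a1 := norm_le_nf M l j
    have a2 := norm_le_nf M j l
    have b1 : ‖(t j : ℂ) * M j l + (t l : ℂ) * star (M l j)‖ ≤ (|t j| + |t l|) * nf M := by
      refine (norm_add_le _ _).trans ?_
      rw [norm_mul, norm_mul, norm_star, Complex.norm_real, Complex.norm_real, Real.norm_eq_abs,
        Real.norm_eq_abs, add_mul]
      exact add_le_add (mul_le_mul_of_nonneg_left a2 (abs_nonneg _))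
        (mul_le_mul_of_nonneg_left a1 (abs_nonneg _))
    have b2 : ‖(t j : ℂ) * M j l + (t l : ℂ) * star (M l j)‖ ^ 2 ≤
        (|t j| + |t l|) ^ 2 * nf M ^ 2 := by
      rw [← mul_pow]
      exact pow_le_pow_left₀ (norm_nonneg _) b1 2
    have b3 : ‖M l j‖ ^ 2 ≤ nf M ^ 2 := pow_le_pow_left₀ (norm_nonneg _) a1 2
    refine (abs_add_le _ _).trans ?_
    rw [abs_mul, abs_mul, abs_mul, abs_of_nonneg (sq_nonneg ‖M l j‖),
      abs_of_nonneg (sq_nonneg ‖(t j : ℂ) * M j l + (t l : ℂ) * star (M l j)‖),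
      abs_of_nonneg (show (0 : ℝ) ≤ 1 / 2 by norm_num), add_mul]
    refine add_le_add (mul_le_mul_of_nonneg_left b3 (abs_nonneg _)) ?_
    have b4 : 1 / 2 * |dd (p / 2 - 1) (t j ^ 2) (t l ^ 2)| *
        ‖(t j : ℂ) * M j l + (t l : ℂ) * star (M l j)‖ ^ 2 ≤
        1 / 2 * |dd (p / 2 - 1) (t j ^ 2) (t l ^ 2)| * ((|t j| + |t l|) ^ 2 * nf M ^ 2) :=
      mul_le_mul_of_nonneg_left b2 (by positivity)
    linarith

end Pool.Agent.LibSchP
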