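import Pool.Agent.LibSchP.A1
import Pool.Agent.LibSchP.A2

/-! **E4a.**  Size and first order term of `MM`. -/

open Matrix
open scoped ComplexOrder

namespace Pool.Agent.LibSchP

variable {κ n n₁ n₂ : Type} [Fintype κ] [Fintype n] [Fintype n₁] [Fintype n₂] [DecidableEq κ]
  [DecidableEq n] [DecidableEq n₁] [DecidableEq n₂]

/-- the size of `MM` -/
theorem MM_le (t : κ → ℝ) (θ₁ : n₁ → ℝ) (θ₂ : n₂ → ℝ) (V₁ : Matrix κ n₁ ℂ) (V₂ : Matrix κ n₂ ℂ) :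
    ∃ C : ℝ, 0 ≤ C ∧ ∀ (Δ₁ : Matrix n₁ n₁ ℂ) (Δ₂ : Matrix n₂ n₂ ℂ),
      nf (MM t θ₁ θ₂ V₁ V₂ Δ₁ Δ₂) ≤ C * (nf Δ₁ + nf Δ₂) := by
  set c1 : ℝ := nf V₁ * nf (dg fun k => (θ₁ k)⁻¹) * nf V₁ᴴ * nf (dg t) with hc1
  set c2 : ℝ := nf (dg t) * nf V₂ * nf (dg fun k => (θ₂ k)⁻¹) * nf V₂ᴴ with hc2
  have h1 : 0 ≤ c1 := mul_nonneg (mul_nonneg (mul_nonneg (nf_nonneg _) (nf_nonneg _))
    (nf_nonneg _)) (nf_nonneg _)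
  have h2 : 0 ≤ c2 := mul_nonneg (mul_nonneg (mul_nonneg (nf_nonneg _) (nf_nonneg _))
    (nf_nonneg _)) (nf_nonneg _)
  refine ⟨c1 + c2, add_nonneg h1 h2, ?_⟩
  intro Δ₁ Δ₂
  have e1 : nf (V₁ * (Δ₁ * dg fun k => (θ₁ k)⁻¹) * V₁ᴴ * dg t) ≤ c1 * nf Δ₁ := by
    calc nf (V₁ * (Δ₁ * dg fun k => (θ₁ k)⁻¹) * V₁ᴴ * dg t)
        ≤ nf (V₁ * (Δ₁ * dg fun k => (θ₁ k)⁻¹) * V₁ᴴ) * nf (dg t) := nf_mul_le _ _
      _ ≤ nf (V₁ * (Δ₁ * dg fun k => (θ₁ k)⁻¹)) * nf V₁ᴴ * nf (dg t) :=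
          mul_le_mul_of_nonneg_right (nf_mul_le _ _) (nf_nonneg _)
      _ ≤ nf V₁ * nf (Δ₁ * dg fun k => (θ₁ k)⁻¹) * nf V₁ᴴ * nf (dg t) :=
          mul_le_mul_of_nonneg_right (mul_le_mul_of_nonneg_right (nf_mul_le _ _) (nf_nonneg _))
            (nf_nonneg _)
      _ ≤ nf V₁ * (nf Δ₁ * nf (dg fun k => (θ₁ k)⁻¹)) * nf V₁ᴴ * nf (dg t) :=
          mul_le_mul_of_nonneg_right (mul_le_mul_of_nonneg_right
            (mul_le_mul_of_nonneg_left (nf_mul_le _ _) (nf_nonneg _)) (nf_nonneg _)) (nf_nonneg _)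
      _ = c1 * nf Δ₁ := by rw [hc1]; ring
  have e2 : nf (dg t * V₂ * ((dg fun k => (θ₂ k)⁻¹) * Δ₂ᴴ) * V₂ᴴ) ≤ c2 * nf Δ₂ := by
    calc nf (dg t * V₂ * ((dg fun k => (θ₂ k)⁻¹) * Δ₂ᴴ) * V₂ᴴ)
        ≤ nf (dg t * V₂ * ((dg fun k => (θ₂ k)⁻¹) * Δ₂ᴴ)) * nf V₂ᴴ := nf_mul_le _ _
      _ ≤ nf (dg t * V₂) * nf ((dg fun k => (θ₂ k)⁻¹) * Δ₂ᴴ) * nf V₂ᴴ :=
          mul_le_mul_of_nonneg_right (nf_mul_le _ _) (nf_nonneg _)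
      _ ≤ (nf (dg t) * nf V₂) * (nf (dg fun k => (θ₂ k)⁻¹) * nf Δ₂ᴴ) * nf V₂ᴴ :=
          mul_le_mul_of_nonneg_right (mul_le_mul (nf_mul_le _ _) (nf_mul_le _ _) (nf_nonneg _)
            (mul_nonneg (nf_nonneg _) (nf_nonneg _))) (nf_nonneg _)
      _ = c2 * nf Δ₂ := by rw [hc2, nf_conjTranspose Δ₂]; ring
  unfold MM
  refine le_trans (nf_add_le _ _) ?_
  have p1 := mul_nonneg h1 (nf_nonneg Δ₂)
  have p2 := mul_nonneg h2 (nf_nonneg Δ₁)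
  nlinarith [e1, e2, p1, p2]

theorem e4a_trace_dg (a : n → ℝ) (M : Matrix n n ℂ) :
    (trace (dg a * M)).re = ∑ k, a k * (M k k).re := by
  unfold trace dg
  simp only [diag_apply, diagonal_mul, Complex.re_sum, Complex.re_ofReal_mul]

theorem e4a_inv (p : ℝ) (θ : n → ℝ) (hθ : ∀ k, 0 < θ k) :
    (dg fun k => (θ k)⁻¹) * (dg fun k => θ k ^ p) = dg fun k => θ k ^ (p - 1) := by
  rw [dg_mul]
  congr 1
  funext k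
  rw [Real.rpow_sub (hθ k), Real.rpow_one, div_eq_mul_inv, mul_comm]

theorem e4a_mul (p : ℝ) (t : κ → ℝ) (ht : ∀ k, 0 < t k) :
    (dg t) * (dg fun k => t k ^ (p - 1)) = dg fun k => t k ^ p := by
  rw [dg_mul]
  congr 1
  funext k
  rw [Real.rpow_sub (ht k), Real.rpow_one, mul_div_assoc', mul_comm, mul_div_assoc,
    div_self (ht k).ne', mul_one]

/-- the first order term: `∑ t^(p-1) Re M_jj = Re tr (t^(p-1) M)`,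
`tr t^(p-1) V₁ E₁ V₁ᴴ t = tr E₁ (V₁ᴴ t^p V₁) = tr Δ₁ θ₁^(p-1)`. -/
theorem first_order (p : ℝ) (t : κ → ℝ) (θ₁ : n₁ → ℝ) (θ₂ : n₂ → ℝ)
    (V₁ : Matrix κ n₁ ℂ) (V₂ : Matrix κ n₂ ℂ) (hb₁ : Blk p t θ₁ V₁) (hb₂ : Blk p t θ₂ V₂)
    (Δ₁ : Matrix n₁ n₁ ℂ) (Δ₂ : Matrix n₂ n₂ ℂ) :
    ∑ j, t j ^ (p - 1) * ((MM t θ₁ θ₂ V₁ V₂ Δ₁ Δ₂) j j).re =
      ∑ k, θ₁ k ^ (p - 1) * (Δ₁ k k).re + ∑ k, θ₂ k ^ (p - 1) * (Δ₂ k k).re := by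
  rw [← e4a_trace_dg]
  unfold MM
  rw [Matrix.mul_add, trace_add, Complex.add_re]
  congr 1
  · have h1 : trace ((dg fun j => t j ^ (p - 1)) *
        (V₁ * (Δ₁ * dg fun k => (θ₁ k)⁻¹) * V₁ᴴ * dg t)) =
        trace ((dg fun k => θ₁ k ^ (p - 1)) * Δ₁) := by
      rw [trace_mul_comm]
      have : V₁ * (Δ₁ * dg fun k => (θ₁ k)⁻¹) * V₁ᴴ * dg t * (dg fun j => t j ^ (p - 1)) =
          V₁ * ((Δ₁ * dg fun k => (θ₁ k)⁻¹) * (V₁ᴴ * (dg fun j => t j ^ p))) := by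
        rw [← e4a_mul p t hb₁.ht]
        simp only [Matrix.mul_assoc]
      rw [this, trace_mul_comm]
      have : (Δ₁ * dg fun k => (θ₁ k)⁻¹) * (V₁ᴴ * (dg fun j => t j ^ p)) * V₁ =
          Δ₁ * ((dg fun k => (θ₁ k)⁻¹) * (V₁ᴴ * (dg fun j => t j ^ p) * V₁)) := by
        simp only [Matrix.mul_assoc]
      rw [this, hb₁.hp, e4a_inv p θ₁ hb₁.hθ, trace_mul_comm]
    rw [h1, e4a_trace_dg]
  · have h1 : trace ((dg fun j => t j ^ (p - 1)) *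
        (dg t * V₂ * ((dg fun k => (θ₂ k)⁻¹) * Δ₂ᴴ) * V₂ᴴ)) =
        trace ((dg fun k => θ₂ k ^ (p - 1)) * Δ₂ᴴ) := by
      have h2 : (dg fun j => t j ^ (p - 1)) * dg t = dg fun j => t j ^ p := by
        rw [← e4a_mul p t hb₂.ht, dg_mul, dg_mul]
        congr 1; funext k; ring
      have : (dg fun j => t j ^ (p - 1)) * (dg t * V₂ * ((dg fun k => (θ₂ k)⁻¹) * Δ₂ᴴ) * V₂ᴴ) =
          ((dg fun j => t j ^ p) * V₂ * ((dg fun k => (θ₂ k)⁻¹) * Δ₂ᴴ)) * V₂ᴴ := by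
        rw [← h2]
        simp only [Matrix.mul_assoc]
      rw [this, trace_mul_comm]
      have : V₂ᴴ * ((dg fun j => t j ^ p) * V₂ * ((dg fun k => (θ₂ k)⁻¹) * Δ₂ᴴ)) =
          (V₂ᴴ * (dg fun j => t j ^ p) * V₂) * (dg fun k => (θ₂ k)⁻¹) * Δ₂ᴴ := by
        simp only [Matrix.mul_assoc]
      rw [this, hb₂.hp]
      have : (dg fun k => θ₂ k ^ p) * (dg fun k => (θ₂ k)⁻¹) = dg fun k => θ₂ k ^ (p - 1) := by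
        rw [← e4a_inv p θ₂ hb₂.hθ, dg_mul, dg_mul]
        congr 1; funext k; ring
      rw [this]
    rw [h1, e4a_trace_dg]
    refine Finset.sum_congr rfl ?_
    intro k _
    rw [conjTranspose_apply]
    simp

end Pool.Agent.LibSchP
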