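import Pool.Agent.LibSchP.A1
import Pool.Agent.LibSchP.A2

/-! **K3.**  The inequality for one value of `r`. -/

open Matrix
open scoped ComplexOrder

namespace Pool.Agent.LibSchP

variable {κ n₁ n₂ : Type} [Fintype κ] [Fintype n₁] [Fintype n₂] [DecidableEq κ] [DecidableEq n₁]
  [DecidableEq n₂]

/-- the conjugate of the `k`-th row of `E` -/
def rowc {n : Type} (E : Matrix n n ℂ) (k : n) : n → ℂ := fun l => star (E k l)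

omit [DecidableEq κ] in
theorem k3_tr (N M : Matrix κ κ ℂ) : (trace (Nᴴ * M)).re = ∑ i, ∑ j, (star (N i j) * M i j).re := by
  simp only [trace, diag, mul_apply, conjTranspose_apply, Complex.re_sum]
  rw [Finset.sum_comm]

omit [DecidableEq κ] in
/-- Young's inequality with weights -/
theorem k3_young (ρ : κ → ℝ) (hρ : ∀ j, 0 < ρ j) (N M : Matrix κ κ ℂ) :
    2 * (trace (Nᴴ * M)).re - ∑ i, ∑ j, ρ i * ρ j * ‖N i j‖ ^ 2 ≤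
      ∑ i, ∑ j, ‖M i j‖ ^ 2 / (ρ i * ρ j) := by
  rw [k3_tr]
  simp only [Finset.mul_sum, ← Finset.sum_sub_distrib]
  refine Finset.sum_le_sum fun i _ => Finset.sum_le_sum fun j _ => ?_
  have hc : 0 < ρ i * ρ j := mul_pos (hρ i) (hρ j)
  have h1 : (star (N i j) * M i j).re ≤ ‖N i j‖ * ‖M i j‖ := by
    refine (Complex.re_le_norm _).trans ?_
    rw [norm_mul, norm_star]
  have h3 : 2 * (‖N i j‖ * ‖M i j‖) - ρ i * ρ j * ‖N i j‖ ^ 2 ≤ ‖M i j‖ ^ 2 / (ρ i * ρ j) := by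
    rw [le_div_iff₀ hc]
    nlinarith [sq_nonneg ((ρ i * ρ j) * ‖N i j‖ - ‖M i j‖)]
  linarith

omit [Fintype n₁] [Fintype n₂] [DecidableEq κ] in
theorem k3_dgl {a : Type} [Fintype a] [DecidableEq a] {b : Type} (x : a → ℝ) (N : Matrix a b ℂ)
    (i : a) (j : b) : (dg x * N) i j = (x i : ℂ) * N i j := by
  rw [dg, diagonal_mul]

theorem k3_dgr {a b : Type} [Fintype b] [DecidableEq b] (x : b → ℝ) (N : Matrix a b ℂ)
    (i : a) (j : b) : (N * dg x) i j = N i j * (x j : ℂ) := by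
  rw [dg, mul_diagonal]

theorem k3_ent {a b c : Type} [Fintype b] [DecidableEq b] (A : Matrix a b ℂ) (g : b → ℝ)
    (B : Matrix b c ℂ) (i : a) (j : c) :
    (A * dg g * B) i j = ∑ k, A i k * (g k : ℂ) * B k j := by
  rw [Matrix.mul_apply]
  refine Finset.sum_congr rfl fun k _ => ?_
  rw [k3_dgr]

theorem k3_norm_add_sq (a b : ℂ) : ‖a + b‖ ^ 2 = ‖a‖ ^ 2 + ‖b‖ ^ 2 + 2 * (star a * b).re := by
  rw [← Complex.normSq_eq_norm_sq, Complex.normSq_add, Complex.normSq_eq_norm_sq,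
    Complex.normSq_eq_norm_sq]
  congr 2
  rw [Complex.star_def, ← Complex.conj_re (a * (starRingEnd ℂ) b), map_mul, Complex.conj_conj,
    mul_comm]

/-- the weighted square of a sum -/
theorem k3_sq (ρ : κ → ℝ) (N₁ N₂ : Matrix κ κ ℂ)
    (h : trace (N₁ᴴ * (dg ρ * N₂ * dg ρ)) = 0) :
    ∑ i, ∑ j, ρ i * ρ j * ‖(N₁ + N₂) i j‖ ^ 2 =
      ∑ i, ∑ j, ρ i * ρ j * ‖N₁ i j‖ ^ 2 + ∑ i, ∑ j, ρ i * ρ j * ‖N₂ i j‖ ^ 2 := by
  have h1 : (trace (N₁ᴴ * (dg ρ * N₂ * dg ρ))).re =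
      ∑ i, ∑ j, ρ i * ρ j * (star (N₁ i j) * N₂ i j).re := by
    rw [k3_tr]
    refine Finset.sum_congr rfl fun i _ => Finset.sum_congr rfl fun j _ => ?_
    rw [k3_dgr, k3_dgl]
    have : star (N₁ i j) * ((ρ i : ℂ) * N₂ i j * (ρ j : ℂ)) =
        ((ρ i * ρ j : ℝ) : ℂ) * (star (N₁ i j) * N₂ i j) := by push_cast; ring
    rw [this, Complex.re_ofReal_mul]
  rw [h, Complex.zero_re] at h1
  have h2 : ∑ i, ∑ j, ρ i * ρ j * ‖(N₁ + N₂) i j‖ ^ 2 =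
      ∑ i, ∑ j, ρ i * ρ j * ‖N₁ i j‖ ^ 2 + ∑ i, ∑ j, ρ i * ρ j * ‖N₂ i j‖ ^ 2 +
      2 * ∑ i, ∑ j, ρ i * ρ j * (star (N₁ i j) * N₂ i j).re := by
    simp only [Finset.mul_sum, ← Finset.sum_add_distrib]
    refine Finset.sum_congr rfl fun i _ => Finset.sum_congr rfl fun j _ => ?_
    rw [Matrix.add_apply, k3_norm_add_sq]
    ring
  rw [h2, ← h1]
  ring

/-- one block: `N = V G Wᴴ t R`, `M = V Wᴴ t`, `W = V Eᴴ`; the linear term. -/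
theorem k3_lin {n : Type} [Fintype n] [DecidableEq n] (t : κ → ℝ) (θ : n → ℝ)
    (V W : Matrix κ n ℂ) (ht : ∀ j, 0 < t j) (hθ : ∀ k, 0 < θ k) (hV : Vᴴ * V = 1)
    (r : ℝ) (hr : 0 < r) :
    (trace ((V * (dg fun k => (θ k + r)⁻¹) * Wᴴ * (dg fun j => t j / (t j + r)))ᴴ *
      (V * Wᴴ * dg t))).re =
      ∑ k, ∑ j, (θ k + r)⁻¹ * (t j ^ 2 / (t j + r) * ‖W j k‖ ^ 2) := by
  have hG : (dg fun k => (θ k + r)⁻¹)ᴴ = dg fun k => (θ k + r)⁻¹ := dg_conjTranspose _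
  have hT : (dg fun j => t j / (t j + r))ᴴ = dg fun j => t j / (t j + r) := dg_conjTranspose _
  have h1 : (V * (dg fun k => (θ k + r)⁻¹) * Wᴴ * (dg fun j => t j / (t j + r)))ᴴ *
      (V * Wᴴ * dg t) = (dg fun j => t j / (t j + r)) * (W * (dg fun k => (θ k + r)⁻¹) *
        ((Vᴴ * V) * (Wᴴ * dg t))) := by
    simp only [conjTranspose_mul, conjTranspose_conjTranspose, hG, hT, Matrix.mul_assoc]
  rw [h1, hV, Matrix.one_mul, trace_mul_comm]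
  have h2 : W * (dg fun k => (θ k + r)⁻¹) * (Wᴴ * dg t) * (dg fun j => t j / (t j + r)) =
      W * (dg fun k => (θ k + r)⁻¹) * (Wᴴ * dg fun j => t j * (t j / (t j + r))) := by
    rw [← dg_mul]; simp only [Matrix.mul_assoc]
  rw [h2]
  have h3 : trace (W * (dg fun k => (θ k + r)⁻¹) * (Wᴴ * dg fun j => t j * (t j / (t j + r)))) =
      ∑ j, ∑ k, (W j k * (((θ k + r)⁻¹ : ℝ) : ℂ)) * (star (W j k) *
        ((t j * (t j / (t j + r)) : ℝ) : ℂ)) := by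
    rw [trace]
    refine Finset.sum_congr rfl fun j _ => ?_
    rw [diag_apply, k3_ent]
    refine Finset.sum_congr rfl fun k _ => ?_
    rw [k3_dgr, conjTranspose_apply]
  rw [h3, Finset.sum_comm, Complex.re_sum]
  refine Finset.sum_congr rfl fun k _ => ?_
  rw [Complex.re_sum]
  refine Finset.sum_congr rfl fun j _ => ?_
  have h4 : (W j k * (((θ k + r)⁻¹ : ℝ) : ℂ)) * (star (W j k) *
        ((t j * (t j / (t j + r)) : ℝ) : ℂ)) =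
      (((θ k + r)⁻¹ * (t j * (t j / (t j + r))) : ℝ) : ℂ) * (W j k * star (W j k)) := by
    push_cast; ring
  rw [h4, Complex.re_ofReal_mul, Complex.star_def, Complex.mul_conj, Complex.ofReal_re,
    Complex.normSq_eq_norm_sq]
  ring

/-- one block: the quadratic term. -/
theorem k3_quad {n : Type} [Fintype n] [DecidableEq n] (t : κ → ℝ) (θ : n → ℝ)
    (V W : Matrix κ n ℂ) (ht : ∀ j, 0 < t j) (hθ : ∀ k, 0 < θ k) (hV : Vᴴ * V = 1)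
    (hq : ∀ ξ, qf V t ξ ≤ ∑ k, θ k * ‖ξ k‖ ^ 2) (r : ℝ) (hr : 0 < r) :
    ∑ i, ∑ j, (t i + r) * (t j + r) *
      ‖(V * (dg fun k => (θ k + r)⁻¹) * Wᴴ * (dg fun j => t j / (t j + r))) i j‖ ^ 2 ≤
      ∑ k, ∑ j, (θ k + r)⁻¹ * (t j ^ 2 / (t j + r) * ‖W j k‖ ^ 2) := by
  rw [Finset.sum_comm, Finset.sum_comm (s := (Finset.univ : Finset n))]
  refine Finset.sum_le_sum fun j _ => ?_
  have hρ : 0 < t j + r := add_pos (ht j) hr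
  set ξ : n → ℂ := fun k => (((θ k + r)⁻¹ : ℝ) : ℂ) * star (W j k) with hξ
  have h1 : ∀ i, (V * (dg fun k => (θ k + r)⁻¹) * Wᴴ * (dg fun j => t j / (t j + r))) i j =
      (V *ᵥ ξ) i * ((t j / (t j + r) : ℝ) : ℂ) := by
    intro i
    rw [k3_dgr]
    congr 1
    rw [k3_ent, mulVec, dotProduct]
    refine Finset.sum_congr rfl fun k _ => ?_
    rw [hξ, conjTranspose_apply]
    ring
  have h2 : ∑ i, (t i + r) * (t j + r) *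
      ‖(V * (dg fun k => (θ k + r)⁻¹) * Wᴴ * (dg fun j => t j / (t j + r))) i j‖ ^ 2 =
      t j ^ 2 / (t j + r) * (qf V t ξ + r * qf V (fun _ => 1) ξ) := by
    simp only [h1, qf, Finset.mul_sum, ← Finset.sum_add_distrib, mul_add]
    refine Finset.sum_congr rfl fun i _ => ?_
    rw [norm_mul, mul_pow, Complex.norm_real, Real.norm_eq_abs, sq_abs]
    field_simp
  rw [h2, qf_one V hV]
  have h3 : qf V t ξ + r * ∑ k, ‖ξ k‖ ^ 2 ≤ ∑ k, (θ k + r)⁻¹ * ‖W j k‖ ^ 2 := by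
    calc qf V t ξ + r * ∑ k, ‖ξ k‖ ^ 2 ≤ ∑ k, θ k * ‖ξ k‖ ^ 2 + r * ∑ k, ‖ξ k‖ ^ 2 := by
          linarith [hq ξ]
      _ = ∑ k, (θ k + r)⁻¹ * ‖W j k‖ ^ 2 := by
          rw [Finset.mul_sum, ← Finset.sum_add_distrib]
          refine Finset.sum_congr rfl fun k _ => ?_
          have hk : 0 < θ k + r := add_pos (hθ k) hr
          rw [hξ]
          simp only [norm_mul, norm_star, Complex.norm_real, Real.norm_eq_abs, mul_pow, sq_abs]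
          field_simp
  have hc : 0 ≤ t j ^ 2 / (t j + r) := by positivity
  calc t j ^ 2 / (t j + r) * (qf V t ξ + r * ∑ k, ‖ξ k‖ ^ 2)
      ≤ t j ^ 2 / (t j + r) * ∑ k, (θ k + r)⁻¹ * ‖W j k‖ ^ 2 := mul_le_mul_of_nonneg_left h3 hc
    _ = _ := by
        rw [Finset.mul_sum]
        refine Finset.sum_congr rfl fun k _ => ?_
        ring

/-- `(V Eᴴ)_jk` -/
theorem k3_rowc {n : Type} [Fintype n] [DecidableEq n] (V : Matrix κ n ℂ) (E : Matrix n n ℂ)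
    (j : κ) (k : n) : (V *ᵥ rowc E k) j = (V * Eᴴ) j k := by
  simp only [mulVec, dotProduct, rowc, mul_apply, conjTranspose_apply]

/-- **one value of `r`.**  `R_j = 1/(t_j+r)`, `G_i = 1/(θ_i+r)`.  Test matrix
`N = V₁ G₁ E₁ V₁ᴴ t R + R t V₂ E₂ᴴ G₂ V₂ᴴ`:
`∑ R_j R_l |M_jl|² ≥ 2 Re tr NᴴM - ∑ |N_jl|²/(R_j R_l)`.  All four cross terms contain the factor
`V₁ᴴ t V₂ = 0`; `tr N_iᴴ M_i = tr G_i E_i (V_iᴴ t² R V_i) E_iᴴ = ∑_k G_i(k) qf V_i (t²R) (rowc E_i k)`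
and `tr N_iᴴ R⁻¹ N_i R⁻¹ = tr (G_i V_iᴴ R⁻¹ V_i G_i)(E_i V_iᴴ t² R V_i E_iᴴ) ≤` the same, because
`V_iᴴ (t + r) V_i ≤ θ_i + r`. -/
theorem per_r (t : κ → ℝ) (θ₁ : n₁ → ℝ) (θ₂ : n₂ → ℝ) (V₁ : Matrix κ n₁ ℂ) (V₂ : Matrix κ n₂ ℂ)
    (ht : ∀ j, 0 < t j) (hθ₁ : ∀ k, 0 < θ₁ k) (hθ₂ : ∀ k, 0 < θ₂ k)
    (hV₁ : V₁ᴴ * V₁ = 1) (hV₂ : V₂ᴴ * V₂ = 1) (h12 : V₁ᴴ * dg t * V₂ = 0)
    (hq₁ : ∀ ξ, qf V₁ t ξ ≤ ∑ k, θ₁ k * ‖ξ k‖ ^ 2)
    (hq₂ : ∀ ξ, qf V₂ t ξ ≤ ∑ k, θ₂ k * ‖ξ k‖ ^ 2)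
    (E₁ : Matrix n₁ n₁ ℂ) (E₂ : Matrix n₂ n₂ ℂ) (r : ℝ) (hr : 0 < r) :
    ∑ k, (θ₁ k + r)⁻¹ * qf V₁ (fun j => t j ^ 2 / (t j + r)) (rowc E₁ k) +
      ∑ k, (θ₂ k + r)⁻¹ * qf V₂ (fun j => t j ^ 2 / (t j + r)) (rowc E₂ k) ≤
    ∑ j, ∑ l, ‖(V₁ * E₁ * V₁ᴴ * dg t + dg t * V₂ * E₂ᴴ * V₂ᴴ) j l‖ ^ 2 /
      ((t j + r) * (t l + r)) := by
  have hρ : ∀ j, 0 < t j + r := fun j => add_pos (ht j) hr
  set W₁ := V₁ * E₁ᴴ with hW₁
  set W₂ := V₂ * E₂ᴴ with hW₂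
  set S : κ → ℝ := fun j => t j / (t j + r) with hS
  set G₁ : n₁ → ℝ := fun k => (θ₁ k + r)⁻¹ with hG₁
  set G₂ : n₂ → ℝ := fun k => (θ₂ k + r)⁻¹ with hG₂
  set N₁ := V₁ * dg G₁ * W₁ᴴ * dg S with hN₁
  set N₂' := V₂ * dg G₂ * W₂ᴴ * dg S with hN₂'
  set M₁ := V₁ * W₁ᴴ * dg t with hM₁
  set M₂' := V₂ * W₂ᴴ * dg t with hM₂'
  have hM : V₁ * E₁ * V₁ᴴ * dg t + dg t * V₂ * E₂ᴴ * V₂ᴴ = M₁ + M₂'ᴴ := by
    simp only [hM₁, hM₂', hW₁, hW₂, conjTranspose_mul, conjTranspose_conjTranspose,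
      dg_conjTranspose, Matrix.mul_assoc]
  rw [hM]
  -- the orthogonality relations
  have o1 : V₁ᴴ * dg t * W₂ = 0 := by rw [hW₂, ← Matrix.mul_assoc, h12, Matrix.zero_mul]
  have h21 : V₂ᴴ * dg t * V₁ = 0 := by
    have := congrArg conjTranspose h12
    simpa only [conjTranspose_mul, conjTranspose_conjTranspose, dg_conjTranspose,
      conjTranspose_zero, Matrix.mul_assoc] using this
  have o2 : W₁ᴴ * dg t * V₂ = 0 := by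
    rw [hW₁, conjTranspose_mul, conjTranspose_conjTranspose, Matrix.mul_assoc, Matrix.mul_assoc,
      ← Matrix.mul_assoc V₁ᴴ, h12, Matrix.mul_zero]
  have hPS : dg (fun j => t j + r) * dg S = dg t := by
    rw [dg_mul]; congr 1; funext j; rw [hS]; simp only []; rw [mul_div_cancel₀ _ (hρ j).ne']
  have hSP : dg S * dg (fun j => t j + r) = dg t := by
    rw [dg_mul]; congr 1; funext j; rw [hS]; simp only []; rw [div_mul_cancel₀ _ (hρ j).ne']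
  have c1 : trace (N₁ᴴ * M₂'ᴴ) = 0 := by
    have : N₁ᴴ * M₂'ᴴ = dg S * W₁ * dg G₁ * ((V₁ᴴ * dg t * W₂) * V₂ᴴ) := by
      simp only [hN₁, hM₂', conjTranspose_mul, conjTranspose_conjTranspose, dg_conjTranspose,
        Matrix.mul_assoc]
    rw [this, o1, Matrix.zero_mul, Matrix.mul_zero, trace_zero]
  have c2 : trace (N₂' * M₁) = 0 := by
    have : N₂' * M₁ = V₂ * (dg G₂ * W₂ᴴ * dg S * V₁ * W₁ᴴ * dg t) := by
      simp only [hN₂', hM₁, Matrix.mul_assoc]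
    rw [this, trace_mul_comm]
    have : dg G₂ * W₂ᴴ * dg S * V₁ * W₁ᴴ * dg t * V₂ =
        dg G₂ * W₂ᴴ * dg S * V₁ * (W₁ᴴ * dg t * V₂) := by simp only [Matrix.mul_assoc]
    rw [this, o2, Matrix.mul_zero, trace_zero]
  have c3 : trace (N₁ᴴ * (dg (fun j => t j + r) * N₂'ᴴ * dg (fun j => t j + r))) = 0 := by
    have : N₁ᴴ * (dg (fun j => t j + r) * N₂'ᴴ * dg (fun j => t j + r)) =
        dg S * W₁ * dg G₁ * ((V₁ᴴ * (dg (fun j => t j + r) * dg S) * W₂) * dg G₂ * V₂ᴴ *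
          dg (fun j => t j + r)) := by
      simp only [hN₁, hN₂', conjTranspose_mul, conjTranspose_conjTranspose, dg_conjTranspose,
        Matrix.mul_assoc]
    rw [this, hPS, o1]
    simp only [Matrix.zero_mul, Matrix.mul_zero, trace_zero]
  -- Young
  have hY := k3_young (fun j => t j + r) hρ (N₁ + N₂'ᴴ) (M₁ + M₂'ᴴ)
  rw [k3_sq (fun j => t j + r) N₁ N₂'ᴴ c3] at hY
  have hlin : (trace ((N₁ + N₂'ᴴ)ᴴ * (M₁ + M₂'ᴴ))).re =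
      (trace (N₁ᴴ * M₁)).re + (trace (N₂'ᴴ * M₂')).re := by
    have e : (N₁ + N₂'ᴴ)ᴴ * (M₁ + M₂'ᴴ) = N₁ᴴ * M₁ + N₁ᴴ * M₂'ᴴ + (N₂' * M₁ + N₂' * M₂'ᴴ) := by
      rw [conjTranspose_add, conjTranspose_conjTranspose, Matrix.add_mul, Matrix.mul_add,
        Matrix.mul_add]
    rw [e, trace_add, trace_add, trace_add, c1, c2]
    have e2 : trace (N₂' * M₂'ᴴ) = star (trace (N₂'ᴴ * M₂')) := by
      rw [← trace_conjTranspose, conjTranspose_mul N₂'ᴴ M₂', conjTranspose_conjTranspose,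
        trace_mul_comm]
    rw [e2, add_zero, zero_add, Complex.add_re, Complex.star_def, Complex.conj_re]
  have q2 : ∑ i, ∑ j, (t i + r) * (t j + r) * ‖N₂'ᴴ i j‖ ^ 2 =
      ∑ i, ∑ j, (t i + r) * (t j + r) * ‖N₂' i j‖ ^ 2 := by
    rw [Finset.sum_comm]
    refine Finset.sum_congr rfl fun i _ => Finset.sum_congr rfl fun j _ => ?_
    rw [conjTranspose_apply, norm_star, mul_comm (t j + r)]
  rw [hlin, q2] at hY
  have l1 := k3_lin t θ₁ V₁ W₁ ht hθ₁ hV₁ r hr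
  have l2 := k3_lin t θ₂ V₂ W₂ ht hθ₂ hV₂ r hr
  have p1 := k3_quad t θ₁ V₁ W₁ ht hθ₁ hV₁ hq₁ r hr
  have p2 := k3_quad t θ₂ V₂ W₂ ht hθ₂ hV₂ hq₂ r hr
  have s1 : ∑ k, (θ₁ k + r)⁻¹ * qf V₁ (fun j => t j ^ 2 / (t j + r)) (rowc E₁ k) =
      ∑ k, ∑ j, (θ₁ k + r)⁻¹ * (t j ^ 2 / (t j + r) * ‖W₁ j k‖ ^ 2) := by
    refine Finset.sum_congr rfl fun k _ => ?_
    rw [qf, Finset.mul_sum]
    refine Finset.sum_congr rfl fun j _ => ?_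
    rw [k3_rowc]
  have s2 : ∑ k, (θ₂ k + r)⁻¹ * qf V₂ (fun j => t j ^ 2 / (t j + r)) (rowc E₂ k) =
      ∑ k, ∑ j, (θ₂ k + r)⁻¹ * (t j ^ 2 / (t j + r) * ‖W₂ j k‖ ^ 2) := by
    refine Finset.sum_congr rfl fun k _ => ?_
    rw [qf, Finset.mul_sum]
    refine Finset.sum_congr rfl fun j _ => ?_
    rw [k3_rowc]
  rw [s1, s2]
  have l1' : (trace (N₁ᴴ * M₁)).re =
      ∑ k, ∑ j, (θ₁ k + r)⁻¹ * (t j ^ 2 / (t j + r) * ‖W₁ j k‖ ^ 2) := l1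
  have l2' : (trace (N₂'ᴴ * M₂')).re =
      ∑ k, ∑ j, (θ₂ k + r)⁻¹ * (t j ^ 2 / (t j + r) * ‖W₂ j k‖ ^ 2) := l2
  have p1' : ∑ i, ∑ j, (t i + r) * (t j + r) * ‖N₁ i j‖ ^ 2 ≤
      ∑ k, ∑ j, (θ₁ k + r)⁻¹ * (t j ^ 2 / (t j + r) * ‖W₁ j k‖ ^ 2) := p1
  have p2' : ∑ i, ∑ j, (t i + r) * (t j + r) * ‖N₂' i j‖ ^ 2 ≤
      ∑ k, ∑ j, (θ₂ k + r)⁻¹ * (t j ^ 2 / (t j + r) * ‖W₂ j k‖ ^ 2) := p2
  linarith

end Pool.Agent.LibSchP
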