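import Pool.Agent.LibSchP.K2b
import Pool.Agent.LibSchP.K3

/-! **K4.**  The key inequality. -/

open MeasureTheory Set Matrix

namespace Pool.Agent.LibSchP

variable {κ n₁ n₂ : Type} [Fintype κ] [Fintype n₁] [Fintype n₂] [DecidableEq κ] [DecidableEq n₁]
  [DecidableEq n₂]

theorem k4_sum {α β : Type} [Fintype α] [Fintype β] (s : ℝ) (h0 : 0 < s) (h1 : s < 1)
    (c : α → β → ℝ) (x : α → ℝ) (y : β → ℝ) (hx : ∀ a, 0 < x a) (hy : ∀ b, 0 < y b) :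
    IntegrableOn (fun r : ℝ => ∑ a, ∑ b, c a b * (r ^ s / ((x a + r) * (y b + r)))) (Ioi 0) ∧
      ∫ r in Ioi (0 : ℝ), ∑ a, ∑ b, c a b * (r ^ s / ((x a + r) * (y b + r))) =
        ∑ a, ∑ b, c a b * (cst s * dd s (x a) (y b)) := by
  have hi : ∀ a b, IntegrableOn (fun r : ℝ => c a b * (r ^ s / ((x a + r) * (y b + r))))
      (Ioi 0) := fun a b => ((int_dd s (x a) (y b) h0 h1 (hx a) (hy b)).1).const_mul _
  have hi2 : ∀ a, IntegrableOn (fun r : ℝ => ∑ b, c a b * (r ^ s / ((x a + r) * (y b + r))))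
      (Ioi 0) := fun a => integrable_finsetSum _ (fun b _ => hi a b)
  refine ⟨integrable_finsetSum _ (fun a _ => hi2 a), ?_⟩
  rw [integral_finsetSum _ (fun a _ => hi2 a)]
  refine Finset.sum_congr rfl (fun a _ => ?_)
  rw [integral_finsetSum _ (fun b _ => hi a b)]
  refine Finset.sum_congr rfl (fun b _ => ?_)
  rw [integral_const_mul, (int_dd s (x a) (y b) h0 h1 (hx a) (hy b)).2]

omit [DecidableEq κ] in
theorem k4_lhs {n : Type} [Fintype n] (t : κ → ℝ) (θ : n → ℝ) (V : Matrix κ n ℂ)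
    (E : Matrix n n ℂ) (s r : ℝ) :
    r ^ s * ∑ k, (θ k + r)⁻¹ * qf V (fun j => t j ^ 2 / (t j + r)) (rowc E k) =
      ∑ k, ∑ j, (t j ^ 2 * ‖(V *ᵥ rowc E k) j‖ ^ 2) * (r ^ s / ((θ k + r) * (t j + r))) := by
  unfold qf
  rw [Finset.mul_sum]
  refine Finset.sum_congr rfl (fun k _ => ?_)
  rw [Finset.mul_sum, Finset.mul_sum]
  refine Finset.sum_congr rfl (fun j _ => ?_)
  simp only [div_eq_mul_inv, mul_inv]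
  ring

theorem k4_block {n : Type} [Fintype n] [DecidableEq n] (p : ℝ) (h1 : 1 < p) (h2 : p < 2)
    (t : κ → ℝ) (θ : n → ℝ) (V : Matrix κ n ℂ) (hb : Blk p t θ V) (Δ : Matrix n n ℂ) :
    cst (p - 1) * SS p θ Δ ≤
      ∑ k, ∑ j, (t j ^ 2 * ‖(V *ᵥ rowc (Δ * dg fun k => (θ k)⁻¹) k) j‖ ^ 2) *
        (cst (p - 1) * dd (p - 1) (θ k) (t j)) := by
  have hc : 0 < cst (p - 1) := cst_pos _ (by linarith) (by linarith)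
  unfold SS
  rw [Finset.mul_sum]
  refine Finset.sum_le_sum (fun k _ => ?_)
  have hz := blk_zeta p h1 h2 t θ V hb (θ k) (hb.hθ k) (rowc (Δ * dg fun k => (θ k)⁻¹) k)
  have e1 : ∑ l, dd (p - 1) (θ k) (θ l) * ‖Δ k l‖ ^ 2 =
      ∑ l, θ l ^ 2 * dd (p - 1) (θ k) (θ l) *
        ‖rowc (Δ * dg fun k => (θ k)⁻¹) k l‖ ^ 2 := by
    refine Finset.sum_congr rfl (fun l _ => ?_)
    have hθl := hb.hθ l
    have e2 : ‖rowc (Δ * dg fun k => (θ k)⁻¹) k l‖ = ‖Δ k l‖ * (θ l)⁻¹ := by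
      unfold rowc dg
      rw [norm_star, mul_diagonal, norm_mul, Complex.norm_real, Real.norm_eq_abs,
        abs_of_pos (inv_pos.2 hθl)]
    rw [e2, mul_pow, inv_pow]
    field_simp
  have e3 : ∑ j, (t j ^ 2 * ‖(V *ᵥ rowc (Δ * dg fun k => (θ k)⁻¹) k) j‖ ^ 2) *
        (cst (p - 1) * dd (p - 1) (θ k) (t j)) =
      cst (p - 1) * qf V (fun j => t j ^ 2 * dd (p - 1) (θ k) (t j))
        (rowc (Δ * dg fun k => (θ k)⁻¹) k) := by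
    unfold qf
    rw [Finset.mul_sum]
    exact Finset.sum_congr rfl (fun j _ => by ring)
  rw [e1, e3]
  exact mul_le_mul_of_nonneg_left hz hc.le

/-- `per_r` with `E_i = Δ_i θ_i⁻¹`, multiplied by `r^(p-1)` and integrated (`int_dd`, `s = p-1`):
`SS p t M ≥ ∑_i ∑_k qf V_i (t² dd (p-1) θ_i(k) t) (rowc E_i k)`, then `blk_zeta` with `c = θ_i(k)`:
`≥ ∑_i ∑_k ∑_l θ_l² dd (p-1) θ_k θ_l |E_kl|² = ∑_i SS p θ_i Δ_i`. -/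
theorem key (p : ℝ) (h1 : 1 < p) (h2 : p < 2) (t : κ → ℝ) (θ₁ : n₁ → ℝ) (θ₂ : n₂ → ℝ)
    (V₁ : Matrix κ n₁ ℂ) (V₂ : Matrix κ n₂ ℂ) (hb₁ : Blk p t θ₁ V₁) (hb₂ : Blk p t θ₂ V₂)
    (h12 : V₁ᴴ * dg t * V₂ = 0) (Δ₁ : Matrix n₁ n₁ ℂ) (Δ₂ : Matrix n₂ n₂ ℂ) :
    SS p θ₁ Δ₁ + SS p θ₂ Δ₂ ≤ SS p t (MM t θ₁ θ₂ V₁ V₂ Δ₁ Δ₂) := by
  have hs0 : 0 < p - 1 := by linarith
  have hs1 : p - 1 < 1 := by linarith
  have hc : 0 < cst (p - 1) := cst_pos _ hs0 hs1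
  have hE2 : (Δ₂ * dg fun k => (θ₂ k)⁻¹)ᴴ = (dg fun k => (θ₂ k)⁻¹) * Δ₂ᴴ := by
    rw [conjTranspose_mul, dg_conjTranspose]
  have hMM : MM t θ₁ θ₂ V₁ V₂ Δ₁ Δ₂ = V₁ * (Δ₁ * dg fun k => (θ₁ k)⁻¹) * V₁ᴴ * dg t +
      dg t * V₂ * (Δ₂ * dg fun k => (θ₂ k)⁻¹)ᴴ * V₂ᴴ := by
    rw [hE2]
    rfl
  have hper := per_r t θ₁ θ₂ V₁ V₂ hb₁.ht hb₁.hθ hb₂.hθ hb₁.hV hb₂.hV h12
    (fun ξ => blk_one p h1 h2 t θ₁ V₁ hb₁ ξ) (fun ξ => blk_one p h1 h2 t θ₂ V₂ hb₂ ξ)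
    (Δ₁ * dg fun k => (θ₁ k)⁻¹) (Δ₂ * dg fun k => (θ₂ k)⁻¹)
  rw [← hMM] at hper
  generalize MM t θ₁ θ₂ V₁ V₂ Δ₁ Δ₂ = M at hper ⊢
  have i1 := k4_sum (p - 1) hs0 hs1
    (fun k j => t j ^ 2 * ‖(V₁ *ᵥ rowc (Δ₁ * dg fun k => (θ₁ k)⁻¹) k) j‖ ^ 2) θ₁ t hb₁.hθ hb₁.ht
  have i2 := k4_sum (p - 1) hs0 hs1
    (fun k j => t j ^ 2 * ‖(V₂ *ᵥ rowc (Δ₂ * dg fun k => (θ₂ k)⁻¹) k) j‖ ^ 2) θ₂ t hb₂.hθ hb₁.ht
  have i3 := k4_sum (p - 1) hs0 hs1 (fun j l => ‖M j l‖ ^ 2) t t hb₁.ht hb₁.ht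
  have hmono : ∫ r in Ioi (0 : ℝ),
      ((∑ k, ∑ j, (t j ^ 2 * ‖(V₁ *ᵥ rowc (Δ₁ * dg fun k => (θ₁ k)⁻¹) k) j‖ ^ 2) *
          (r ^ (p - 1) / ((θ₁ k + r) * (t j + r)))) +
        ∑ k, ∑ j, (t j ^ 2 * ‖(V₂ *ᵥ rowc (Δ₂ * dg fun k => (θ₂ k)⁻¹) k) j‖ ^ 2) *
          (r ^ (p - 1) / ((θ₂ k + r) * (t j + r)))) ≤
      ∫ r in Ioi (0 : ℝ), ∑ j, ∑ l, ‖M j l‖ ^ 2 * (r ^ (p - 1) / ((t j + r) * (t l + r))) := by
    refine setIntegral_mono_on (i1.1.add i2.1) i3.1 measurableSet_Ioi (fun r hr => ?_)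
    have hr0 : (0 : ℝ) < r := hr
    have hrs : (0 : ℝ) ≤ r ^ (p - 1) := Real.rpow_nonneg hr0.le _
    have h3 := mul_le_mul_of_nonneg_left (hper r hr0) hrs
    rw [mul_add, k4_lhs, k4_lhs] at h3
    refine le_trans h3 (le_of_eq ?_)
    rw [Finset.mul_sum]
    refine Finset.sum_congr rfl (fun j _ => ?_)
    rw [Finset.mul_sum]
    refine Finset.sum_congr rfl (fun l _ => ?_)
    rw [div_eq_mul_inv, div_eq_mul_inv]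
    ring
  rw [integral_add i1.1 i2.1, i1.2, i2.2, i3.2] at hmono
  have b1 := k4_block p h1 h2 t θ₁ V₁ hb₁ Δ₁
  have b2 := k4_block p h1 h2 t θ₂ V₂ hb₂ Δ₂
  have hR : ∑ j, ∑ l, ‖M j l‖ ^ 2 * (cst (p - 1) * dd (p - 1) (t j) (t l)) =
      cst (p - 1) * SS p t M := by
    unfold SS
    rw [Finset.mul_sum]
    refine Finset.sum_congr rfl (fun j _ => ?_)
    rw [Finset.mul_sum]
    exact Finset.sum_congr rfl (fun l _ => by ring)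
  rw [hR] at hmono
  have hfin : cst (p - 1) * (SS p θ₁ Δ₁ + SS p θ₂ Δ₂) ≤ cst (p - 1) * SS p t M := by
    rw [mul_add]
    exact le_trans (add_le_add b1 b2) hmono
  exact le_of_mul_le_mul_left hfin hc

end Pool.Agent.LibSchP
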