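import Pool.Agent.LibSchP.E3
import Pool.Agent.LibSchP.K4
import Pool.Agent.LibSchP.E4a

/-! **E4b.**  The local theorem. -/

open Matrix
open scoped ComplexOrder

namespace Pool.Agent.LibSchP

variable {κ n n₁ n₂ : Type} [Fintype κ] [Fintype n] [Fintype n₁] [Fintype n₂] [DecidableEq κ]
  [DecidableEq n] [DecidableEq n₁] [DecidableEq n₂]

theorem e4b_dg_herm (a : n → ℝ) : (dg a).IsHermitian := by
  unfold dg Matrix.IsHermitian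
  rw [diagonal_conjTranspose]
  congr 1
  funext k
  simp

/-- expansion of one block from above -/
theorem e4b_block (p : ℝ) (h1 : 1 < p) (h2 : p < 2) (θ : n → ℝ) (hθ : ∀ k, 0 < θ k) :
    ∃ C η : ℝ, 0 ≤ C ∧ 0 < η ∧ ∀ Θ : Matrix n n ℂ, Θ.IsHermitian → nf (Θ - dg θ) ≤ η →
      LibSch.pw p Θ - ∑ k, θ k ^ p ≤ p * ∑ k, θ k ^ (p - 1) * ((Θ - dg θ) k k).re +
        p / 2 * SS p θ (Θ - dg θ) + C * nf (Θ - dg θ) ^ 3 := by
  obtain ⟨C, η, hC, hη, h⟩ := expand_pw p h1 h2 θ hθ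
  refine ⟨C, η, hC, hη, ?_⟩
  intro Θ hΘ hs
  have h3 := h (Θ - dg θ) hs
  rw [add_sub_cancel, BB_herm p h1 h2 θ hθ _ (hΘ.sub (e4b_dg_herm θ))] at h3
  have h4 := (abs_le.1 h3).2
  linarith

/-- **The local theorem.**  Lower bound: `expand_pw`, `BB_ge`, `key`, `first_order`; upper bound for
`pw p Θ_i`: `expand_pw` and `BB_herm`. -/
theorem loc (p : ℝ) (h1 : 1 < p) (h2 : p < 2) (t : κ → ℝ) (θ₁ : n₁ → ℝ) (θ₂ : n₂ → ℝ)
    (V₁ : Matrix κ n₁ ℂ) (V₂ : Matrix κ n₂ ℂ) (hb₁ : Blk p t θ₁ V₁) (hb₂ : Blk p t θ₂ V₂)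
    (h12 : V₁ᴴ * dg t * V₂ = 0) :
    ∃ C η : ℝ, 0 ≤ C ∧ 0 < η ∧ ∀ (Θ₁ : Matrix n₁ n₁ ℂ) (Θ₂ : Matrix n₂ n₂ ℂ),
      Θ₁.IsHermitian → Θ₂.IsHermitian → nf (Θ₁ - dg θ₁) ≤ η → nf (Θ₂ - dg θ₂) ≤ η →
      ∑ j, t j ^ p + (LibSch.pw p Θ₁ - ∑ k, θ₁ k ^ p) + (LibSch.pw p Θ₂ - ∑ k, θ₂ k ^ p) -
          C * (nf (Θ₁ - dg θ₁) + nf (Θ₂ - dg θ₂)) ^ 3 ≤
        LibSch.pw p (dg t + MM t θ₁ θ₂ V₁ V₂ (Θ₁ - dg θ₁) (Θ₂ - dg θ₂)) ∧
      |LibSch.pw p (dg t + MM t θ₁ θ₂ V₁ V₂ (Θ₁ - dg θ₁) (Θ₂ - dg θ₂)) - ∑ j, t j ^ p| ≤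
        C * (nf (Θ₁ - dg θ₁) + nf (Θ₂ - dg θ₂)) := by
  have ht := hb₁.ht
  obtain ⟨C0, η0, hC0, hη0, hE0⟩ := expand_pw p h1 h2 t ht
  obtain ⟨C1, η1, hC1, hη1, hE1⟩ := e4b_block p h1 h2 θ₁ hb₁.hθ
  obtain ⟨C2, η2, hC2, hη2, hE2⟩ := e4b_block p h1 h2 θ₂ hb₂.hθ
  obtain ⟨CB, hCB, hB⟩ := BB_le (κ := κ) p t
  obtain ⟨Cm, hCm, hM⟩ := MM_le t θ₁ θ₂ V₁ V₂
  set T : ℝ := ∑ j, t j ^ (p - 1) with hT
  have hT0 : 0 ≤ T := Finset.sum_nonneg fun j _ => Real.rpow_nonneg (ht j).le _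
  have hp0 : 0 < p := by linarith
  set C : ℝ := C1 + C2 + C0 * Cm ^ 3 + (p * T + p / 2 * CB + C0) * Cm with hCdef
  have hCa : 0 ≤ (p * T + p / 2 * CB + C0) * Cm := by positivity
  have hCb : 0 ≤ C1 + C2 + C0 * Cm ^ 3 := by positivity
  have hη3 : 0 < min η0 1 / (2 * (Cm + 1)) := by
    have : 0 < min η0 1 := lt_min hη0 one_pos
    positivity
  refine ⟨C, min (min η1 η2) (min η0 1 / (2 * (Cm + 1))), by linarith,
    lt_min (lt_min hη1 hη2) hη3, ?_⟩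
  intro Θ₁ Θ₂ hΘ₁ hΘ₂ hs1 hs2
  set Δ₁ := Θ₁ - dg θ₁ with hΔ₁
  set Δ₂ := Θ₂ - dg θ₂ with hΔ₂
  set M := MM t θ₁ θ₂ V₁ V₂ Δ₁ Δ₂ with hMdef
  set δ := nf Δ₁ + nf Δ₂ with hδ
  have hn1 : 0 ≤ nf Δ₁ := nf_nonneg _
  have hn2 : 0 ≤ nf Δ₂ := nf_nonneg _
  have hδ0 : 0 ≤ δ := add_nonneg hn1 hn2
  have hnM : 0 ≤ nf M := nf_nonneg _
  have hMle : nf M ≤ Cm * δ := hM Δ₁ Δ₂
  have hδle : δ ≤ 2 * (min η0 1 / (2 * (Cm + 1))) := by
    have e1 := hs1.trans (min_le_right _ _)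
    have e2 := hs2.trans (min_le_right _ _)
    linarith
  have hMmin : nf M ≤ min η0 1 := by
    have e0 : 0 ≤ min η0 1 := (lt_min hη0 one_pos).le
    have e1 : 2 * (min η0 1 / (2 * (Cm + 1))) = min η0 1 / (Cm + 1) := by
      field_simp
    rw [e1] at hδle
    have e2 : Cm * δ ≤ (Cm + 1) * (min η0 1 / (Cm + 1)) := by
      refine mul_le_mul (by linarith) hδle hδ0 (by linarith)
    have e3 : (Cm + 1) * (min η0 1 / (Cm + 1)) = min η0 1 := by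
      field_simp
    linarith
  have hM0 : nf M ≤ η0 := hMmin.trans (min_le_left _ _)
  have hM1 : nf M ≤ 1 := hMmin.trans (min_le_right _ _)
  have hexp := hE0 M hM0
  have hM3 : nf M ^ 3 ≤ Cm ^ 3 * δ ^ 3 := by
    rw [← mul_pow]
    exact pow_le_pow_left₀ hnM hMle 3
  constructor
  · have hb := hE1 Θ₁ hΘ₁ (hs1.trans ((min_le_left _ _).trans (min_le_left _ _)))
    have hc := hE2 Θ₂ hΘ₂ (hs2.trans ((min_le_left _ _).trans (min_le_right _ _)))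
    rw [← hΔ₁] at hb
    rw [← hΔ₂] at hc
    have hkey := key p h1 h2 t θ₁ θ₂ V₁ V₂ hb₁ hb₂ h12 Δ₁ Δ₂
    rw [← hMdef] at hkey
    have hge := BB_ge p h1 h2 t ht M
    have hfo := first_order p t θ₁ θ₂ V₁ V₂ hb₁ hb₂ Δ₁ Δ₂
    rw [← hMdef] at hfo
    have hl := (abs_le.1 hexp).1
    have d1 : nf Δ₁ ^ 3 ≤ δ ^ 3 := pow_le_pow_left₀ hn1 (by linarith) 3
    have d2 : nf Δ₂ ^ 3 ≤ δ ^ 3 := pow_le_pow_left₀ hn2 (by linarith) 3
    have d1' := mul_le_mul_of_nonneg_left d1 hC1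
    have d2' := mul_le_mul_of_nonneg_left d2 hC2
    have d3' := mul_le_mul_of_nonneg_left hM3 hC0
    have hδ3 : 0 ≤ δ ^ 3 := by positivity
    have d4 : 0 ≤ ((p * T + p / 2 * CB + C0) * Cm) * δ ^ 3 := mul_nonneg hCa hδ3
    have hp2 : p / 2 * (SS p θ₁ Δ₁ + SS p θ₂ Δ₂) ≤ p / 2 * BB p t M :=
      mul_le_mul_of_nonneg_left (hkey.trans hge) (by positivity)
    rw [hfo] at hl
    have hCexp : C * δ ^ 3 = C1 * δ ^ 3 + C2 * δ ^ 3 + C0 * (Cm ^ 3 * δ ^ 3) +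
        ((p * T + p / 2 * CB + C0) * Cm) * δ ^ 3 := by
      rw [hCdef]; ring
    rw [hCexp]
    linarith
  · have hre : |∑ j, t j ^ (p - 1) * (M j j).re| ≤ T * nf M := by
      refine (Finset.abs_sum_le_sum_abs _ _).trans ?_
      rw [hT, Finset.sum_mul]
      refine Finset.sum_le_sum fun j _ => ?_
      rw [abs_mul, abs_of_nonneg (Real.rpow_nonneg (ht j).le _)]
      exact mul_le_mul_of_nonneg_left ((Complex.abs_re_le_norm _).trans (norm_le_nf M j j))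
        (Real.rpow_nonneg (ht j).le _)
    have hBM := hB M
    have hsq : nf M ^ 2 ≤ nf M := by nlinarith
    have hcu : nf M ^ 3 ≤ nf M := by
      have : nf M ^ 3 = nf M ^ 2 * nf M := by ring
      rw [this]
      nlinarith
    have hBM' : |BB p t M| ≤ CB * nf M := hBM.trans (mul_le_mul_of_nonneg_left hsq hCB)
    have hcu' : C0 * nf M ^ 3 ≤ C0 * nf M := mul_le_mul_of_nonneg_left hcu hC0
    have e1 := abs_le.1 hre
    have e2 := abs_le.1 hBM'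
    have e3 := abs_le.1 hexp
    have f1 : p * |∑ j, t j ^ (p - 1) * (M j j).re| ≤ p * (T * nf M) :=
      mul_le_mul_of_nonneg_left hre hp0.le
    have f2 : p / 2 * |BB p t M| ≤ p / 2 * (CB * nf M) :=
      mul_le_mul_of_nonneg_left hBM' (by positivity)
    have g1 : |p * ∑ j, t j ^ (p - 1) * (M j j).re| ≤ p * (T * nf M) := by
      rw [abs_mul, abs_of_pos hp0]; exact f1
    have g2 : |p / 2 * BB p t M| ≤ p / 2 * (CB * nf M) := by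
      rw [abs_mul, abs_of_pos (by positivity : (0:ℝ) < p / 2)]; exact f2
    have g1' := abs_le.1 g1
    have g2' := abs_le.1 g2
    have hfin : (p * T + p / 2 * CB + C0) * nf M ≤ (p * T + p / 2 * CB + C0) * (Cm * δ) :=
      mul_le_mul_of_nonneg_left hMle (by positivity)
    have hCδ : (p * T + p / 2 * CB + C0) * (Cm * δ) ≤ C * δ := by
      rw [hCdef]
      have : 0 ≤ (C1 + C2 + C0 * Cm ^ 3) * δ := mul_nonneg hCb hδ0
      linarith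
    rw [abs_le]
    constructor <;> linarith [g1'.1, g1'.2, g2'.1, g2'.2, e3.1, e3.2]

end Pool.Agent.LibSchP
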