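import Pool.Agent.LibSchP.A3
import Pool.Agent.LibSchTri.S13

/-! **G1.**  Base point data: singular value decomposition of `T₀ = [A₀ B; 0 D₀]`. -/

open Matrix
open scoped ComplexOrder

namespace Pool.Agent.LibSchP

variable {κ n : Type} [Fintype κ] [Fintype n] [DecidableEq κ] [DecidableEq n]

/-- the two embeddings -/
def P₁ : Matrix (n ⊕ n) n ℂ := fromRows 1 0

def P₂ : Matrix (n ⊕ n) n ℂ := fromRows 0 1

/-- `svd_sq` and `det ≠ 0` -/
theorem svd_pos (T : Matrix κ κ ℂ) (hT : IsUnit T.det) : ∃ (U W : Matrix κ κ ℂ) (t : κ → ℝ),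
    U ∈ unitaryGroup κ ℂ ∧ W ∈ unitaryGroup κ ℂ ∧ (∀ j, 0 < t j) ∧ T = U * dg t * Wᴴ := by
  obtain ⟨U, V, b, hb, h⟩ := LibSchTri.svd_sq T
  have hU1 : star (U : Matrix κ κ ℂ) * U = 1 := mem_unitaryGroup_iff'.1 U.2
  have hV2 : (V : Matrix κ κ ℂ) * star (V : Matrix κ κ ℂ) = 1 := mem_unitaryGroup_iff.1 V.2
  have hT2 : T = star (U : Matrix κ κ ℂ) * dg b * (V : Matrix κ κ ℂ)ᴴ := by
    have h1 : dg b = (U : Matrix κ κ ℂ) * T * (V : Matrix κ κ ℂ) := h.symm
    rw [h1, ← star_eq_conjTranspose]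
    calc T = (star (U : Matrix κ κ ℂ) * U) * T * ((V : Matrix κ κ ℂ) * star (V : Matrix κ κ ℂ)) := by
          rw [hU1, hV2, Matrix.one_mul, Matrix.mul_one]
      _ = _ := by simp only [Matrix.mul_assoc]
  have hdet : (dg b).det ≠ 0 := by
    intro h0
    rw [hT2, det_mul, det_mul, h0, mul_zero, zero_mul] at hT
    exact not_isUnit_zero hT
  have hprod : (∏ k, (b k : ℂ)) ≠ 0 := by
    have h1 : (dg b).det = ∏ k, (b k : ℂ) := by
      unfold dg
      rw [det_diagonal]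
    rwa [h1] at hdet
  refine ⟨star (U : Matrix κ κ ℂ), V, b, ?_, V.2, ?_, hT2⟩
  · exact (star U).2
  · intro j
    have h1 := Finset.prod_ne_zero_iff.1 hprod j (Finset.mem_univ j)
    have h2 : b j ≠ 0 := by
      intro h0
      apply h1
      rw [h0, Complex.ofReal_zero]
    exact lt_of_le_of_ne (hb j) (Ne.symm h2)

theorem tri_det (A B D : Matrix n n ℂ) (hA : A.PosDef) (hD : D.PosDef) :
    IsUnit (fromBlocks A B 0 D).det := by
  rw [det_fromBlocks_zero₂₁]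
  exact (isUnit_iff_ne_zero.2 (mul_ne_zero hA.det_pos.ne' hD.det_pos.ne'))

/-- for an isometry `V` and `t > 0`: the positive definite matrix `Vᴴ t^p V` is `ud O (θ^p)`;
then `V O` satisfies `Blk`. -/
theorem blk_exists (p : ℝ) (hp : 0 < p) (t : κ → ℝ) (ht : ∀ j, 0 < t j) (V : Matrix κ n ℂ)
    (hV : Vᴴ * V = 1) : ∃ (O : Matrix n n ℂ) (θ : n → ℝ), O ∈ unitaryGroup n ℂ ∧
      Blk p t θ (V * O) := by
  have hdg : (dg fun j => t j ^ p).PosDef := by
    rw [← ud_one_fun]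
    exact ud_posDef 1 (one_mem _) _ (fun k => Real.rpow_pos_of_pos (ht k) _)
  have hinj : Function.Injective V.mulVec := by
    intro x y hxy
    have h1 := congrArg (fun z => Vᴴ *ᵥ z) hxy
    simpa only [mulVec_mulVec, hV, one_mulVec] using h1
  have hH : (Vᴴ * (dg fun j => t j ^ p) * V).PosDef := hdg.conjTranspose_mul_mul_same hinj
  obtain ⟨O, hO, x, hx, hxO⟩ := ud_exists_pos _ hH
  have hOO : Oᴴ * O = 1 := mem_unitaryGroup_iff'.1 hO
  refine ⟨O, fun k => x k ^ (1 / p), hO, ht, fun k => Real.rpow_pos_of_pos (hx k) _, ?_, ?_⟩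
  · rw [conjTranspose_mul]
    calc Oᴴ * Vᴴ * (V * O) = Oᴴ * (Vᴴ * V) * O := by simp only [Matrix.mul_assoc]
      _ = 1 := by rw [hV, Matrix.mul_one, hOO]
  · rw [conjTranspose_mul]
    calc Oᴴ * Vᴴ * (dg fun j => t j ^ p) * (V * O)
        = Oᴴ * (Vᴴ * (dg fun j => t j ^ p) * V) * O := by simp only [Matrix.mul_assoc]
      _ = Oᴴ * (O * dg x * Oᴴ) * O := by rw [hxO]; rfl
      _ = (Oᴴ * O) * dg x * (Oᴴ * O) := by simp only [Matrix.mul_assoc]
      _ = dg x := by rw [hOO, Matrix.one_mul, Matrix.mul_one]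
      _ = dg fun k => (x k ^ (1 / p)) ^ p := by
          congr 1
          funext k
          rw [← Real.rpow_mul (hx k).le, one_div, inv_mul_cancel₀ hp.ne', Real.rpow_one]

end Pool.Agent.LibSchP
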