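import Pool.Agent.LibSchP.A2

/-! **G2a.**  `pw` of a triangular block matrix. -/

open Matrix
open scoped ComplexOrder

namespace Pool.Agent.LibSchP

variable {n : Type} [Fintype n] [DecidableEq n]

/-- `pw` of a triangular block matrix depends only on `AAᴴ`, `B`, `DᴴD`:
first `pw_congr'` (replace `A`: `TTᴴ` contains `A` only through `AAᴴ`), then `pw_congr` (replace
`D`: `TᴴT` contains `D` only through `DᴴD`). -/
theorem pw_tri_congr {a a' m n k k' : Type} [Fintype a] [Fintype a'] [Fintype m] [Fintype n]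
    [Fintype k] [Fintype k'] [DecidableEq a] [DecidableEq a'] [DecidableEq m] [DecidableEq n]
    [DecidableEq k] [DecidableEq k'] (p : ℝ) (hp : 0 < p)
    (A : Matrix m a ℂ) (A' : Matrix m a' ℂ) (B : Matrix m n ℂ) (D : Matrix k n ℂ)
    (D' : Matrix k' n ℂ) (hA : A * Aᴴ = A' * A'ᴴ) (hD : Dᴴ * D = D'ᴴ * D') :
    LibSch.pw p (fromBlocks A B 0 D) = LibSch.pw p (fromBlocks A' B 0 D') := by
  have h1 : LibSch.pw p (fromBlocks A B 0 D) = LibSch.pw p (fromBlocks A' B 0 D) := by
    apply pw_congr' p hp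
    rw [fromBlocks_conjTranspose, fromBlocks_conjTranspose, fromBlocks_multiply,
      fromBlocks_multiply]
    simp [hA]
  have h2 : LibSch.pw p (fromBlocks A' B 0 D) = LibSch.pw p (fromBlocks A' B 0 D') := by
    apply pw_congr p
    rw [fromBlocks_conjTranspose, fromBlocks_conjTranspose, fromBlocks_multiply,
      fromBlocks_multiply]
    simp [hD]
  rw [h1, h2]

end Pool.Agent.LibSchP
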