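import Pool.Agent.LibSchP.G1
import Pool.Agent.LibSchP.G2a

/-! **G2b.**  The gauge. -/

open Matrix
open scoped ComplexOrder

namespace Pool.Agent.LibSchP

variable {n : Type} [Fintype n] [DecidableEq n]

theorem g2b_T₀P₁ (A B D : Matrix n n ℂ) : fromBlocks A B 0 D * (P₁ : Matrix (n ⊕ n) n ℂ) =
    (P₁ : Matrix (n ⊕ n) n ℂ) * A := by
  unfold P₁
  rw [fromBlocks_mul_fromRows, fromRows_mul]
  simp

theorem g2b_P₂T₀ (A B D : Matrix n n ℂ) : (P₂ : Matrix (n ⊕ n) n ℂ)ᴴ * fromBlocks A B 0 D =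
    D * (P₂ : Matrix (n ⊕ n) n ℂ)ᴴ := by
  unfold P₂
  rw [conjTranspose_fromRows_eq_fromCols_conjTranspose, fromCols_mul_fromBlocks, mul_fromCols]
  simp

theorem g2b_P₁P₁ : (P₁ : Matrix (n ⊕ n) n ℂ)ᴴ * (P₁ : Matrix (n ⊕ n) n ℂ) = 1 := by
  unfold P₁
  rw [conjTranspose_fromRows_eq_fromCols_conjTranspose, fromCols_mul_fromRows]
  simp

theorem g2b_P₂P₂ : (P₂ : Matrix (n ⊕ n) n ℂ)ᴴ * (P₂ : Matrix (n ⊕ n) n ℂ) = 1 := by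
  unfold P₂
  rw [conjTranspose_fromRows_eq_fromCols_conjTranspose, fromCols_mul_fromRows]
  simp

theorem g2b_P₂P₁ : (P₂ : Matrix (n ⊕ n) n ℂ)ᴴ * (P₁ : Matrix (n ⊕ n) n ℂ) = 0 := by
  unfold P₂ P₁
  rw [conjTranspose_fromRows_eq_fromCols_conjTranspose, fromCols_mul_fromRows]
  simp

theorem g2b_d1 (X : Matrix n n ℂ) : (fromRows 1 0 : Matrix (n ⊕ n) n ℂ) * X *
    (fromCols 1 0 : Matrix n (n ⊕ n) ℂ) = fromBlocks X 0 0 0 := by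
  rw [fromRows_mul, fromRows_mul_fromCols]
  simp

theorem g2b_d2 (X : Matrix n n ℂ) : (fromRows 0 1 : Matrix (n ⊕ n) n ℂ) * X *
    (fromCols 0 1 : Matrix n (n ⊕ n) ℂ) = fromBlocks 0 0 0 X := by
  rw [fromRows_mul, fromRows_mul_fromCols]
  simp

theorem g2b_decomp (A A₀ B D D₀ : Matrix n n ℂ) :
    fromBlocks A B 0 D = fromBlocks A₀ B 0 D₀ +
      (P₁ : Matrix (n ⊕ n) n ℂ) * (A - A₀) * (P₁ : Matrix (n ⊕ n) n ℂ)ᴴ +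
      (P₂ : Matrix (n ⊕ n) n ℂ) * (D - D₀) * (P₂ : Matrix (n ⊕ n) n ℂ)ᴴ := by
  unfold P₂ P₁
  rw [conjTranspose_fromRows_eq_fromCols_conjTranspose,
    conjTranspose_fromRows_eq_fromCols_conjTranspose, conjTranspose_one, conjTranspose_zero,
    g2b_d1, g2b_d2, fromBlocks_add, fromBlocks_add]
  simp

theorem g2b_KL (θ : n → ℝ) (hθ : ∀ k, 0 < θ k) (O D₀ : Matrix n n ℂ) (hO : O ∈ unitaryGroup n ℂ)
    (hD : IsUnit D₀.det) :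
    (D₀⁻¹ * O * dg θ) * ((dg fun k => (θ k)⁻¹) * Oᴴ * D₀) = 1 := by
  have hO' : O * Oᴴ = 1 := by
    rw [mem_unitaryGroup_iff] at hO
    exact hO
  calc (D₀⁻¹ * O * dg θ) * ((dg fun k => (θ k)⁻¹) * Oᴴ * D₀)
      = D₀⁻¹ * O * (dg θ * (dg fun k => (θ k)⁻¹)) * Oᴴ * D₀ := by
        simp only [Matrix.mul_assoc]
    _ = D₀⁻¹ * (O * Oᴴ) * D₀ := by
        rw [dg_mul_inv θ hθ]
        simp only [Matrix.mul_assoc, Matrix.one_mul]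
    _ = 1 := by
        rw [hO', Matrix.mul_one, nonsing_inv_mul _ hD]

theorem g2b_K (θ : n → ℝ) (O D₀ : Matrix n n ℂ) (hO : O ∈ unitaryGroup n ℂ)
    (hD : IsUnit D₀.det) (hH : D₀.IsHermitian) :
    (D₀⁻¹ * O * dg θ)ᴴ * (D₀ * D₀) * (D₀⁻¹ * O * dg θ) = dg fun k => θ k ^ 2 := by
  have hO' : Oᴴ * O = 1 := by
    rw [mem_unitaryGroup_iff'] at hO
    exact hO
  have h1 : (D₀⁻¹)ᴴ = D₀⁻¹ := by rw [conjTranspose_nonsing_inv, hH.eq]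
  rw [conjTranspose_mul, conjTranspose_mul, h1, dg_conjTranspose]
  calc dg θ * (Oᴴ * D₀⁻¹) * (D₀ * D₀) * (D₀⁻¹ * O * dg θ)
      = dg θ * Oᴴ * (D₀⁻¹ * D₀) * (D₀ * D₀⁻¹) * O * dg θ := by
        simp only [Matrix.mul_assoc]
    _ = dg θ * (Oᴴ * O) * dg θ := by
        rw [nonsing_inv_mul _ hD, mul_nonsing_inv _ hD]
        simp only [Matrix.mul_assoc, Matrix.mul_one]
    _ = dg fun k => θ k ^ 2 := by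
        rw [hO', Matrix.mul_one, dg_mul]
        congr 1
        funext k
        ring

/-- **The gauge.**  `T₀ = fromBlocks A₀ B 0 D₀ = U t Wᴴ` (`svd_pos`), `V₁ = Uᴴ P₂ O_D`,
`V₂ = Wᴴ P₁ O_A` (`blk_exists`), `K₁ = D₀⁻¹ O_D θ₁`, `K₂ = A₀⁻¹ O_A θ₂`.
From `T₀ P₁ = P₁ A₀` and `P₂ᴴ T₀ = D₀ P₂ᴴ`:
`Uᴴ P₁ = t Wᴴ P₁ A₀⁻¹`, `P₂ᴴ W = D₀⁻¹ P₂ᴴ U t`, and `V₁ᴴ t V₂ = O_Dᴴ P₂ᴴ T₀ P₁ O_A = 0`.
For `D' = O_D Θ₁ K₁⁻¹` and `A' = (K₂ᴴ)⁻¹ Θ₂ O_Aᴴ` one has `D'ᴴD' = D*D`, `A'A'ᴴ = A*A`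
(`pw_tri_congr`), and `Uᴴ (fromBlocks A' B 0 D') W = t + Uᴴ P₁ (A'-A₀) P₁ᴴ W + Uᴴ P₂ (D'-D₀) P₂ᴴ W
= t + MM t θ₁ θ₂ V₁ V₂ (Θ₁ - θ₁) (Θ₂ - θ₂)` (`pw_unitary`). -/
theorem gauge (p : ℝ) (h1 : 1 < p) (h2 : p < 2) (A₀ B D₀ : Matrix n n ℂ) (hA : A₀.PosDef)
    (hD : D₀.PosDef) :
    ∃ (t : n ⊕ n → ℝ) (θ₁ θ₂ : n → ℝ) (V₁ V₂ : Matrix (n ⊕ n) n ℂ) (K₁ K₂ : Matrix n n ℂ),
      Blk p t θ₁ V₁ ∧ Blk p t θ₂ V₂ ∧ V₁ᴴ * dg t * V₂ = 0 ∧ IsUnit K₁.det ∧ IsUnit K₂.det ∧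
      K₁ᴴ * (D₀ * D₀) * K₁ = (dg fun k => θ₁ k ^ 2) ∧
      K₂ᴴ * (A₀ * A₀) * K₂ = (dg fun k => θ₂ k ^ 2) ∧
      ∀ A D Θ₁ Θ₂ : Matrix n n ℂ, A.IsHermitian → D.IsHermitian → Θ₁.IsHermitian →
        Θ₂.IsHermitian → Θ₁ * Θ₁ = K₁ᴴ * (D * D) * K₁ → Θ₂ * Θ₂ = K₂ᴴ * (A * A) * K₂ →
        LibSch.pw p (fromBlocks A B 0 D) =
          LibSch.pw p (dg t + MM t θ₁ θ₂ V₁ V₂ (Θ₁ - dg θ₁) (Θ₂ - dg θ₂)) := by
  have hp0 : 0 < p := by linarith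
  obtain ⟨Q₁, hQ₁⟩ : ∃ Q : Matrix (n ⊕ n) n ℂ, Q = P₁ := ⟨_, rfl⟩
  obtain ⟨Q₂, hQ₂⟩ : ∃ Q : Matrix (n ⊕ n) n ℂ, Q = P₂ := ⟨_, rfl⟩
  have qT : ∀ A B D : Matrix n n ℂ, fromBlocks A B 0 D * Q₁ = Q₁ * A := by
    rw [hQ₁]; exact g2b_T₀P₁
  have Tq : ∀ A B D : Matrix n n ℂ, Q₂ᴴ * fromBlocks A B 0 D = D * Q₂ᴴ := by
    rw [hQ₂]; exact g2b_P₂T₀
  have q11 : Q₁ᴴ * Q₁ = 1 := by rw [hQ₁]; exact g2b_P₁P₁
  have q22 : Q₂ᴴ * Q₂ = 1 := by rw [hQ₂]; exact g2b_P₂P₂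
  have q21 : Q₂ᴴ * Q₁ = 0 := by rw [hQ₁, hQ₂]; exact g2b_P₂P₁
  have qd : ∀ A A₀ B D D₀ : Matrix n n ℂ, fromBlocks A B 0 D = fromBlocks A₀ B 0 D₀ +
      Q₁ * (A - A₀) * Q₁ᴴ + Q₂ * (D - D₀) * Q₂ᴴ := by
    rw [hQ₁, hQ₂]; exact g2b_decomp
  obtain ⟨U, W, t, hU, hW, ht, hT⟩ := svd_pos (fromBlocks A₀ B 0 D₀) (tri_det A₀ B D₀ hA hD)
  have hUU : Uᴴ * U = 1 := by
    rw [mem_unitaryGroup_iff'] at hU
    exact hU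
  have hUU' : U * Uᴴ = 1 := by
    rw [mem_unitaryGroup_iff] at hU
    exact hU
  have hWW : Wᴴ * W = 1 := by
    rw [mem_unitaryGroup_iff'] at hW
    exact hW
  have hWW' : W * Wᴴ = 1 := by
    rw [mem_unitaryGroup_iff] at hW
    exact hW
  have hV1 : (Uᴴ * Q₂)ᴴ * (Uᴴ * Q₂) = (1 : Matrix n n ℂ) := by
    rw [conjTranspose_mul, conjTranspose_conjTranspose]
    calc Q₂ᴴ * U * (Uᴴ * Q₂) = Q₂ᴴ * (U * Uᴴ) * Q₂ := by simp only [Matrix.mul_assoc]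
      _ = 1 := by rw [hUU', Matrix.mul_one, q22]
  have hV2 : (Wᴴ * Q₁)ᴴ * (Wᴴ * Q₁) = (1 : Matrix n n ℂ) := by
    rw [conjTranspose_mul, conjTranspose_conjTranspose]
    calc Q₁ᴴ * W * (Wᴴ * Q₁) = Q₁ᴴ * (W * Wᴴ) * Q₁ := by simp only [Matrix.mul_assoc]
      _ = 1 := by rw [hWW', Matrix.mul_one, q11]
  obtain ⟨OD, θ₁, hOD, hB1⟩ := blk_exists p hp0 t ht (Uᴴ * Q₂) hV1
  obtain ⟨OA, θ₂, hOA, hB2⟩ := blk_exists p hp0 t ht (Wᴴ * Q₁) hV2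
  have hODu : ODᴴ * OD = 1 := by
    rw [mem_unitaryGroup_iff'] at hOD
    exact hOD
  have hODu' : OD * ODᴴ = 1 := by
    rw [mem_unitaryGroup_iff] at hOD
    exact hOD
  have hOAu : OAᴴ * OA = 1 := by
    rw [mem_unitaryGroup_iff'] at hOA
    exact hOA
  have hOAu' : OA * OAᴴ = 1 := by
    rw [mem_unitaryGroup_iff] at hOA
    exact hOA
  have hAd : IsUnit A₀.det := (isUnit_iff_isUnit_det _).1 hA.isUnit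
  have hDd : IsUnit D₀.det := (isUnit_iff_isUnit_det _).1 hD.isUnit
  have hAH : A₀.IsHermitian := hA.1
  have hDH : D₀.IsHermitian := hD.1
  -- `Uᴴ T₀ W = dg t`
  have hUTW : Uᴴ * fromBlocks A₀ B 0 D₀ * W = dg t := by
    rw [hT]
    calc Uᴴ * (U * dg t * Wᴴ) * W = (Uᴴ * U) * dg t * (Wᴴ * W) := by
          simp only [Matrix.mul_assoc]
      _ = dg t := by rw [hUU, hWW, Matrix.one_mul, Matrix.mul_one]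
  have hKL1 := g2b_KL θ₁ hB1.hθ OD D₀ hOD hDd
  have hKL2 := g2b_KL θ₂ hB2.hθ OA A₀ hOA hAd
  set K₁ := D₀⁻¹ * OD * dg θ₁ with hK1
  set L₁ := (dg fun k => (θ₁ k)⁻¹) * ODᴴ * D₀ with hL1
  set K₂ := A₀⁻¹ * OA * dg θ₂ with hK2
  set L₂ := (dg fun k => (θ₂ k)⁻¹) * OAᴴ * A₀ with hL2
  have hGK1 : K₁ᴴ * (D₀ * D₀) * K₁ = dg fun k => θ₁ k ^ 2 := g2b_K θ₁ OD D₀ hOD hDd hDH
  have hGK2 : K₂ᴴ * (A₀ * A₀) * K₂ = dg fun k => θ₂ k ^ 2 := g2b_K θ₂ OA A₀ hOA hAd hAH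
  clear_value K₁ L₁ K₂ L₂
  refine ⟨t, θ₁, θ₂, Uᴴ * Q₂ * OD, Wᴴ * Q₁ * OA, K₁, K₂, hB1, hB2, ?_, ?_, ?_,
    hGK1, hGK2, ?_⟩
  · rw [conjTranspose_mul, conjTranspose_mul, conjTranspose_conjTranspose]
    calc ODᴴ * (Q₂ᴴ * U) * dg t * (Wᴴ * Q₁ * OA)
        = ODᴴ * (Q₂ᴴ * (U * dg t * Wᴴ) * Q₁) * OA := by simp only [Matrix.mul_assoc]
      _ = 0 := by
          rw [← hT, Tq, Matrix.mul_assoc D₀, q21, Matrix.mul_zero, Matrix.mul_zero,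
            Matrix.zero_mul]
  · exact (isUnit_iff_isUnit_det _).1 (IsUnit.of_mul_eq_one _ hKL1)
  · exact (isUnit_iff_isUnit_det _).1 (IsUnit.of_mul_eq_one _ hKL2)
  · intro A D Θ₁ Θ₂ hAs hDs h1s h2s hq1 hq2
    have hL1L : L₁ᴴ * K₁ᴴ = 1 := by rw [← conjTranspose_mul, hKL1, conjTranspose_one]
    have hL2L : L₂ᴴ * K₂ᴴ = 1 := by rw [← conjTranspose_mul, hKL2, conjTranspose_one]
    have hA' : A * Aᴴ = (L₂ᴴ * Θ₂ * OAᴴ) * (L₂ᴴ * Θ₂ * OAᴴ)ᴴ := by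
      rw [conjTranspose_mul, conjTranspose_mul, conjTranspose_conjTranspose,
        conjTranspose_conjTranspose, h2s.eq, hAs.eq]
      calc A * A = (L₂ᴴ * K₂ᴴ) * (A * A) * (K₂ * L₂) := by
            rw [hL2L, hKL2, Matrix.one_mul, Matrix.mul_one]
        _ = L₂ᴴ * (K₂ᴴ * (A * A) * K₂) * L₂ := by simp only [Matrix.mul_assoc]
        _ = L₂ᴴ * (Θ₂ * Θ₂) * L₂ := by rw [hq2]
        _ = L₂ᴴ * Θ₂ * (OAᴴ * OA) * (Θ₂ * L₂) := by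
            rw [hOAu, Matrix.mul_one]
            simp only [Matrix.mul_assoc]
        _ = L₂ᴴ * Θ₂ * OAᴴ * (OA * (Θ₂ * L₂)) := by simp only [Matrix.mul_assoc]
    have hD' : Dᴴ * D = (OD * Θ₁ * L₁)ᴴ * (OD * Θ₁ * L₁) := by
      rw [conjTranspose_mul, conjTranspose_mul, h1s.eq, hDs.eq]
      calc D * D = (L₁ᴴ * K₁ᴴ) * (D * D) * (K₁ * L₁) := by
            rw [hL1L, hKL1, Matrix.one_mul, Matrix.mul_one]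
        _ = L₁ᴴ * (K₁ᴴ * (D * D) * K₁) * L₁ := by simp only [Matrix.mul_assoc]
        _ = L₁ᴴ * (Θ₁ * Θ₁) * L₁ := by rw [hq1]
        _ = L₁ᴴ * Θ₁ * (ODᴴ * OD) * (Θ₁ * L₁) := by
            rw [hODu, Matrix.mul_one]
            simp only [Matrix.mul_assoc]
        _ = L₁ᴴ * (Θ₁ * ODᴴ) * (OD * Θ₁ * L₁) := by simp only [Matrix.mul_assoc]
    rw [pw_tri_congr p hp0 A (L₂ᴴ * Θ₂ * OAᴴ) B D (OD * Θ₁ * L₁) hA' hD']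
    have hUs : Uᴴ ∈ unitaryGroup (n ⊕ n) ℂ := by
      rw [mem_unitaryGroup_iff, star_eq_conjTranspose, conjTranspose_conjTranspose]
      exact hUU
    have hpw := LibSch.pw_unitary p (fromBlocks (L₂ᴴ * Θ₂ * OAᴴ) B 0 (OD * Θ₁ * L₁))
      ⟨Uᴴ, hUs⟩ ⟨W, hW⟩
    rw [← hpw]
    congr 1
    change Uᴴ * fromBlocks (L₂ᴴ * Θ₂ * OAᴴ) B 0 (OD * Θ₁ * L₁) * W = _
    rw [qd (L₂ᴴ * Θ₂ * OAᴴ) A₀ B (OD * Θ₁ * L₁) D₀, Matrix.mul_add, Matrix.mul_add,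
      Matrix.add_mul, Matrix.add_mul, hUTW, add_assoc]
    congr 1
    unfold MM
    rw [add_comm]
    congr 1
    · -- the `D` term
      have e1 : OD * Θ₁ * L₁ - D₀ = OD * ((Θ₁ - dg θ₁) * dg fun k => (θ₁ k)⁻¹) * ODᴴ * D₀ := by
        rw [Matrix.sub_mul, dg_mul_inv θ₁ hB1.hθ, Matrix.mul_sub, Matrix.mul_one,
          Matrix.sub_mul, hODu', Matrix.sub_mul, Matrix.one_mul, hL1]
        simp only [Matrix.mul_assoc]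
      have e2 : D₀ * (Q₂ᴴ * W) = Q₂ᴴ * U * dg t := by
        calc D₀ * (Q₂ᴴ * W) = (D₀ * Q₂ᴴ) * W := by simp only [Matrix.mul_assoc]
          _ = Q₂ᴴ * U * dg t * (Wᴴ * W) := by
              rw [← Tq A₀ B D₀, hT]
              simp only [Matrix.mul_assoc]
          _ = Q₂ᴴ * U * dg t := by rw [hWW, Matrix.mul_one]
      rw [e1, conjTranspose_mul, conjTranspose_mul, conjTranspose_conjTranspose]
      calc Uᴴ * (Q₂ * (OD * ((Θ₁ - dg θ₁) * dg fun k => (θ₁ k)⁻¹) * ODᴴ * D₀) * Q₂ᴴ) * W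
          = Uᴴ * Q₂ * OD * ((Θ₁ - dg θ₁) * dg fun k => (θ₁ k)⁻¹) * ODᴴ * (D₀ * (Q₂ᴴ * W)) := by
            simp only [Matrix.mul_assoc]
        _ = Uᴴ * Q₂ * OD * ((Θ₁ - dg θ₁) * dg fun k => (θ₁ k)⁻¹) * (ODᴴ * (Q₂ᴴ * U)) *
              dg t := by
            rw [e2]
            simp only [Matrix.mul_assoc]
    · -- the `A` term
      have e0 : L₂ᴴ = A₀ * OA * dg fun k => (θ₂ k)⁻¹ := by
        rw [hL2, conjTranspose_mul, conjTranspose_mul, conjTranspose_conjTranspose,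
          dg_conjTranspose, hAH.eq]
        simp only [Matrix.mul_assoc]
      have e1 : L₂ᴴ * Θ₂ * OAᴴ - A₀ =
          A₀ * OA * ((dg fun k => (θ₂ k)⁻¹) * (Θ₂ - dg θ₂)ᴴ) * OAᴴ := by
        rw [conjTranspose_sub, h2s.eq, dg_conjTranspose, Matrix.mul_sub, dg_inv_mul θ₂ hB2.hθ,
          Matrix.mul_sub, Matrix.mul_one, Matrix.sub_mul, Matrix.mul_assoc A₀ OA OAᴴ, hOAu',
          Matrix.mul_one, e0]
        simp only [Matrix.mul_assoc]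
      have e2 : Uᴴ * Q₁ * A₀ = dg t * Wᴴ * Q₁ := by
        calc Uᴴ * Q₁ * A₀ = Uᴴ * (Q₁ * A₀) := by simp only [Matrix.mul_assoc]
          _ = (Uᴴ * U) * dg t * Wᴴ * Q₁ := by
              rw [← qT A₀ B D₀, hT]
              simp only [Matrix.mul_assoc]
          _ = dg t * Wᴴ * Q₁ := by rw [hUU, Matrix.one_mul]
      rw [e1, conjTranspose_mul (Wᴴ * Q₁) OA, conjTranspose_mul Wᴴ Q₁,
        conjTranspose_conjTranspose]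
      calc Uᴴ * (Q₁ * (A₀ * OA * ((dg fun k => (θ₂ k)⁻¹) * (Θ₂ - dg θ₂)ᴴ) * OAᴴ) * Q₁ᴴ) * W
          = (Uᴴ * Q₁ * A₀) * OA * ((dg fun k => (θ₂ k)⁻¹) * (Θ₂ - dg θ₂)ᴴ) * OAᴴ * Q₁ᴴ * W := by
            simp only [Matrix.mul_assoc]
        _ = dg t * (Wᴴ * Q₁ * OA) * ((dg fun k => (θ₂ k)⁻¹) * (Θ₂ - dg θ₂)ᴴ) *
              (OAᴴ * (Q₁ᴴ * W)) := by
            rw [e2]
            simp only [Matrix.mul_assoc]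

end Pool.Agent.LibSchP
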