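import Pool.Agent.LibSchP.A4b

/-! **G3.**  The path `Θ(h) = (Kᴴ δ(h)^(2/p) K)^(1/2)`, `δ(h) = δ₀ + h δ₁`. -/

open Matrix
open scoped ComplexOrder

namespace Pool.Agent.LibSchP

variable {n : Type} [Fintype n] [DecidableEq n]

omit [DecidableEq n] in
theorem g3_min (x : n → ℝ) (hx : ∀ k, 0 < x k) : ∃ m₀ : ℝ, 0 < m₀ ∧ ∀ k, m₀ ≤ x k := by
  rcases isEmpty_or_nonempty n with he | he
  · exact ⟨1, one_pos, fun k => (he.false k).elim⟩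
  · obtain ⟨k₀, hk₀⟩ := Finite.exists_min x
    exact ⟨x k₀, hx k₀, hk₀⟩

theorem g3_unit {U : Matrix n n ℂ} (hU : U ∈ unitaryGroup n ℂ) : Uᴴ * U = 1 ∧ U * Uᴴ = 1 := by
  constructor
  · have := hU
    rw [mem_unitaryGroup_iff'] at this
    exact this
  · have := hU
    rw [mem_unitaryGroup_iff] at this
    exact this

/-- positive definiteness is open -/
theorem posDef_near (δ₀ δ₁ : Matrix n n ℂ) (h0 : δ₀.PosDef) (h1 : δ₁.IsHermitian) :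
    ∃ η : ℝ, 0 < η ∧ ∀ h : ℝ, |h| ≤ η → (δ₀ + (h : ℂ) • δ₁).PosDef := by
  obtain ⟨U, hU, x, hx, hδ⟩ := ud_exists_pos δ₀ h0
  obtain ⟨m₀, hm₀, hmx⟩ := g3_min x hx
  obtain ⟨hU1, hU2⟩ := g3_unit hU
  have hUh : Uᴴ ∈ unitaryGroup n ℂ := by
    rw [mem_unitaryGroup_iff, star_eq_conjTranspose, conjTranspose_conjTranspose]
    exact hU1
  have hN : 0 ≤ nf δ₁ := nf_nonneg δ₁
  refine ⟨m₀ / (2 * (nf δ₁ + 1)), by positivity, fun h hh => ?_⟩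
  have hhr : star (h : ℂ) = (h : ℂ) := Complex.conj_ofReal h
  have hherm : (δ₀ + (h : ℂ) • δ₁).IsHermitian := by
    unfold Matrix.IsHermitian
    rw [conjTranspose_add, conjTranspose_smul, h0.1.eq, h1.eq, hhr]
  have hH' : (Uᴴ * (δ₀ + (h : ℂ) • δ₁) * U).IsHermitian := by
    unfold Matrix.IsHermitian
    rw [conjTranspose_mul, conjTranspose_mul, hherm.eq, conjTranspose_conjTranspose,
      Matrix.mul_assoc]
  have hdg : Uᴴ * δ₀ * U = dg x := by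
    rw [hδ]
    unfold ud
    calc Uᴴ * (U * dg x * Uᴴ) * U = (Uᴴ * U) * dg x * (Uᴴ * U) := by
          simp only [Matrix.mul_assoc]
      _ = dg x := by rw [hU1, Matrix.one_mul, Matrix.mul_one]
  have hdiff : Uᴴ * (δ₀ + (h : ℂ) • δ₁) * U - dg x = (h : ℂ) • (Uᴴ * δ₁ * U) := by
    rw [Matrix.mul_add, Matrix.add_mul, hdg, add_sub_cancel_left, Matrix.mul_smul,
      Matrix.smul_mul]
  have hnf : nf (Uᴴ * (δ₀ + (h : ℂ) • δ₁) * U - dg x) = |h| * nf δ₁ := by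
    rw [hdiff, nf_smul, nf_mul_unitary U hU, nf_unitary_mul Uᴴ hUh, Complex.norm_real,
      Real.norm_eq_abs]
  have hsmall : |h| * nf δ₁ ≤ m₀ / 2 := by
    have h2 : |h| * nf δ₁ ≤ m₀ / (2 * (nf δ₁ + 1)) * (nf δ₁ + 1) :=
      mul_le_mul hh (by linarith) hN (by positivity)
    have h3 : m₀ / (2 * (nf δ₁ + 1)) * (nf δ₁ + 1) = m₀ / 2 := by
      have : nf δ₁ + 1 ≠ 0 := by linarith
      field_simp
    rw [h3] at h2
    exact h2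
  have hspec := ud_exists _ hH'
  have hW : (hH'.eigenvectorUnitary : Matrix n n ℂ) ∈ unitaryGroup n ℂ :=
    hH'.eigenvectorUnitary.2
  have hpos : ∀ k, 0 < hH'.eigenvalues k := by
    intro k
    have h2 := ud_ge (hH'.eigenvectorUnitary : Matrix n n ℂ) hW hH'.eigenvalues x m₀ (m₀ / 2)
      hmx (by rw [← hspec, hnf]; exact hsmall) k
    linarith
  have hfin : δ₀ + (h : ℂ) • δ₁ =
      ud (U * (hH'.eigenvectorUnitary : Matrix n n ℂ)) hH'.eigenvalues := by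
    have h2 : δ₀ + (h : ℂ) • δ₁ = U * (Uᴴ * (δ₀ + (h : ℂ) • δ₁) * U) * Uᴴ := by
      calc δ₀ + (h : ℂ) • δ₁ = (U * Uᴴ) * (δ₀ + (h : ℂ) • δ₁) * (U * Uᴴ) := by
            rw [hU2, Matrix.one_mul, Matrix.mul_one]
        _ = U * (Uᴴ * (δ₀ + (h : ℂ) • δ₁) * U) * Uᴴ := by
            simp only [Matrix.mul_assoc]
    have h3 : U * ud (hH'.eigenvectorUnitary : Matrix n n ℂ) hH'.eigenvalues * Uᴴ =
        ud (U * (hH'.eigenvectorUnitary : Matrix n n ℂ)) hH'.eigenvalues := by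
      unfold ud
      rw [conjTranspose_mul]
      simp only [Matrix.mul_assoc]
    rw [← h3, ← hspec]
    exact h2
  rw [hfin]
  exact ud_posDef _ (mul_mem hU hW) _ hpos

/-- `Θ = rp (1/2) X`, `X = Kᴴ (D*D) K`, `D = rp (1/p) δ(h)`, `D*D = rp (2/p) δ(h)`; `rp_lip` with
`s = 2/p ≥ 1`, `sqrt_lip` with `m₀ = min θ`. -/
theorem theta_lip (p : ℝ) (h1 : 1 < p) (h2 : p < 2) (K δ₀ δ₁ : Matrix n n ℂ) (θ : n → ℝ)
    (hδ₀ : δ₀.PosDef) (hδ₁ : δ₁.IsHermitian) (hθ : ∀ k, 0 < θ k)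
    (hK : Kᴴ * (rp (1 / p) δ₀ * rp (1 / p) δ₀) * K = dg fun k => θ k ^ 2) :
    ∃ C η : ℝ, 0 ≤ C ∧ 0 < η ∧ ∀ h : ℝ, |h| ≤ η → (δ₀ + (h : ℂ) • δ₁).PosDef ∧
      ∃ Θ : Matrix n n ℂ, Θ.PosSemidef ∧
        Θ * Θ = Kᴴ * (rp (1 / p) (δ₀ + (h : ℂ) • δ₁) * rp (1 / p) (δ₀ + (h : ℂ) • δ₁)) * K ∧
        nf (Θ - dg θ) ≤ C * |h| ∧
        LibSch.pw p Θ = LibSch.pw p (rp (1 / p) (δ₀ + (h : ℂ) • δ₁) * K) := by
  obtain ⟨m₀, hm₀, hmθ⟩ := g3_min θ hθ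
  obtain ⟨η, hη, hpd⟩ := posDef_near δ₀ δ₁ hδ₀ hδ₁
  have hp0 : (0 : ℝ) < p := by linarith
  have hs : 1 ≤ 1 / p + 1 / p := by
    have : (1 : ℝ) / 2 < 1 / p := one_div_lt_one_div_of_lt hp0 h2
    linarith
  have hR : 0 ≤ nf δ₀ + nf δ₁ := add_nonneg (nf_nonneg _) (nf_nonneg _)
  obtain ⟨L, hL, hlip⟩ := rp_lip (n := n) (1 / p + 1 / p) (nf δ₀ + nf δ₁) hs hR
  refine ⟨m₀⁻¹ * (nf K * (L * nf δ₁) * nf K), min η 1, ?_, lt_min hη one_pos, ?_⟩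
  · have := nf_nonneg K
    have := nf_nonneg δ₁
    positivity
  intro h hh
  have hhη : |h| ≤ η := le_trans hh (min_le_left _ _)
  have hh1 : |h| ≤ 1 := le_trans hh (min_le_right _ _)
  have hPD := hpd h hhη
  refine ⟨hPD, ?_⟩
  have hnh : nf ((h : ℂ) • δ₁) = |h| * nf δ₁ := by
    rw [nf_smul, Complex.norm_real, Real.norm_eq_abs]
  have hbound : nf (δ₀ + (h : ℂ) • δ₁) ≤ nf δ₀ + nf δ₁ := by
    refine le_trans (nf_add_le _ _) ?_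
    rw [hnh]
    have : |h| * nf δ₁ ≤ 1 * nf δ₁ := mul_le_mul_of_nonneg_right hh1 (nf_nonneg _)
    linarith
  have hb0 : nf δ₀ ≤ nf δ₀ + nf δ₁ := by
    have := nf_nonneg δ₁
    linarith
  have hlip1 := hlip _ _ hPD.posSemidef hδ₀.posSemidef hbound hb0
  rw [add_sub_cancel_left, hnh] at hlip1
  have hDD := rp_mul (1 / p) (1 / p) (δ₀ + (h : ℂ) • δ₁) hPD
  have hDD0 := rp_mul (1 / p) (1 / p) δ₀ hδ₀
  have hherm := (rp_isHermitian (1 / p) (δ₀ + (h : ℂ) • δ₁)).eq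
  have hX : (Kᴴ * (rp (1 / p) (δ₀ + (h : ℂ) • δ₁) * rp (1 / p) (δ₀ + (h : ℂ) • δ₁)) * K) =
      (rp (1 / p) (δ₀ + (h : ℂ) • δ₁) * K)ᴴ * (rp (1 / p) (δ₀ + (h : ℂ) • δ₁) * K) := by
    rw [conjTranspose_mul, hherm]
    simp only [Matrix.mul_assoc]
  have hXpsd : (Kᴴ * (rp (1 / p) (δ₀ + (h : ℂ) • δ₁) *
      rp (1 / p) (δ₀ + (h : ℂ) • δ₁)) * K).PosSemidef := by
    rw [hX]
    exact posSemidef_conjTranspose_mul_self _
  refine ⟨rp (1 / 2) (Kᴴ * (rp (1 / p) (δ₀ + (h : ℂ) • δ₁) *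
      rp (1 / p) (δ₀ + (h : ℂ) • δ₁)) * K), rp_posSemidef _ _ hXpsd, rp_half_mul _ hXpsd, ?_, ?_⟩
  · refine le_trans (sqrt_lip m₀ hm₀ _ (rp_posSemidef _ _ hXpsd) θ hmθ) ?_
    rw [rp_half_mul _ hXpsd, ← hK, ← Matrix.sub_mul, ← Matrix.mul_sub, hDD, hDD0]
    have h4 : nf (Kᴴ * (rp (1 / p + 1 / p) (δ₀ + (h : ℂ) • δ₁) - rp (1 / p + 1 / p) δ₀) * K) ≤
        nf K * (L * (|h| * nf δ₁)) * nf K := by
      refine le_trans (nf_mul_le _ _) ?_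
      refine le_trans (mul_le_mul_of_nonneg_right (nf_mul_le _ _) (nf_nonneg _)) ?_
      rw [nf_conjTranspose]
      exact mul_le_mul_of_nonneg_right (mul_le_mul_of_nonneg_left hlip1 (nf_nonneg K))
        (nf_nonneg K)
    refine le_trans (mul_le_mul_of_nonneg_left h4 (inv_nonneg.2 hm₀.le)) (le_of_eq ?_)
    ring
  · refine pw_congr p _ _ ?_
    rw [(rp_isHermitian (1 / 2) _).eq, rp_half_mul _ hXpsd, hX]

end Pool.Agent.LibSchP
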