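import Pool.Agent.LibSchP.C3
import Pool.Agent.LibSchP.E4b
import Pool.Agent.LibSchP.G2b
import Pool.Agent.LibSchP.G3
import Pool.Agent.LibSchTri.S17

/-! **G4.**  The second difference of `FB`. -/

open Matrix
open scoped ComplexOrder

namespace Pool.Agent.LibSchP

variable {n : Type} [Fintype n] [DecidableEq n]

theorem g4_MM_zero {κ n₁ n₂ : Type} [Fintype κ] [Fintype n₁] [Fintype n₂] [DecidableEq κ]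
    [DecidableEq n₁] [DecidableEq n₂] (t : κ → ℝ) (θ₁ : n₁ → ℝ) (θ₂ : n₂ → ℝ)
    (V₁ : Matrix κ n₁ ℂ) (V₂ : Matrix κ n₂ ℂ) :
    MM t θ₁ θ₂ V₁ V₂ (dg θ₁ - dg θ₁) (dg θ₂ - dg θ₂) = 0 := by
  simp [MM]

theorem g4_base (p : ℝ) (h1 : 1 < p) (K δ : Matrix n n ℂ) (θ : n → ℝ) (hθ : ∀ k, 0 < θ k)
    (hK : Kᴴ * (rp (1 / p) δ * rp (1 / p) δ) * K = dg fun k => θ k ^ 2) :
    LibSch.pw p (rp (1 / p) δ * K) = ∑ k, θ k ^ p := by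
  have h := pw_ud p (rp (1 / p) δ * K) 1 (one_mem _) (fun k => θ k ^ 2) (by
    rw [ud_one_fun, ← hK, conjTranspose_mul, (rp_isHermitian (1 / p) δ).eq]
    simp only [Matrix.mul_assoc])
  rw [h]
  refine Finset.sum_congr rfl fun k _ => ?_
  rw [← Real.rpow_natCast, ← Real.rpow_mul (hθ k).le]
  congr 1
  push_cast
  ring

theorem g4_small (C₁ C₂ η₀ h : ℝ) (hC₁ : 0 ≤ C₁) (h1 : |h| ≤ η₀ / (C₁ + C₂ + 1))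
    (hC₂ : 0 ≤ C₂) : C₁ * |h| ≤ η₀ ∧ C₂ * |h| ≤ η₀ := by
  have hpos : 0 < C₁ + C₂ + 1 := by positivity
  rw [le_div_iff₀ hpos] at h1
  have h0 := abs_nonneg h
  constructor <;> nlinarith [mul_nonneg hC₁ h0, mul_nonneg hC₂ h0]

theorem second_diff (p : ℝ) (h1 : 1 < p) (h2 : p < 2) (B α₀ α₁ δ₀ δ₁ : Matrix n n ℂ)
    (hα₀ : α₀.PosDef) (hα₁ : α₁.IsHermitian) (hδ₀ : δ₀.PosDef) (hδ₁ : δ₁.IsHermitian) :
    ∃ C η : ℝ, 0 ≤ C ∧ 0 < η ∧ ∀ h : ℝ, |h| ≤ η →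
      |FB p B (α₀ + (h : ℂ) • α₁) (δ₀ + (h : ℂ) • δ₁) - FB p B α₀ δ₀| ≤ C * |h| ∧
      2 * FB p B α₀ δ₀ - C * |h| ^ 3 ≤
        FB p B (α₀ + (h : ℂ) • α₁) (δ₀ + (h : ℂ) • δ₁) +
          FB p B (α₀ + ((-h : ℝ) : ℂ) • α₁) (δ₀ + ((-h : ℝ) : ℂ) • δ₁) := by
  have hp0 : 0 < p := by linarith
  have hA : (rp (1 / p) α₀).PosDef := rp_posDef _ _ hα₀
  have hD : (rp (1 / p) δ₀).PosDef := rp_posDef _ _ hδ₀
  obtain ⟨t, θ₁, θ₂, V₁, V₂, K₁, K₂, hb₁, hb₂, h12, hK₁, hK₂, hKD, hKA, hg⟩ :=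
    gauge p h1 h2 _ B _ hA hD
  obtain ⟨C₀, η₀, hC₀, hη₀, hloc⟩ := loc p h1 h2 t θ₁ θ₂ V₁ V₂ hb₁ hb₂ h12
  obtain ⟨C₁, η₁, hC₁, hη₁, hth₁⟩ := theta_lip p h1 h2 K₁ δ₀ δ₁ θ₁ hδ₀ hδ₁ hb₁.hθ hKD
  obtain ⟨C₂, η₂, hC₂, hη₂, hth₂⟩ := theta_lip p h1 h2 K₂ α₀ α₁ θ₂ hα₀ hα₁ hb₂.hθ hKA
  have hbase : FB p B α₀ δ₀ = ∑ j, t j ^ p := by
    have h := hg _ _ (dg θ₁) (dg θ₂) hA.1 hD.1 (dg_isHermitian _) (dg_isHermitian _)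
      (by rw [hKD, dg_mul]; congr 1; ext k; ring) (by rw [hKA, dg_mul]; congr 1; ext k; ring)
    rw [FB, h, g4_MM_zero, add_zero]
    exact LibSchTri.pw_diagonal p hp0 t fun j => (hb₁.ht j).le
  have hG₁ := g4_base p h1 K₁ δ₀ θ₁ hb₁.hθ hKD
  have hG₂ := g4_base p h1 K₂ α₀ θ₂ hb₂.hθ hKA
  set Cs : ℝ := C₁ + C₂ with hCs
  have hCs0 : 0 ≤ Cs := by positivity
  set η : ℝ := min (min η₁ η₂) (η₀ / (C₁ + C₂ + 1)) with hη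
  have hη0 : 0 < η := by
    refine lt_min (lt_min hη₁ hη₂) (by positivity)
  -- one side
  have hside : ∀ h : ℝ, |h| ≤ η →
      ∑ j, t j ^ p +
          (LibSch.pw p (rp (1 / p) (δ₀ + (h : ℂ) • δ₁) * K₁) - ∑ k, θ₁ k ^ p) +
          (LibSch.pw p (rp (1 / p) (α₀ + (h : ℂ) • α₁) * K₂) - ∑ k, θ₂ k ^ p) -
          C₀ * (Cs * |h|) ^ 3 ≤ FB p B (α₀ + (h : ℂ) • α₁) (δ₀ + (h : ℂ) • δ₁) ∧
        |FB p B (α₀ + (h : ℂ) • α₁) (δ₀ + (h : ℂ) • δ₁) - ∑ j, t j ^ p| ≤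
          C₀ * (Cs * |h|) := by
    intro h hh
    have e1 : |h| ≤ η₁ := hh.trans ((min_le_left _ _).trans (min_le_left _ _))
    have e2 : |h| ≤ η₂ := hh.trans ((min_le_left _ _).trans (min_le_right _ _))
    have e3 : |h| ≤ η₀ / (C₁ + C₂ + 1) := hh.trans (min_le_right _ _)
    obtain ⟨s1, s2⟩ := g4_small C₁ C₂ η₀ h hC₁ e3 hC₂
    obtain ⟨hδh, Θ₁, hΘ₁, hΘ₁m, hΘ₁n, hΘ₁p⟩ := hth₁ h e1
    obtain ⟨hαh, Θ₂, hΘ₂, hΘ₂m, hΘ₂n, hΘ₂p⟩ := hth₂ h e2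
    obtain ⟨l1, l2⟩ := hloc Θ₁ Θ₂ hΘ₁.1 hΘ₂.1 (hΘ₁n.trans s1) (hΘ₂n.trans s2)
    have hF : FB p B (α₀ + (h : ℂ) • α₁) (δ₀ + (h : ℂ) • δ₁) =
        LibSch.pw p (dg t + MM t θ₁ θ₂ V₁ V₂ (Θ₁ - dg θ₁) (Θ₂ - dg θ₂)) := by
      rw [FB]
      exact hg _ _ Θ₁ Θ₂ (rp_isHermitian _ _) (rp_isHermitian _ _) hΘ₁.1 hΘ₂.1 hΘ₁m hΘ₂m
    have hn : nf (Θ₁ - dg θ₁) + nf (Θ₂ - dg θ₂) ≤ Cs * |h| := by
      rw [hCs]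
      linarith
    have hn0 : 0 ≤ nf (Θ₁ - dg θ₁) + nf (Θ₂ - dg θ₂) := add_nonneg (nf_nonneg _) (nf_nonneg _)
    rw [hF]
    rw [hΘ₁p, hΘ₂p] at l1
    constructor
    · have := mul_le_mul_of_nonneg_left (pow_le_pow_left₀ hn0 hn 3) hC₀
      linarith
    · exact l2.trans (mul_le_mul_of_nonneg_left hn hC₀)
  refine ⟨2 * C₀ * Cs ^ 3 + C₀ * Cs, η, by positivity, hη0, fun h hh => ?_⟩
  have hh' : |(-h)| ≤ η := by rwa [abs_neg]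
  obtain ⟨a1, a2⟩ := hside h hh
  obtain ⟨b1, -⟩ := hside (-h) hh'
  have h0 := abs_nonneg h
  rw [hbase]
  constructor
  · refine a2.trans ?_
    have : 0 ≤ 2 * C₀ * Cs ^ 3 * |h| := by positivity
    nlinarith
  · rw [abs_neg] at b1
    have e1 : |h| ≤ η₁ := hh.trans ((min_le_left _ _).trans (min_le_left _ _))
    have e2 : |h| ≤ η₂ := hh.trans ((min_le_left _ _).trans (min_le_right _ _))
    have e1' : |(-h)| ≤ η₁ := by rwa [abs_neg]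
    have e2' : |(-h)| ≤ η₂ := by rwa [abs_neg]
    have hδp := (hth₁ h e1).1
    have hδm := (hth₁ (-h) e1').1
    have hαp := (hth₂ h e2).1
    have hαm := (hth₂ (-h) e2').1
    have c1 := GC p h1 h2 K₁ hK₁ δ₀ _ _ hδ₀ hδp hδm (by
      push_cast
      module)
    have c2 := GC p h1 h2 K₂ hK₂ α₀ _ _ hα₀ hαp hαm (by
      push_cast
      module)
    rw [hG₁] at c1
    rw [hG₂] at c2
    have e : C₀ * (Cs * |h|) ^ 3 = C₀ * Cs ^ 3 * |h| ^ 3 := by ring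
    rw [e] at a1 b1
    have : 0 ≤ C₀ * Cs * |h| ^ 3 := by positivity
    nlinarith

end Pool.Agent.LibSchP
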