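import Pool.Agent.LibSchP.I2

/-! **I3a.**  The second divided difference `gg`. -/

open MeasureTheory Set

namespace Pool.Agent.LibSchP

theorem gg_integrable (u q l : ℝ) (h0 : 0 < u) (h1 : u < 1) (hq : 0 < q) (hl : 0 < l) :
    IntegrableOn (fun μ : ℝ => μ ^ u / ((q + μ) ^ 2 * (l + μ))) (Ioi 0) := by
  have h := (int_dd u q l h0 h1 hq hl).1
  have h2 : IntegrableOn (fun r : ℝ => q⁻¹ * (r ^ u / ((q + r) * (l + r)))) (Ioi 0) :=
    h.const_mul q⁻¹
  refine Integrable.mono' h2 ?_ ?_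
  · apply Measurable.aestronglyMeasurable
    apply Measurable.div
    · exact measurable_id.pow_const u
    · fun_prop
  · refine (ae_restrict_iff' measurableSet_Ioi).2 (Filter.Eventually.of_forall ?_)
    intro r hr
    have hr0 : (0 : ℝ) < r := hr
    have hpow : 0 ≤ r ^ u := Real.rpow_nonneg hr0.le u
    rw [Real.norm_of_nonneg (by positivity)]
    have e : q⁻¹ * (r ^ u / ((q + r) * (l + r))) = r ^ u / (q * ((q + r) * (l + r))) := by
      field_simp
    rw [e]
    apply div_le_div_of_nonneg_left hpow (by positivity)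
    have h3 : q ≤ q + r := by linarith
    calc q * ((q + r) * (l + r)) ≤ (q + r) * ((q + r) * (l + r)) :=
          mul_le_mul_of_nonneg_right h3 (by positivity)
      _ = (q + r) ^ 2 * (l + r) := by ring

/-- `l^u = q^u + u q^(u-1) (l-q) - c⁻¹ g(q,l) (l-q)²`:
`x^u = c⁻¹ ∫ μ^(u-1) x/(x+μ)` (`int_base`), `u q^(u-1) = c⁻¹ ∫ μ^u/(q+μ)²` (`int_dd`, `x = y`), and
`l/(l+μ) - q/(q+μ) - (l-q) μ/(q+μ)² = -μ (l-q)²/((q+μ)²(l+μ))`. -/
theorem gg_expand (u q l : ℝ) (h0 : 0 < u) (h1 : u < 1) (hq : 0 < q) (hl : 0 < l) :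
    l ^ u = q ^ u + u * q ^ (u - 1) * (l - q) - (cst u)⁻¹ * gg u q l * (l - q) ^ 2 := by
  have hc := cst_pos u h0 h1
  obtain ⟨il, el⟩ := int_base u l h0 h1 hl
  obtain ⟨iq, eq⟩ := int_base u q h0 h1 hq
  obtain ⟨iqq, eqq⟩ := int_dd u q q h0 h1 hq hq
  have igg := gg_integrable u q l h0 h1 hq hl
  have hdd : dd u q q = u * q ^ (u - 1) := by unfold dd; rw [if_pos rfl]
  rw [hdd] at eqq
  have hl1 : l * l ^ (u - 1) = l ^ u := by
    rw [mul_comm, ← Real.rpow_add_one hl.ne']; congr 1; ring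
  have hq1 : q * q ^ (u - 1) = q ^ u := by
    rw [mul_comm, ← Real.rpow_add_one hq.ne']; congr 1; ring
  have key : ∫ r in Ioi (0 : ℝ), (l * (r ^ (u - 1) / (l + r)) - q * (r ^ (u - 1) / (q + r))
        - (l - q) * (r ^ u / ((q + r) * (q + r))))
      = ∫ r in Ioi (0 : ℝ), -((l - q) ^ 2 * (r ^ u / ((q + r) ^ 2 * (l + r)))) := by
    apply setIntegral_congr_fun measurableSet_Ioi
    intro r hr
    have hr0 : (0 : ℝ) < r := hr
    have hru : r ^ u = r * r ^ (u - 1) := by
      rw [mul_comm, ← Real.rpow_add_one hr0.ne']; congr 1; ring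
    simp only
    rw [hru]
    have a1 : l + r ≠ 0 := by positivity
    have a2 : q + r ≠ 0 := by positivity
    field_simp
    ring
  have lhs : ∫ r in Ioi (0 : ℝ), (l * (r ^ (u - 1) / (l + r)) - q * (r ^ (u - 1) / (q + r))
        - (l - q) * (r ^ u / ((q + r) * (q + r))))
      = l * (cst u * l ^ (u - 1)) - q * (cst u * q ^ (u - 1))
        - (l - q) * (cst u * (u * q ^ (u - 1))) := by
    rw [integral_sub, integral_sub, integral_const_mul, integral_const_mul, integral_const_mul,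
      el, eq, eqq]
    · exact il.const_mul l
    · exact iq.const_mul q
    · exact (il.const_mul l).sub (iq.const_mul q)
    · exact iqq.const_mul (l - q)
  have rhs : ∫ r in Ioi (0 : ℝ), -((l - q) ^ 2 * (r ^ u / ((q + r) ^ 2 * (l + r))))
      = -((l - q) ^ 2 * gg u q l) := by
    rw [integral_neg, integral_const_mul]; rfl
  rw [lhs, rhs] at key
  have e2 : cst u * l ^ u = cst u * (q ^ u + u * q ^ (u - 1) * (l - q))
      - gg u q l * (l - q) ^ 2 := by
    rw [← hl1, ← hq1]; linarith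
  have e3 : l ^ u = (cst u)⁻¹ * (cst u * l ^ u) := by
    rw [← mul_assoc, inv_mul_cancel₀ hc.ne', one_mul]
  rw [e3, e2]
  field_simp

end Pool.Agent.LibSchP
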