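import Pool.Agent.LibSchP.I1
import Pool.Agent.LibSchP.A2

/-! **K1.**  The parallel sum split and `x ↦ x^s`. -/

open MeasureTheory Set Matrix

namespace Pool.Agent.LibSchP

variable {κ n : Type} [Fintype κ] [Fintype n]

theorem k1_scalar (a b x y : ℝ) (ha : 0 < a) (hb : 0 < b) :
    a * b / (a + b) * (x + y) ^ 2 ≤ a * x ^ 2 + b * y ^ 2 := by
  have hab : 0 < a + b := by linarith
  rw [div_mul_eq_mul_div, div_le_iff₀ hab]
  nlinarith [sq_nonneg (a * x - b * y)]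

/-- `V ξ = V((1-G)ξ) + V(Gξ)` and `(ab/(a+b)) |x+y|² ≤ a|x|² + b|y|²`. -/
theorem qf_split (V : Matrix κ n ℂ) (a b : κ → ℝ) (ha : ∀ j, 0 < a j) (hb : ∀ j, 0 < b j)
    (G : n → ℝ) (ξ : n → ℂ) :
    qf V (fun j => a j * b j / (a j + b j)) ξ ≤
      qf V a (fun k => ((1 - G k : ℝ) : ℂ) * ξ k) + qf V b (fun k => (G k : ℂ) * ξ k) := by
  have hsum : ξ = (fun k => ((1 - G k : ℝ) : ℂ) * ξ k) + (fun k => (G k : ℂ) * ξ k) := by
    funext k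
    simp only [Pi.add_apply]
    push_cast
    ring
  have hV : V *ᵥ ξ = V *ᵥ (fun k => ((1 - G k : ℝ) : ℂ) * ξ k) +
      V *ᵥ (fun k => (G k : ℂ) * ξ k) := by
    rw [← Matrix.mulVec_add, ← hsum]
  unfold qf
  rw [← Finset.sum_add_distrib]
  refine Finset.sum_le_sum (fun j _ => ?_)
  rw [hV, Pi.add_apply]
  have h1 := norm_add_le ((V *ᵥ (fun k => ((1 - G k : ℝ) : ℂ) * ξ k)) j)
    ((V *ᵥ (fun k => (G k : ℂ) * ξ k)) j)
  have h2 : 0 ≤ a j * b j / (a j + b j) :=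
    div_nonneg (mul_nonneg (ha j).le (hb j).le) (by linarith [ha j, hb j])
  have h3 : ‖(V *ᵥ (fun k => ((1 - G k : ℝ) : ℂ) * ξ k)) j +
      (V *ᵥ (fun k => (G k : ℂ) * ξ k)) j‖ ^ 2 ≤
      (‖(V *ᵥ (fun k => ((1 - G k : ℝ) : ℂ) * ξ k)) j‖ +
        ‖(V *ᵥ (fun k => (G k : ℂ) * ξ k)) j‖) ^ 2 :=
    pow_le_pow_left₀ (norm_nonneg _) h1 2
  exact (mul_le_mul_of_nonneg_left h3 h2).trans (k1_scalar _ _ _ _ (ha j) (hb j))

/-- `qf` is monotone in the weight -/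
theorem qf_mono (V : Matrix κ n ℂ) (a b : κ → ℝ) (h : ∀ j, a j ≤ b j) (ξ : n → ℂ) :
    qf V a ξ ≤ qf V b ξ :=
  Finset.sum_le_sum (fun j _ => mul_le_mul_of_nonneg_right (h j) (sq_nonneg _))

/-- `qf V (c • a) = c * qf V a` -/
theorem qf_const_mul (V : Matrix κ n ℂ) (c : ℝ) (a : κ → ℝ) (ξ : n → ℂ) :
    qf V (fun j => c * a j) ξ = c * qf V a ξ := by
  unfold qf
  rw [Finset.mul_sum]
  exact Finset.sum_congr rfl (fun j _ => by ring)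

theorem qf_add (V : Matrix κ n ℂ) (a b : κ → ℝ) (ξ : n → ℂ) :
    qf V (fun j => a j + b j) ξ = qf V a ξ + qf V b ξ := by
  unfold qf
  rw [← Finset.sum_add_distrib]
  exact Finset.sum_congr rfl (fun j _ => by ring)

/-- The step for one `μ`: `x/(x+μ) = ab/(a+b)` with `a = 1`, `b = x/μ`; `G = μ/(μ+y)`. -/
theorem qf_resolvent (V : Matrix κ n ℂ) (x : κ → ℝ) (y : n → ℝ) (hx : ∀ j, 0 < x j)
    (hy : ∀ k, 0 < y k) (h1 : ∀ ξ, qf V (fun _ => 1) ξ ≤ ∑ k, ‖ξ k‖ ^ 2)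
    (h : ∀ ξ, qf V x ξ ≤ ∑ k, y k * ‖ξ k‖ ^ 2) (μ : ℝ) (hμ : 0 < μ) (ξ : n → ℂ) :
    qf V (fun j => x j / (x j + μ)) ξ ≤ ∑ k, y k / (y k + μ) * ‖ξ k‖ ^ 2 := by
  have hs := qf_split V (fun _ => 1) (fun j => μ⁻¹ * x j) (fun _ => one_pos)
    (fun j => mul_pos (inv_pos.2 hμ) (hx j)) (fun k => μ / (μ + y k)) ξ
  have he : (fun j => (1:ℝ) * (μ⁻¹ * x j) / (1 + μ⁻¹ * x j)) = fun j => x j / (x j + μ) := by
    funext j
    have h2 : 0 < x j := hx j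
    have h3 : x j + μ ≠ 0 := by positivity
    have h4 : 1 + μ⁻¹ * x j ≠ 0 := by positivity
    field_simp
    ring
  rw [he] at hs
  have hA := h1 (fun k => ((1 - μ / (μ + y k) : ℝ) : ℂ) * ξ k)
  have hB := h (fun k => ((μ / (μ + y k) : ℝ) : ℂ) * ξ k)
  rw [qf_const_mul V μ⁻¹ x] at hs
  have hB' := mul_le_mul_of_nonneg_left hB (inv_pos.2 hμ).le
  refine hs.trans ((add_le_add hA hB').trans (le_of_eq ?_))
  rw [Finset.mul_sum, ← Finset.sum_add_distrib]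
  refine Finset.sum_congr rfl (fun k _ => ?_)
  have h2 : 0 < y k := hy k
  have h3 : y k + μ ≠ 0 := by positivity
  have h4 : μ + y k ≠ 0 := by positivity
  rw [norm_mul, norm_mul, Complex.norm_real, Complex.norm_real, mul_pow, mul_pow,
    Real.norm_eq_abs, Real.norm_eq_abs, sq_abs, sq_abs]
  field_simp
  ring

/-- **operator Jensen for `x^s`, `0 < s < 1`**: `x^s = c⁻¹ ∫ μ^(s-1) x/(x+μ) dμ` (`int_base`). -/
theorem qf_rpow (V : Matrix κ n ℂ) (x : κ → ℝ) (y : n → ℝ) (hx : ∀ j, 0 < x j)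
    (hy : ∀ k, 0 < y k) (h1 : ∀ ξ, qf V (fun _ => 1) ξ ≤ ∑ k, ‖ξ k‖ ^ 2)
    (h : ∀ ξ, qf V x ξ ≤ ∑ k, y k * ‖ξ k‖ ^ 2) (s : ℝ) (h0 : 0 < s) (hs : s < 1) (ξ : n → ℂ) :
    qf V (fun j => x j ^ s) ξ ≤ ∑ k, y k ^ s * ‖ξ k‖ ^ 2 := by
  have hc := cst_pos s h0 hs
  have hpow : ∀ z : ℝ, 0 < z → z ^ (s - 1) * z = z ^ s := by
    intro z hz
    rw [Real.rpow_sub_one hz.ne', div_mul_cancel₀ _ hz.ne']
  -- the two integrals
  have hL : ∫ r in Ioi (0 : ℝ), ∑ j, r ^ (s - 1) / (x j + r) * (x j * ‖(V *ᵥ ξ) j‖ ^ 2) =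
      cst s * qf V (fun j => x j ^ s) ξ := by
    rw [integral_finsetSum _ (fun j _ => ((int_base s (x j) h0 hs (hx j)).1).mul_const _)]
    unfold qf
    rw [Finset.mul_sum]
    refine Finset.sum_congr rfl (fun j _ => ?_)
    rw [integral_mul_const, (int_base s (x j) h0 hs (hx j)).2]
    show cst s * x j ^ (s - 1) * (x j * ‖(V *ᵥ ξ) j‖ ^ 2) =
      cst s * (x j ^ s * ‖(V *ᵥ ξ) j‖ ^ 2)
    rw [← hpow (x j) (hx j)]
    ring
  have hR : ∫ r in Ioi (0 : ℝ), ∑ k, r ^ (s - 1) / (y k + r) * (y k * ‖ξ k‖ ^ 2) =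
      cst s * ∑ k, y k ^ s * ‖ξ k‖ ^ 2 := by
    rw [integral_finsetSum _ (fun k _ => ((int_base s (y k) h0 hs (hy k)).1).mul_const _)]
    rw [Finset.mul_sum]
    refine Finset.sum_congr rfl (fun k _ => ?_)
    rw [integral_mul_const, (int_base s (y k) h0 hs (hy k)).2, ← hpow (y k) (hy k)]
    ring
  have hIL : IntegrableOn (fun r : ℝ => ∑ j, r ^ (s - 1) / (x j + r) *
      (x j * ‖(V *ᵥ ξ) j‖ ^ 2)) (Ioi 0) :=
    integrable_finsetSum _ (fun j _ => ((int_base s (x j) h0 hs (hx j)).1).mul_const _)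
  have hIR : IntegrableOn (fun r : ℝ => ∑ k, r ^ (s - 1) / (y k + r) *
      (y k * ‖ξ k‖ ^ 2)) (Ioi 0) :=
    integrable_finsetSum _ (fun k _ => ((int_base s (y k) h0 hs (hy k)).1).mul_const _)
  have hmono := setIntegral_mono_on hIL hIR measurableSet_Ioi (fun r hr => by
    have hr0 : (0:ℝ) < r := hr
    have h2 := qf_resolvent V x y hx hy h1 h r hr0 ξ
    have h3 := mul_le_mul_of_nonneg_left h2 (Real.rpow_nonneg hr0.le (s - 1))
    have e1 : r ^ (s - 1) * qf V (fun j => x j / (x j + r)) ξ =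
        ∑ j, r ^ (s - 1) / (x j + r) * (x j * ‖(V *ᵥ ξ) j‖ ^ 2) := by
      unfold qf
      rw [Finset.mul_sum]
      exact Finset.sum_congr rfl (fun j _ => by ring)
    have e2 : r ^ (s - 1) * ∑ k, y k / (y k + r) * ‖ξ k‖ ^ 2 =
        ∑ k, r ^ (s - 1) / (y k + r) * (y k * ‖ξ k‖ ^ 2) := by
      rw [Finset.mul_sum]
      exact Finset.sum_congr rfl (fun k _ => by ring)
    rw [e1, e2] at h3
    exact h3)
  rw [hL, hR] at hmono
  exact le_of_mul_le_mul_left hmono hc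

end Pool.Agent.LibSchP
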