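import Pool.Agent.LibSchP.K1

/-! **K2a.**  The convexity statement for `zeta`: resolvent form. -/

open MeasureTheory Set Matrix

namespace Pool.Agent.LibSchP

variable {κ n : Type} [Fintype κ] [Fintype n] [DecidableEq κ] [DecidableEq n]

theorem k2a_pow (p : ℝ) (h1 : 1 < p) (h2 : p < 2) (t : κ → ℝ) (θ : n → ℝ) (V : Matrix κ n ℂ)
    (h : Blk p t θ V) (s : ℝ) (hs0 : 0 < s) (hs1 : s < p) (ξ : n → ℂ) :
    qf V (fun j => t j ^ s) ξ ≤ ∑ k, θ k ^ s * ‖ξ k‖ ^ 2 := by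
  have hp0 : 0 < p := by linarith
  have key := qf_rpow V (fun j => t j ^ p) (fun k => θ k ^ p)
    (fun j => Real.rpow_pos_of_pos (h.ht j) p) (fun k => Real.rpow_pos_of_pos (h.hθ k) p)
    (fun ξ => le_of_eq (qf_one V h.hV ξ))
    (fun ξ => le_of_eq (qf_of_eq V _ _ h.hp ξ)) (s / p) (by positivity)
    ((div_lt_one hp0).mpr hs1) ξ
  have e1 : ∀ x : ℝ, 0 < x → (x ^ p) ^ (s / p) = x ^ s := by
    intro x hx
    rw [← Real.rpow_mul hx.le]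
    congr 1
    field_simp
  have e2 : (fun j => (t j ^ p) ^ (s / p)) = fun j => t j ^ s := by
    funext j
    exact e1 _ (h.ht j)
  have e3 : (∑ k, (θ k ^ p) ^ (s / p) * ‖ξ k‖ ^ 2) = ∑ k, θ k ^ s * ‖ξ k‖ ^ 2 := by
    refine Finset.sum_congr rfl fun k _ => ?_
    rw [e1 _ (h.hθ k)]
  calc qf V (fun j => t j ^ s) ξ = qf V (fun j => (t j ^ p) ^ (s / p)) ξ := by rw [e2]
    _ ≤ ∑ k, (θ k ^ p) ^ (s / p) * ‖ξ k‖ ^ 2 := key
    _ = _ := e3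

/-- `Vᴴ t V ≤ θ` (`qf_rpow` with `x = t^p`, `y = θ^p`, `s = 1/p`) -/
theorem blk_one (p : ℝ) (h1 : 1 < p) (h2 : p < 2) (t : κ → ℝ) (θ : n → ℝ) (V : Matrix κ n ℂ)
    (h : Blk p t θ V) (ξ : n → ℂ) : qf V t ξ ≤ ∑ k, θ k * ‖ξ k‖ ^ 2 := by
  have key := k2a_pow p h1 h2 t θ V h 1 one_pos h1 ξ
  simpa only [Real.rpow_one] using key

/-- `Vᴴ (t^p/(t+ρ)) V ≤ θ^p/(θ+ρ)`: `t^p/(t+ρ) = ab/(a+b)`, `a = t^(p-1)`, `b = t^p/ρ`,
`G = ρ/(ρ+θ)`, `qf_rpow` with `s = (p-1)/p` for `a`. -/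
theorem blk_res (p : ℝ) (h1 : 1 < p) (h2 : p < 2) (t : κ → ℝ) (θ : n → ℝ) (V : Matrix κ n ℂ)
    (h : Blk p t θ V) (ρ : ℝ) (hρ : 0 < ρ) (ξ : n → ℂ) :
    qf V (fun j => t j ^ p / (t j + ρ)) ξ ≤ ∑ k, θ k ^ p / (θ k + ρ) * ‖ξ k‖ ^ 2 := by
  have hpp : ∀ x : ℝ, 0 < x → x ^ p = x * x ^ (p - 1) := by
    intro x hx
    rw [← Real.rpow_one_add' hx.le (by linarith)]
    congr 1
    ring
  have hsplit := qf_split V (fun j => t j ^ (p - 1)) (fun j => ρ⁻¹ * t j ^ p)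
    (fun j => Real.rpow_pos_of_pos (h.ht j) _)
    (fun j => mul_pos (inv_pos.mpr hρ) (Real.rpow_pos_of_pos (h.ht j) _))
    (fun k => ρ / (ρ + θ k)) ξ
  have e1 : (fun j => t j ^ p / (t j + ρ)) =
      fun j => t j ^ (p - 1) * (ρ⁻¹ * t j ^ p) / (t j ^ (p - 1) + ρ⁻¹ * t j ^ p) := by
    funext j
    have ht := h.ht j
    have ha : 0 < t j ^ (p - 1) := Real.rpow_pos_of_pos ht _
    rw [hpp _ ht]
    have : 0 < t j + ρ := by linarith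
    field_simp
    ring
  have b1 := k2a_pow p h1 h2 t θ V h (p - 1) (by linarith) (by linarith)
    (fun k => ((1 - ρ / (ρ + θ k) : ℝ) : ℂ) * ξ k)
  have b2 : qf V (fun j => ρ⁻¹ * t j ^ p) (fun k => ((ρ / (ρ + θ k) : ℝ) : ℂ) * ξ k) =
      ρ⁻¹ * ∑ k, θ k ^ p * ‖((ρ / (ρ + θ k) : ℝ) : ℂ) * ξ k‖ ^ 2 := by
    rw [qf_const_mul, qf_of_eq V _ _ h.hp]
  rw [← e1, b2] at hsplit
  refine hsplit.trans ((add_le_add_left b1 _).trans (le_of_eq ?_))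
  rw [Finset.mul_sum, ← Finset.sum_add_distrib]
  refine Finset.sum_congr rfl fun k _ => ?_
  have hθ := h.hθ k
  rw [norm_mul, norm_mul, Complex.norm_real, Complex.norm_real, mul_pow, mul_pow,
    Real.norm_eq_abs, Real.norm_eq_abs, sq_abs, sq_abs, hpp _ hθ]
  have : 0 < ρ + θ k := by linarith
  have h' : θ k + ρ ≠ 0 := by linarith
  field_simp
  ring

end Pool.Agent.LibSchP
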