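import Pool.Agent.LibSchP.K2a
import Pool.Agent.LibSchP.I2
import Pool.Agent.LibSchP.I4

/-! **K2b.**  The convexity statement for `zeta`. -/

open MeasureTheory Set Matrix

namespace Pool.Agent.LibSchP

variable {κ n : Type} [Fintype κ] [Fintype n] [DecidableEq κ] [DecidableEq n]

/-- multiply `blk_res` by `ρ^(2-p)/(c+ρ)` and integrate (`int_dd` with `s = 2-p`). -/
theorem blk_dd (p : ℝ) (h1 : 1 < p) (h2 : p < 2) (t : κ → ℝ) (θ : n → ℝ) (V : Matrix κ n ℂ)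
    (h : Blk p t θ V) (c : ℝ) (hc : 0 < c) (ξ : n → ℂ) :
    qf V (fun j => t j ^ p * dd (2 - p) c (t j)) ξ ≤
      ∑ k, θ k ^ p * dd (2 - p) c (θ k) * ‖ξ k‖ ^ 2 := by
  have hs0 : 0 < 2 - p := by linarith
  have hs1 : 2 - p < 1 := by linarith
  have hcst := cst_pos (2 - p) hs0 hs1
  have hL : ∀ j, IntegrableOn (fun r : ℝ => (t j ^ p * ‖(V *ᵥ ξ) j‖ ^ 2) *
      (r ^ (2 - p) / ((c + r) * (t j + r)))) (Ioi 0) := fun j =>
    (int_dd (2 - p) c (t j) hs0 hs1 hc (h.ht j)).1.const_mul _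
  have hR : ∀ k, IntegrableOn (fun r : ℝ => (θ k ^ p * ‖ξ k‖ ^ 2) *
      (r ^ (2 - p) / ((c + r) * (θ k + r)))) (Ioi 0) := fun k =>
    (int_dd (2 - p) c (θ k) hs0 hs1 hc (h.hθ k)).1.const_mul _
  have hmono : ∫ r in Ioi (0 : ℝ), ∑ j, (t j ^ p * ‖(V *ᵥ ξ) j‖ ^ 2) *
      (r ^ (2 - p) / ((c + r) * (t j + r))) ≤
      ∫ r in Ioi (0 : ℝ), ∑ k, (θ k ^ p * ‖ξ k‖ ^ 2) *
      (r ^ (2 - p) / ((c + r) * (θ k + r))) := by
    refine setIntegral_mono_on (integrable_finsetSum _ fun j _ => hL j)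
      (integrable_finsetSum _ fun k _ => hR k) measurableSet_Ioi fun r hr => ?_
    have hr0 : 0 < r := hr
    have hb := blk_res p h1 h2 t θ V h r hr0 ξ
    have hw : 0 ≤ r ^ (2 - p) / (c + r) := by positivity
    have hm := mul_le_mul_of_nonneg_left hb hw
    unfold qf at hm
    rw [Finset.mul_sum, Finset.mul_sum] at hm
    have e1 : ∑ j, (t j ^ p * ‖(V *ᵥ ξ) j‖ ^ 2) * (r ^ (2 - p) / ((c + r) * (t j + r))) =
        ∑ j, r ^ (2 - p) / (c + r) * (t j ^ p / (t j + r) * ‖(V *ᵥ ξ) j‖ ^ 2) := by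
      refine Finset.sum_congr rfl fun j _ => ?_
      have := h.ht j
      field_simp
    have e2 : ∑ k, (θ k ^ p * ‖ξ k‖ ^ 2) * (r ^ (2 - p) / ((c + r) * (θ k + r))) =
        ∑ k, r ^ (2 - p) / (c + r) * (θ k ^ p / (θ k + r) * ‖ξ k‖ ^ 2) := by
      refine Finset.sum_congr rfl fun k _ => ?_
      have := h.hθ k
      field_simp
    rw [e1, e2]
    exact hm
  rw [integral_finsetSum _ fun j _ => hL j, integral_finsetSum _ fun k _ => hR k] at hmono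
  have e1 : ∑ j, ∫ r in Ioi (0 : ℝ), (t j ^ p * ‖(V *ᵥ ξ) j‖ ^ 2) *
      (r ^ (2 - p) / ((c + r) * (t j + r))) =
      cst (2 - p) * qf V (fun j => t j ^ p * dd (2 - p) c (t j)) ξ := by
    unfold qf
    rw [Finset.mul_sum]
    refine Finset.sum_congr rfl fun j _ => ?_
    rw [integral_const_mul, (int_dd (2 - p) c (t j) hs0 hs1 hc (h.ht j)).2]
    ring
  have e2 : ∑ k, ∫ r in Ioi (0 : ℝ), (θ k ^ p * ‖ξ k‖ ^ 2) *
      (r ^ (2 - p) / ((c + r) * (θ k + r))) =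
      cst (2 - p) * ∑ k, θ k ^ p * dd (2 - p) c (θ k) * ‖ξ k‖ ^ 2 := by
    rw [Finset.mul_sum]
    refine Finset.sum_congr rfl fun k _ => ?_
    rw [integral_const_mul, (int_dd (2 - p) c (θ k) hs0 hs1 hc (h.hθ k)).2]
    ring
  rw [e1, e2] at hmono
  exact le_of_mul_le_mul_left hmono hcst

/-- by `dd_zeta` (`b = p-1`), `blk_dd` and `Vᴴ t^p V = θ^p` (`qf_of_eq`). -/
theorem blk_zeta (p : ℝ) (h1 : 1 < p) (h2 : p < 2) (t : κ → ℝ) (θ : n → ℝ) (V : Matrix κ n ℂ)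
    (h : Blk p t θ V) (c : ℝ) (hc : 0 < c) (ξ : n → ℂ) :
    ∑ k, θ k ^ 2 * dd (p - 1) c (θ k) * ‖ξ k‖ ^ 2 ≤
      qf V (fun j => t j ^ 2 * dd (p - 1) c (t j)) ξ := by
  have hz : ∀ x : ℝ, 0 < x → x ^ 2 * dd (p - 1) c x =
      x ^ p - c ^ (p - 1) * (x ^ p * dd (2 - p) c x) := by
    intro x hx
    have h3 := dd_zeta (p - 1) c x (by linarith) (by linarith) hc hx
    rw [show p - 1 + 1 = p by ring, show 1 - (p - 1) = 2 - p by ring] at h3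
    rw [h3]
    ring
  have e1 : qf V (fun j => t j ^ 2 * dd (p - 1) c (t j)) ξ =
      qf V (fun j => t j ^ p) ξ -
        c ^ (p - 1) * qf V (fun j => t j ^ p * dd (2 - p) c (t j)) ξ := by
    unfold qf
    rw [Finset.mul_sum, ← Finset.sum_sub_distrib]
    refine Finset.sum_congr rfl fun j _ => ?_
    beta_reduce
    rw [hz _ (h.ht j)]
    ring
  have e2 : ∑ k, θ k ^ 2 * dd (p - 1) c (θ k) * ‖ξ k‖ ^ 2 =
      ∑ k, θ k ^ p * ‖ξ k‖ ^ 2 -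
        c ^ (p - 1) * ∑ k, θ k ^ p * dd (2 - p) c (θ k) * ‖ξ k‖ ^ 2 := by
    rw [Finset.mul_sum, ← Finset.sum_sub_distrib]
    refine Finset.sum_congr rfl fun k _ => ?_
    rw [hz _ (h.hθ k)]
    ring
  rw [e1, e2, qf_of_eq V (fun j => t j ^ p) (fun k => θ k ^ p) h.hp ξ]
  have h4 := mul_le_mul_of_nonneg_left (blk_dd p h1 h2 t θ V h c hc ξ)
    (Real.rpow_nonneg hc.le (p - 1))
  linarith

end Pool.Agent.LibSchP
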