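import Mathlib

/-! **L1.**  From local second differences to midpoint convexity. -/

namespace Pool.Agent.LibSchP

/-- If not, `g(x) = f(x) - (1-x) f(0) - x f(1) + ε (x² - x)` is continuous on `[0,1]`, zero at
`0, 1` and positive at `1/2`; at an interior maximum `g(x+h) + g(x-h) ≤ 2 g(x)`, but
`g(x+h) + g(x-h) - 2 g(x) ≥ 2 ε h² - C |h|³`. -/
theorem local_to_global (f : ℝ → ℝ)
    (h : ∀ x ∈ Set.Icc (0 : ℝ) 1, ∃ C η : ℝ, 0 ≤ C ∧ 0 < η ∧ ∀ h : ℝ, |h| ≤ η →
      |f (x + h) - f x| ≤ C * |h| ∧ 2 * f x - C * |h| ^ 3 ≤ f (x + h) + f (x + -h)) :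
    2 * f (1 / 2) ≤ f 0 + f 1 := by
  by_contra hcon
  push Not at hcon
  set ε : ℝ := 2 * f (1 / 2) - (f 0 + f 1) with hε
  have hεpos : 0 < ε := by rw [hε]; linarith
  -- continuity of f at the points of [0,1]
  have hcont : ∀ x ∈ Set.Icc (0 : ℝ) 1, ContinuousAt f x := by
    intro x hx
    obtain ⟨C, η, hC, hη, hh⟩ := h x hx
    rw [Metric.continuousAt_iff]
    intro e he
    refine ⟨min η (e / (C + 1)), lt_min hη (by positivity), ?_⟩
    intro y hy
    rw [Real.dist_eq] at hy ⊢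
    have h1 : |y - x| ≤ η := le_of_lt (lt_of_lt_of_le hy (min_le_left _ _))
    have h2 : |y - x| < e / (C + 1) := lt_of_lt_of_le hy (min_le_right _ _)
    have h3 := (hh (y - x) h1).1
    rw [add_sub_cancel] at h3
    have h4 : |y - x| * (C + 1) < e := by
      rwa [lt_div_iff₀ (by linarith)] at h2
    have h5 : 0 ≤ |y - x| := abs_nonneg _
    nlinarith
  let g : ℝ → ℝ := fun x => f x - (1 - x) * f 0 - x * f 1 + ε * (x ^ 2 - x)
  have hg : ContinuousOn g (Set.Icc 0 1) := by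
    have hf : ContinuousOn f (Set.Icc 0 1) := fun x hx => (hcont x hx).continuousWithinAt
    have h1 : ContinuousOn (fun x : ℝ => (1 - x) * f 0) (Set.Icc 0 1) := by fun_prop
    have h2 : ContinuousOn (fun x : ℝ => x * f 1) (Set.Icc 0 1) := by fun_prop
    have h3 : ContinuousOn (fun x : ℝ => ε * (x ^ 2 - x)) (Set.Icc 0 1) := by fun_prop
    exact ((hf.sub h1).sub h2).add h3
  obtain ⟨x0, hx0, hmax⟩ := isCompact_Icc.exists_isMaxOn
    (Set.nonempty_Icc.mpr (zero_le_one (α := ℝ))) hg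
  have hmax' : ∀ y ∈ Set.Icc (0 : ℝ) 1, g y ≤ g x0 := fun y hy => hmax hy
  have hhalf : (0 : ℝ) < g (1 / 2) := by
    simp only [g]
    nlinarith
  have hx0pos : 0 < g x0 := lt_of_lt_of_le hhalf
    (hmax' (1 / 2) ⟨by norm_num, by norm_num⟩)
  have hx00 : x0 ≠ 0 := by
    intro h0
    rw [h0] at hx0pos
    simp only [g] at hx0pos
    norm_num at hx0pos
  have hx01 : x0 ≠ 1 := by
    intro h0
    rw [h0] at hx0pos
    simp only [g] at hx0pos
    norm_num at hx0pos
  have hp0 : 0 < x0 := lt_of_le_of_ne hx0.1 (Ne.symm hx00)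
  have hp1 : x0 < 1 := lt_of_le_of_ne hx0.2 hx01
  obtain ⟨C, η, hC, hη, hh⟩ := h x0 hx0
  set t : ℝ := min (min η (ε / (C + 1))) (min x0 (1 - x0)) with ht
  have htpos : 0 < t := by
    rw [ht]
    exact lt_min (lt_min hη (by positivity)) (lt_min hp0 (by linarith))
  have ht1 : t ≤ η := le_trans (min_le_left _ _) (min_le_left _ _)
  have ht2 : t ≤ ε / (C + 1) := le_trans (min_le_left _ _) (min_le_right _ _)
  have ht3 : t ≤ x0 := le_trans (min_le_right _ _) (min_le_left _ _)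
  have ht4 : t ≤ 1 - x0 := le_trans (min_le_right _ _) (min_le_right _ _)
  have h1 := (hh t (by rw [abs_of_pos htpos]; exact ht1)).2
  rw [abs_of_pos htpos] at h1
  have hm1 := hmax' (x0 + t) ⟨by linarith, by linarith⟩
  have hm2 := hmax' (x0 + -t) ⟨by linarith, by linarith⟩
  simp only [g] at hm1 hm2
  have ht5 : t * (C + 1) ≤ ε := by
    rwa [le_div_iff₀ (by linarith)] at ht2
  have key : 2 * ε * t ^ 2 ≤ C * t ^ 3 := by nlinarith
  have key2 : 2 * ε ≤ C * t := by
    have : 2 * ε * t ^ 2 ≤ (C * t) * t ^ 2 := by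
      calc 2 * ε * t ^ 2 ≤ C * t ^ 3 := key
        _ = (C * t) * t ^ 2 := by ring
    exact le_of_mul_le_mul_right this (by positivity)
  nlinarith

end Pool.Agent.LibSchP
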