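import Pool.Agent.LibSchP.G4
import Pool.Agent.LibSchP.L1

/-! **L2.**  Joint midpoint convexity of `FB`. -/

open Matrix
open scoped ComplexOrder

namespace Pool.Agent.LibSchP

variable {n : Type} [Fintype n] [DecidableEq n]

theorem l2_posDef (α α' : Matrix n n ℂ) (hα : α.PosDef) (hα' : α'.PosDef) (x : ℝ)
    (hx : x ∈ Set.Icc (0 : ℝ) 1) : (α + (x : ℂ) • (α' - α)).PosDef := by
  have e : α + (x : ℂ) • (α' - α) = ((1 - x : ℝ) : ℂ) • α + (x : ℂ) • α' := by
    push_cast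
    module
  rw [e]
  rcases eq_or_lt_of_le hx.1 with h0 | h0
  · rw [← h0]
    simpa using hα
  · have h1 : ((x : ℂ) • α').PosDef := hα'.smul (by exact_mod_cast h0)
    rcases eq_or_lt_of_le hx.2 with h2 | h2
    · rw [h2]
      simpa using hα'
    · have h3 : (((1 - x : ℝ) : ℂ) • α).PosDef :=
        hα.smul (by exact_mod_cast (sub_pos.2 h2))
      exact h3.add h1

/-- `local_to_global` for `f x = FB p B (α + x (α' - α)) (δ + x (δ' - δ))` -/
theorem FB_mid (p : ℝ) (h1 : 1 < p) (h2 : p < 2) (B α α' δ δ' : Matrix n n ℂ)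
    (hα : α.PosDef) (hα' : α'.PosDef) (hδ : δ.PosDef) (hδ' : δ'.PosDef) :
    2 * FB p B ((1 / 2 : ℂ) • (α + α')) ((1 / 2 : ℂ) • (δ + δ')) ≤
      FB p B α δ + FB p B α' δ' := by
  have h := local_to_global
    (fun x => FB p B (α + (x : ℂ) • (α' - α)) (δ + (x : ℂ) • (δ' - δ))) (fun x hx => by
      obtain ⟨C, η, hC, hη, hd⟩ := second_diff p h1 h2 B (α + (x : ℂ) • (α' - α)) (α' - α)
        (δ + (x : ℂ) • (δ' - δ)) (δ' - δ) (l2_posDef α α' hα hα' x hx) (hα'.1.sub hα.1)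
        (l2_posDef δ δ' hδ hδ' x hx) (hδ'.1.sub hδ.1)
      refine ⟨C, η, hC, hη, fun h hh => ?_⟩
      obtain ⟨d1, d2⟩ := hd h hh
      have e : ∀ (M M' : Matrix n n ℂ) (y : ℝ), M + (x : ℂ) • (M' - M) + (y : ℂ) • (M' - M) =
          M + ((x + y : ℝ) : ℂ) • (M' - M) := fun M M' y => by
        push_cast
        module
      rw [e, e] at d1
      rw [e, e, e, e] at d2
      exact ⟨d1, d2⟩)
  have e0 : ∀ M M' : Matrix n n ℂ, M + ((0 : ℝ) : ℂ) • (M' - M) = M := fun M M' => by simp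
  have e1 : ∀ M M' : Matrix n n ℂ, M + ((1 : ℝ) : ℂ) • (M' - M) = M' := fun M M' => by simp
  have e2 : ∀ M M' : Matrix n n ℂ, M + ((1 / 2 : ℝ) : ℂ) • (M' - M) = (1 / 2 : ℂ) • (M + M') :=
    fun M M' => by
      push_cast
      module
  simp only [e0, e1, e2] at h
  exact h

end Pool.Agent.LibSchP
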