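import Pool.Agent.LibSchP.L2
import Pool.Agent.LibSchTri.S5

/-! **L3.**  Averaging over the sign matrices. -/

open Matrix
open scoped ComplexOrder

namespace Pool.Agent.LibSchP

open Pool.Agent.LibSchTri

variable {n : Type} [Fintype n] [DecidableEq n]

theorem l3_mem (k : n) : s5_D (id : n → n) k ∈ unitaryGroup n ℂ := by
  rw [mem_unitaryGroup_iff]
  change s5_D (id : n → n) k * (s5_D (id : n → n) k)ᴴ = 1
  rw [s5_Dh, s5_DD]

/-- unitary invariance: `S` diagonal with entries `±1` (`s5_D id k`), `S dg b S = dg b`, `rp_conj`,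
`pw_unitary` with `fromBlocks S 0 0 S` -/
theorem FB_sign (p : ℝ) (b : n → ℝ) (α δ : Matrix n n ℂ) (hα : α.IsHermitian)
    (hδ : δ.IsHermitian) (k : n) :
    FB p (dg b) (s5_D id k * α * s5_D id k) (s5_D id k * δ * s5_D id k) = FB p (dg b) α δ := by
  have hmem := l3_mem (n := n) k
  have hDD := s5_DD (id : n → n) k
  have hDh := s5_Dh (id : n → n) k
  have hr : ∀ H : Matrix n n ℂ, H.IsHermitian →
      rp (1 / p) (s5_D id k * H * s5_D id k) = s5_D id k * rp (1 / p) H * s5_D id k := by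
    intro H hH
    have h := rp_conj (1 / p) (s5_D id k) hmem H hH
    rw [hDh] at h
    exact h
  have hb : s5_D id k * dg b * s5_D id k = dg b := by
    ext i j
    rw [s5_entry, dg_apply]
    by_cases hij : i = j
    · rw [hij]
      simp only [if_true, id]
      split_ifs <;> ring
    · simp [hij]
  unfold FB
  rw [hr α hα, hr δ hδ]
  have hU : fromBlocks (s5_D (id : n → n) k) 0 0 (s5_D (id : n → n) k) ∈
      unitaryGroup (n ⊕ n) ℂ := by
    rw [mem_unitaryGroup_iff]
    change fromBlocks (s5_D (id : n → n) k) 0 0 (s5_D (id : n → n) k) *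
      (fromBlocks (s5_D (id : n → n) k) 0 0 (s5_D (id : n → n) k))ᴴ = 1
    rw [fromBlocks_conjTranspose, fromBlocks_multiply, hDh]
    simp [hDD]
  have key : fromBlocks (s5_D id k * rp (1 / p) α * s5_D id k) (dg b) 0
      (s5_D id k * rp (1 / p) δ * s5_D id k) =
      fromBlocks (s5_D (id : n → n) k) 0 0 (s5_D (id : n → n) k) *
        fromBlocks (rp (1 / p) α) (dg b) 0 (rp (1 / p) δ) *
        fromBlocks (s5_D (id : n → n) k) 0 0 (s5_D (id : n → n) k) := by
    rw [fromBlocks_multiply, fromBlocks_multiply]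
    simp only [Matrix.zero_mul, Matrix.mul_zero, add_zero, zero_add]
    rw [hb]
  rw [key]
  exact LibSch.pw_unitary p _ ⟨_, hU⟩ ⟨_, hU⟩

/-- induction on `S` with `s5_step`, `FB_mid`, `FB_sign` -/
theorem FB_pinch (p : ℝ) (h1 : 1 < p) (h2 : p < 2) (b : n → ℝ) (α δ : Matrix n n ℂ)
    (hα : α.PosDef) (hδ : δ.PosDef) (S : Finset n) :
    (pinchS id S α).PosDef ∧ (pinchS id S δ).PosDef ∧
      FB p (dg b) (pinchS id S α) (pinchS id S δ) ≤ FB p (dg b) α δ := by
  induction S using Finset.induction_on with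
  | empty =>
    have h : ∀ H : Matrix n n ℂ, pinchS id ∅ H = H := by
      intro H
      ext i j
      simp [pinchS]
    rw [h, h]
    exact ⟨hα, hδ, le_rfl⟩
  | insert k S _ ih =>
    obtain ⟨ha, hd, hle⟩ := ih
    have hDD := s5_DD (id : n → n) k
    have hinj : Function.Injective (s5_D (id : n → n) k).mulVec := by
      intro v w hvw
      have h3 : s5_D (id : n → n) k *ᵥ (s5_D id k *ᵥ v) = s5_D id k *ᵥ (s5_D id k *ᵥ w) := by
        rw [hvw]
      rwa [mulVec_mulVec, mulVec_mulVec, hDD, one_mulVec, one_mulVec] at h3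
    have h4 : ∀ H : Matrix n n ℂ, H.PosDef → (s5_D id k * H * s5_D id k).PosDef := by
      intro H hH
      have h5 := hH.conjTranspose_mul_mul_same hinj
      rwa [s5_Dh] at h5
    rw [s5_step, s5_step]
    refine ⟨(ha.add (h4 _ ha)).smul (by norm_num), (hd.add (h4 _ hd)).smul (by norm_num), ?_⟩
    have h9 := FB_mid p h1 h2 (dg b) _ _ _ _ ha (h4 _ ha) hd (h4 _ hd)
    rw [FB_sign p b _ _ ha.1 hd.1 k] at h9
    linarith

/-- `S = univ`: `pinchS id univ α = dg (diagonal of α)` -/
theorem FB_diag (p : ℝ) (h1 : 1 < p) (h2 : p < 2) (b : n → ℝ) (α δ : Matrix n n ℂ)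
    (hα : α.PosDef) (hδ : δ.PosDef) :
    FB p (dg b) (dg fun k => (α k k).re) (dg fun k => (δ k k).re) ≤ FB p (dg b) α δ := by
  have h := (FB_pinch p h1 h2 b α δ hα hδ Finset.univ).2.2
  have hd : ∀ H : Matrix n n ℂ, H.IsHermitian →
      pinchS id Finset.univ H = dg fun k => (H k k).re := by
    intro H hH
    ext i j
    rw [dg_apply]
    simp only [pinchS, of_apply, id, Finset.mem_univ, not_true_eq_false, and_self, or_false]
    by_cases hij : i = j
    · rw [if_pos hij, if_pos hij, ← hij]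
      exact (hH.coe_re_apply_self i).symm
    · rw [if_neg hij, if_neg hij]
  rwa [hd α hα.1, hd δ hδ.1] at h

end Pool.Agent.LibSchP
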