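import Pool.Agent.LibSchP.L3
import Pool.Agent.LibSchTri.S17
import Pool.Agent.LibSch.Main

/-! **T1.**  The triangular inequality for positive definite `A`, `D` and diagonal `B`. -/

open Matrix
open scoped ComplexOrder

namespace Pool.Agent.LibSchP

open Pool.Agent.LibSch

variable {n : Type} [Fintype n] [DecidableEq n]

/-- the column equivalence -/
noncomputable def t1_e (n : Type) [Fintype n] [DecidableEq n] :
    n ⊕ n ≃ (Σ _ : Fin 2, Fin (Fintype.card n)) where
  toFun := Sum.elim (fun i => ⟨0, Fintype.equivFin n i⟩) (fun i => ⟨1, Fintype.equivFin n i⟩)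
  invFun c := if c.1 = 0 then Sum.inl ((Fintype.equivFin n).symm c.2)
    else Sum.inr ((Fintype.equivFin n).symm c.2)
  left_inv := by
    rintro (i | i) <;> simp
  right_inv := by
    rintro ⟨c, i⟩
    fin_cases c <;> simp

/-- diagonal blocks: `LibSch.main_diag` (reindexed by `Fintype.equivFin n`), `holds_iff`, `pw_comp`
with `N = 2`, `A = ![dg x, dg b]`, `B = ![0, dg z]`; `pw_diagonal`. -/
theorem tri_dd (p : ℝ) (h1 : 1 < p) (h2 : p < 2) (x b z : n → ℝ) (hx : ∀ k, 0 ≤ x k)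
    (hb : ∀ k, 0 ≤ b k) (hz : ∀ k, 0 ≤ z k) :
    PhiE 0 (p / 2) ![∑ k, x k ^ p, ∑ k, b k ^ p] ![0, ∑ k, z k ^ p] ≤
      pw p (fromBlocks (dg x) (dg b) 0 (dg z)) := by
  have hp : 0 < p := by linarith
  set e := Fintype.equivFin n with he
  have hsum : ∀ y : n → ℝ, (∀ k, 0 ≤ y k) →
      pw p (diagonal fun i => ((y (e.symm i) : ℝ) : ℂ)) = ∑ k, y k ^ p := by
    intro y hy
    rw [LibSchTri.pw_diagonal p hp (fun i => y (e.symm i)) (fun i => hy _)]
    exact Equiv.sum_comp e.symm (fun k => y k ^ p)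
  have h := main_diag p h1.le 2 (Fintype.card n)
    (fun k i => ![((x (e.symm i) : ℝ) : ℂ), ((b (e.symm i) : ℝ) : ℂ)] k)
    (fun k i => ![(0 : ℂ), ((z (e.symm i) : ℝ) : ℂ)] k)
  rw [holds_iff p h1.le] at h
  have h3 := h.1 h2.le
  rw [pw_comp p hp] at h3
  have hA : (fun k : Fin 2 => pw p (diagonal fun i : Fin (Fintype.card n) =>
      ![((x (e.symm i) : ℝ) : ℂ), ((b (e.symm i) : ℝ) : ℂ)] k)) =
      ![∑ k, x k ^ p, ∑ k, b k ^ p] := by
    funext k
    fin_cases k
    · simpa using hsum x hx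
    · simpa using hsum b hb
  have hB : (fun k : Fin 2 => pw p (diagonal fun i : Fin (Fintype.card n) =>
      ![(0 : ℂ), ((z (e.symm i) : ℝ) : ℂ)] k)) =
      ![0, ∑ k, z k ^ p] := by
    funext k
    fin_cases k
    · have h0 := LibSchTri.pw_diagonal (n := Fin (Fintype.card n)) p hp (fun _ => (0 : ℝ))
        (fun _ => le_refl _)
      simp only [Complex.ofReal_zero, Real.zero_rpow hp.ne', Finset.sum_const_zero] at h0
      simpa using h0
    · simpa using hsum z hz
  rw [hA, hB] at h3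
  refine h3.trans (le_of_eq ?_)
  rw [← pw_submatrix p _ (Equiv.sumCongr e e) (t1_e n)]
  congr 1
  ext i j
  rcases i with i | i <;> rcases j with j | j <;>
    simp [blk, t1_e, dg, diagonal_apply, ← he]

/-- `α = rp p A`, `δ = rp p D`, `FB_diag`, `tri_dd` with `x = (α_kk)^(1/p)`, `tr α = pw p A`. -/
theorem tri_pd (p : ℝ) (h1 : 1 < p) (h2 : p < 2) (A D : Matrix n n ℂ) (b : n → ℝ)
    (hA : A.PosDef) (hD : D.PosDef) (hb : ∀ k, 0 ≤ b k) :
    PhiE 0 (p / 2) ![pw p A, ∑ k, b k ^ p] ![0, pw p D] ≤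
      pw p (fromBlocks A (dg b) 0 D) := by
  have hp : 0 < p := by linarith
  have hα := rp_posDef p A hA
  have hδ := rp_posDef p D hD
  have key := FB_diag p h1 h2 b (rp p A) (rp p D) hα hδ
  have hre : ∀ (H : Matrix n n ℂ), H.PosDef → ∀ k, 0 ≤ (H k k).re := by
    intro H hH k
    have := hH.diag_pos (i := k)
    exact ((Complex.le_def.1 this.le).1)
  have hpw : ∀ (H : Matrix n n ℂ), H.PosDef →
      ∑ k, (((rp p H) k k).re ^ (1 / p)) ^ p = pw p H := by
    intro H hH
    have hH' := rp_posDef p H hH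
    have h3 := pw_rp p hp (rp p H) hH'
    rw [rp_inv_rp p hp H hH] at h3
    rw [h3, trace, Complex.re_sum]
    refine Finset.sum_congr rfl fun k _ => ?_
    rw [← Real.rpow_mul (hre _ hH' k), one_div, inv_mul_cancel₀ hp.ne', Real.rpow_one]
    rfl
  unfold FB at key
  rw [rp_dg, rp_dg, rp_inv_rp p hp A hA, rp_inv_rp p hp D hD] at key
  have h4 := tri_dd p h1 h2 (fun k => ((rp p A) k k).re ^ (1 / p)) b
    (fun k => ((rp p D) k k).re ^ (1 / p))
    (fun k => Real.rpow_nonneg (hre _ hα k) _) hb (fun k => Real.rpow_nonneg (hre _ hδ k) _)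
  rw [hpw A hA, hpw D hD] at h4
  exact h4.trans key

end Pool.Agent.LibSchP
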