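import Pool.Agent.LibSchP.T1
import Pool.Agent.LibSchP.T2

/-! **T3a.**  The triangular inequality for positive semidefinite blocks. -/

open Matrix
open scoped ComplexOrder

namespace Pool.Agent.LibSchP

open Pool.Agent.LibSch

/-- `A + r` is positive definite -/
theorem t3a_posDef {n : Type} [Fintype n] [DecidableEq n] (A : Matrix n n ℂ) (hA : A.PosSemidef)
    (r : ℝ) (hr : 0 < r) : (A + (r : ℂ) • (1 : Matrix n n ℂ)).PosDef := by
  rw [add_comm]
  refine PosDef.add_posSemidef ?_ hA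
  exact PosDef.one.smul (by exact_mod_cast hr)

/-- `tri_pd` for `A + r`, `D + r`, `r → 0+` (`pw_continuous`, `continuous_PhiE`) -/
theorem tri_psd {n : Type} [Fintype n] [DecidableEq n] (p : ℝ) (h1 : 1 < p) (h2 : p < 2)
    (A D : Matrix n n ℂ) (b : n → ℝ) (hA : A.PosSemidef) (hD : D.PosSemidef)
    (hb : ∀ k, 0 ≤ b k) :
    PhiE 0 (p / 2) ![pw p A, ∑ k, b k ^ p] ![0, pw p D] ≤
      pw p (fromBlocks A (dg b) 0 D) := by
  have hp0 : 0 < p := by linarith
  have key : ∀ r : ℝ, 0 < r →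
      PhiE 0 (p / 2) ![pw p (A + (r : ℂ) • (1 : Matrix n n ℂ)), ∑ k, b k ^ p]
        ![0, pw p (D + (r : ℂ) • (1 : Matrix n n ℂ))] ≤
      pw p (fromBlocks A (dg b) 0 D + (r : ℂ) • (fromBlocks 1 0 0 1 : Matrix (n ⊕ n) (n ⊕ n) ℂ)) := by
    intro r hr
    have h := tri_pd p h1 h2 _ _ b (t3a_posDef A hA r hr) (t3a_posDef D hD r hr) hb
    rwa [fromBlocks_smul, fromBlocks_add, smul_zero, add_zero, add_zero]
  have hL : Continuous fun r : ℝ =>
      PhiE 0 (p / 2) ![pw p (A + (r : ℂ) • (1 : Matrix n n ℂ)), ∑ k, b k ^ p]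
        ![0, pw p (D + (r : ℂ) • (1 : Matrix n n ℂ))] := by
    refine continuous_PhiE (p / 2) (by linarith) (fun _ => 0) _ _ continuous_const ?_ ?_
    · intro k
      fin_cases k
      · exact pw_continuous p hp0 h2 A 1
      · exact continuous_const
    · intro k
      fin_cases k
      · exact continuous_const
      · exact pw_continuous p hp0 h2 D 1
  have hR := pw_continuous p hp0 h2 (fromBlocks A (dg b) 0 D)
    (fromBlocks 1 0 0 1 : Matrix (n ⊕ n) (n ⊕ n) ℂ)
  have tL := (hL.tendsto 0).mono_left (nhdsWithin_le_nhds (s := Set.Ioi (0 : ℝ)))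
  have tR := (hR.tendsto 0).mono_left (nhdsWithin_le_nhds (s := Set.Ioi (0 : ℝ)))
  have := le_of_tendsto_of_tendsto tL tR (by
    filter_upwards [self_mem_nhdsWithin] with r hr
    exact key r hr)
  simpa using this

end Pool.Agent.LibSchP
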