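import Pool.Agent.LibSchP.T3a
import Pool.Agent.LibSchP.G2a

/-! **T3b.**  Rectangular `A`, `D`. -/

open Matrix
open scoped ComplexOrder

namespace Pool.Agent.LibSchP

open Pool.Agent.LibSch

/-- arbitrary rectangular `A`, `D`, diagonal `B`: replace `A` by `(AAᴴ)^(1/2)` and `D` by
`(DᴴD)^(1/2)` (`rp_half_mul`, `pw_tri_congr`, `pw_congr`, `pw_congr'`) -/
theorem tri_diag {d a k : Type} [Fintype d] [DecidableEq d] [Fintype a] [DecidableEq a]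
    [Fintype k] [DecidableEq k] (p : ℝ) (h1 : 1 < p) (h2 : p < 2)
    (A : Matrix d a ℂ) (b : d → ℝ) (hb : ∀ j, 0 ≤ b j) (D : Matrix k d ℂ) :
    PhiE 0 (p / 2) ![pw p A, ∑ j, b j ^ p] ![0, pw p D] ≤
      pw p (fromBlocks A (dg b) 0 D) := by
  have hp : 0 < p := by linarith
  have hAA : (A * Aᴴ).PosSemidef := posSemidef_self_mul_conjTranspose A
  have hDD : (Dᴴ * D).PosSemidef := posSemidef_conjTranspose_mul_self D
  have hA' : A * Aᴴ = rp (1 / 2) (A * Aᴴ) * (rp (1 / 2) (A * Aᴴ))ᴴ := by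
    rw [(rp_isHermitian (1 / 2) (A * Aᴴ)).eq, rp_half_mul _ hAA]
  have hD' : Dᴴ * D = (rp (1 / 2) (Dᴴ * D))ᴴ * rp (1 / 2) (Dᴴ * D) := by
    rw [(rp_isHermitian (1 / 2) (Dᴴ * D)).eq, rp_half_mul _ hDD]
  rw [pw_tri_congr p hp A (rp (1 / 2) (A * Aᴴ)) (dg b) D (rp (1 / 2) (Dᴴ * D)) hA' hD',
    pw_congr' p hp A (rp (1 / 2) (A * Aᴴ)) hA', pw_congr p D (rp (1 / 2) (Dᴴ * D)) hD']
  exact tri_psd p h1 h2 _ _ b (rp_posSemidef _ _ hAA) (rp_posSemidef _ _ hDD) hb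

end Pool.Agent.LibSchP
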