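import Pool.Agent.LibSchP.T3b

/-! **T3c.**  The triangular inequality for arbitrary blocks. -/

open Matrix
open scoped ComplexOrder

namespace Pool.Agent.LibSchP

open Pool.Agent.LibSch

/-- copy of `LibSchTri.tri_sq` with the inequality reversed -/
theorem tri_sq {d a k : Type} [Fintype d] [DecidableEq d] [Fintype a] [DecidableEq a]
    [Fintype k] [DecidableEq k] (p : ℝ) (h1 : 1 < p) (h2 : p < 2)
    (A : Matrix d a ℂ) (B : Matrix d d ℂ) (D : Matrix k d ℂ) :
    PhiE 0 (p / 2) ![pw p A, pw p B] ![0, pw p D] ≤ pw p (fromBlocks A B 0 D) := by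
  obtain ⟨U, V, b, hb, hUV⟩ := LibSchTri.svd_sq B
  have hU1 : fromBlocks (U : Matrix d d ℂ) 0 0 (1 : Matrix k k ℂ) ∈ unitaryGroup (d ⊕ k) ℂ := by
    have hU := mem_unitaryGroup_iff.1 U.2
    rw [star_eq_conjTranspose] at hU
    rw [mem_unitaryGroup_iff, star_eq_conjTranspose, fromBlocks_conjTranspose,
      fromBlocks_multiply]
    simp [hU, fromBlocks_one]
  have hV1 : fromBlocks (1 : Matrix a a ℂ) 0 0 (V : Matrix d d ℂ) ∈ unitaryGroup (a ⊕ d) ℂ := by
    have hV := mem_unitaryGroup_iff.1 V.2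
    rw [star_eq_conjTranspose] at hV
    rw [mem_unitaryGroup_iff, star_eq_conjTranspose, fromBlocks_conjTranspose,
      fromBlocks_multiply]
    simp [hV, fromBlocks_one]
  have hM : pw p (fromBlocks A B 0 D) =
      pw p (fromBlocks ((U : Matrix d d ℂ) * A) (diagonal fun k => (b k : ℂ)) 0
        (D * (V : Matrix d d ℂ))) := by
    have h := pw_unitary p (fromBlocks A B (0 : Matrix k a ℂ) D) ⟨_, hU1⟩ ⟨_, hV1⟩
    rw [← h]
    congr 1
    simp only [fromBlocks_multiply]
    rw [← hUV]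
    simp
  have hA : pw p ((U : Matrix d d ℂ) * A) = pw p A := by
    have h := pw_unitary p A U 1
    rw [← h]
    congr 1
    simp
  have hD : pw p (D * (V : Matrix d d ℂ)) = pw p D := by
    have h := pw_unitary p D 1 V
    rw [← h]
    congr 1
    simp
  have hB : pw p B = ∑ k, b k ^ p := by
    have h := pw_unitary p B U V
    rw [← h, hUV, LibSchTri.pw_diagonal _ (by linarith) _ hb]
  rw [hM, ← hA, ← hD, hB]
  exact tri_diag p h1 h2 _ b hb _

/-- copy of `LibSchTri.tri_gen` with the inequality reversed -/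
theorem tri_gen {m n a k : Type} [Fintype m] [DecidableEq m] [Fintype n] [DecidableEq n]
    [Fintype a] [DecidableEq a] [Fintype k] [DecidableEq k] (p : ℝ) (h1 : 1 < p) (h2 : p < 2)
    (A : Matrix m a ℂ) (B : Matrix m n ℂ) (D : Matrix k n ℂ) :
    PhiE 0 (p / 2) ![pw p A, pw p B] ![0, pw p D] ≤ pw p (fromBlocks A B 0 D) := by
  have hr : 0 < p := by linarith
  have hA : pw p (fromRows A (0 : Matrix n a ℂ)) = pw p A := by
    rw [PwBasic_pw, PwBasic_pw]
    congr 1
    rw [conjTranspose_fromRows_eq_fromCols_conjTranspose, fromCols_mul_fromRows]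
    simp
  have hD : pw p (fromCols (0 : Matrix k m ℂ) D) = pw p D := by
    rw [← pw_conjTranspose p hr, ← pw_conjTranspose p hr D, PwBasic_pw, PwBasic_pw]
    congr 1
    rw [conjTranspose_conjTranspose, conjTranspose_conjTranspose,
      conjTranspose_fromCols_eq_fromRows_conjTranspose, fromCols_mul_fromRows]
    simp
  have hB : pw p (fromBlocks (0 : Matrix m m ℂ) B (0 : Matrix n m ℂ) 0) =
      pw p B := by
    rw [← LibSchTri.pw_pad (m' := n) (n' := m) p hr B,
      ← pw_submatrix p (fromBlocks B (0 : Matrix m m ℂ) (0 : Matrix n n ℂ) 0)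
        (Equiv.refl _) (Equiv.sumComm m n)]
    congr 1
    ext i j
    rcases i with i | i <;> rcases j with j | j <;> simp
  have hM : pw p (fromBlocks (fromRows A (0 : Matrix n a ℂ))
      (fromBlocks (0 : Matrix m m ℂ) B (0 : Matrix n m ℂ) 0) 0 (fromCols (0 : Matrix k m ℂ) D)) =
      pw p (fromBlocks A B 0 D) := by
    let e1 : (m ⊕ n) ⊕ k ≃ (m ⊕ k) ⊕ n :=
      (Equiv.sumAssoc m n k).trans ((Equiv.sumCongr (Equiv.refl m) (Equiv.sumComm n k)).trans
        (Equiv.sumAssoc m k n).symm)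
    let e2 : a ⊕ (m ⊕ n) ≃ (a ⊕ n) ⊕ m :=
      (Equiv.sumCongr (Equiv.refl a) (Equiv.sumComm m n)).trans (Equiv.sumAssoc a n m).symm
    rw [← LibSchTri.pw_pad (m' := n) (n' := m) p hr (fromBlocks A B (0 : Matrix k a ℂ) D),
      ← pw_submatrix p (fromBlocks (fromBlocks A B (0 : Matrix k a ℂ) D) 0 0 0) e1 e2]
    congr 1
    ext i j
    rcases i with (i | i) | i <;> rcases j with j | (j | j) <;>
      simp [e1, e2]
  rw [← hM, ← hA, ← hB, ← hD]
  exact tri_sq p h1 h2 _ _ _

end Pool.Agent.LibSchP
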