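import Pool.Agent.LibSchP.T4a
import Pool.Agent.LibSchP.T2
import Pool.Agent.LibSchTri.Defs

/-! **T4b.**  Rows, `p < 2`. -/

open Matrix
open scoped ComplexOrder

namespace Pool.Agent.LibSchP

open Pool.Agent.LibSch Pool.Agent.LibSchTri

theorem t4b_gram {κ m : Type} [Fintype κ] [Fintype m] [DecidableEq m] (R : Matrix κ m ℂ) (r : ℝ) :
    (fromRows R (0 : Matrix m m ℂ) + (r : ℂ) • fromRows (0 : Matrix κ m ℂ) (1 : Matrix m m ℂ))ᴴ *
      (fromRows R (0 : Matrix m m ℂ) + (r : ℂ) • fromRows (0 : Matrix κ m ℂ) (1 : Matrix m m ℂ)) =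
      Rᴴ * R + ((r ^ 2 : ℝ) : ℂ) • (1 : Matrix m m ℂ) := by
  have h1 : fromRows R (0 : Matrix m m ℂ) + (r : ℂ) • fromRows (0 : Matrix κ m ℂ)
      (1 : Matrix m m ℂ) = fromRows R ((r : ℂ) • (1 : Matrix m m ℂ)) := by
    ext i j
    rcases i with i | i <;> simp
  rw [h1, conjTranspose_fromRows_eq_fromCols_conjTranspose, fromCols_mul_fromRows]
  congr 1
  rw [conjTranspose_smul, conjTranspose_one, Matrix.smul_mul, Matrix.one_mul, smul_smul]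
  congr 1
  simp [sq]

theorem t4b_row {ι : Type} [Fintype ι] {m : Type} [Fintype m]
    {n : ι → Type} [∀ k, Fintype (n k)] (A : ∀ k, Matrix m (n k) ℂ) :
    ((rowM A)ᴴ)ᴴ * (rowM A)ᴴ = ∑ k, ((A k)ᴴ)ᴴ * (A k)ᴴ := by
  ext i j
  rw [conjTranspose_conjTranspose, mul_apply, Fintype.sum_sigma, Matrix.sum_apply]
  refine Finset.sum_congr rfl fun k _ => ?_
  rw [conjTranspose_conjTranspose, mul_apply]
  rfl

/-- rows: `X = fromRows (rowM A)ᴴ (r • 1)`, `XᴴX = ∑ A_k A_kᴴ + r² 1`, `Y_k = (A_k)ᴴ`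
(`pw_conjTranspose`), `r → 0` by `pw_continuous` (`X = fromRows (rowM A)ᴴ 0 + r • fromRows 0 1`). -/
theorem pw_row_ge {ι : Type} [Fintype ι] [DecidableEq ι] {m : Type} [Fintype m] [DecidableEq m]
    {n : ι → Type} [∀ k, Fintype (n k)] [∀ k, DecidableEq (n k)] (p : ℝ) (h1 : 1 < p) (h2 : p < 2)
    (A : ∀ k, Matrix m (n k) ℂ) :
    ∑ k, pw p (A k) ^ (2 / p) ≤ pw p (rowM A) ^ (2 / p) := by
  have hp : 0 < p := by linarith
  set X0 : Matrix ((Σ k, n k) ⊕ m) m ℂ := fromRows (rowM A)ᴴ (0 : Matrix m m ℂ) with hX0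
  set Z : Matrix ((Σ k, n k) ⊕ m) m ℂ := fromRows (0 : Matrix (Σ k, n k) m ℂ) (1 : Matrix m m ℂ)
    with hZ
  have hpos : ∀ r : ℝ, 0 < r → (((r ^ 2 : ℝ) : ℂ) • (1 : Matrix m m ℂ)).PosDef := by
    intro r hr
    have h3 : (0 : ℂ) < ((r ^ 2 : ℝ) : ℂ) := by
      rw [Complex.zero_lt_real]
      positivity
    exact Matrix.PosDef.one.smul h3
  have hr : ∀ r : ℝ, 0 < r →
      ∑ k, pw p (A k) ^ (2 / p) ≤ pw p (X0 + (r : ℂ) • Z) ^ (2 / p) := by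
    intro r hr
    have hg := t4b_gram (rowM A)ᴴ r
    rw [t4b_row A] at hg
    have hg' : (X0 + (r : ℂ) • Z)ᴴ * (X0 + (r : ℂ) • Z) =
        ∑ k, ((A k)ᴴ)ᴴ * (A k)ᴴ + ((r ^ 2 : ℝ) : ℂ) • (1 : Matrix m m ℂ) := hg
    have hs : (∑ k, ((A k)ᴴ)ᴴ * (A k)ᴴ).PosSemidef := by
      rw [← t4b_row A]
      exact posSemidef_conjTranspose_mul_self _
    have h4 := pw_super (ι := ι) (m' := n) p hp h2 (X0 + (r : ℂ) • Z) (fun k => (A k)ᴴ)
      (by rw [hg']; exact Matrix.PosDef.posSemidef_add hs (hpos r hr))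
      (by
        rw [hg', add_sub_cancel_left]
        exact (hpos r hr).posSemidef)
    have h5 : ∀ k, pw p (A k)ᴴ = pw p (A k) := fun k => pw_conjTranspose p hp (A k)
    simp only [h5] at h4
    exact h4
  have h0 : pw p (X0 + ((0 : ℝ) : ℂ) • Z) = pw p (rowM A) := by
    have hg := t4b_gram (rowM A)ᴴ 0
    rw [← pw_conjTranspose p hp (rowM A), PwBasic_pw, PwBasic_pw]
    congr 1
    rw [show (X0 + ((0 : ℝ) : ℂ) • Z)ᴴ * (X0 + ((0 : ℝ) : ℂ) • Z) = _ from hg]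
    simp
  have hcont : Continuous fun r : ℝ => pw p (X0 + (r : ℂ) • Z) ^ (2 / p) :=
    (pw_continuous p hp h2 X0 Z).rpow_const fun _ => Or.inr (by positivity)
  have ht : Filter.Tendsto (fun r : ℝ => pw p (X0 + (r : ℂ) • Z) ^ (2 / p))
      (nhdsWithin 0 (Set.Ioi 0)) (nhds (pw p (rowM A) ^ (2 / p))) := by
    have h6 := (hcont.tendsto 0).mono_left (nhdsWithin_le_nhds (s := Set.Ioi (0 : ℝ)))
    rw [h0] at h6
    exact h6
  refine ge_of_tendsto ht ?_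
  filter_upwards [self_mem_nhdsWithin] with r hr'
  exact hr r hr'

end Pool.Agent.LibSchP
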