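import Pool.Agent.LibSchP.T3c
import Pool.Agent.LibSchP.T4b
import Pool.Agent.LibSchTri.Final

/-! **T5.**  Final assembly (copy of `LibSchTri.main_lower`, `LibSchTri.final`, inequalities
reversed). -/

open Matrix
open scoped ComplexOrder

namespace Pool.Agent.LibSchP

open Pool.Agent.LibSch Pool.Agent.LibSchTri

theorem main_lower {N : ℕ} {m₁ m₂ : Type} {n : Fin N → Type} [Fintype m₁] [DecidableEq m₁]
    [Fintype m₂] [DecidableEq m₂] [∀ k, Fintype (n k)] [∀ k, DecidableEq (n k)] (p : ℝ)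
    (h1 : 1 < p) (h2 : p < 2) (A : ∀ k, Matrix m₁ (n k) ℂ) (B : ∀ k, Matrix m₂ (n k) ℂ)
    (k₀ : Fin N) (hB : ∀ k, k ≠ k₀ → B k = 0) :
    sn p (comp p A B) ≤ sn p (blk A B) := by
  have hp0 : 0 < p := by linarith
  have hr0 : 0 < p / 2 := by linarith
  unfold sn
  refine Real.rpow_le_rpow (pw_nonneg p _) ?_ (by positivity)
  set A' : ∀ k : {k : Fin N // k ≠ k₀}, Matrix m₁ (n k.1) ℂ := fun k => A k.1 with hA'
  have e1 : (blk A B).submatrix (Equiv.refl _) (splitEquiv n k₀) =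
      fromBlocks (rowM A') (A k₀) 0 (B k₀) := by
    ext i c
    rcases i with i | i <;> rcases c with ⟨⟨k, hk⟩, c⟩ | c
    · rfl
    · rfl
    · change B k i c = 0
      rw [hB k hk]
      rfl
    · rfl
  have e2 : pw p (blk A B) = pw p (fromBlocks (rowM A') (A k₀) 0 (B k₀)) := by
    rw [← e1, pw_submatrix]
  rw [e2]
  refine le_trans ?_ (tri_gen p h1 h2 _ _ _)
  set S : ℝ := ∑ k : {k : Fin N // k ≠ k₀}, pw p (A k.1) ^ (2 / p) with hS
  have hrow : S ≤ pw p (rowM A') ^ (2 / p) := pw_row_ge p h1 h2 A'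
  have hS0 : 0 ≤ S := Finset.sum_nonneg fun k _ => Real.rpow_nonneg (pw_nonneg p _) _
  have hr1 : 1 / (p / 2) = 2 / p := by field_simp
  have hrow2 : S ^ (p / 2) ≤ pw p (rowM A') := by
    have h := Real.rpow_le_rpow hS0 hrow hr0.le
    rw [← Real.rpow_mul (pw_nonneg p _)] at h
    have : 2 / p * (p / 2) = 1 := by field_simp
    rwa [this, Real.rpow_one] at h
  refine le_trans (le_of_eq ?_) (PhiE_mono (p / 2) (S ^ (p / 2)) _ _ _ hr0
    (Real.rpow_nonneg hS0 _) hrow2 (pw_nonneg p _) (pw_nonneg p _))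
  rw [pw_comp p hp0]
  have h0 : (0 : ℝ) ^ (1 / (2 * (p / 2))) = 0 := Real.zero_rpow (by positivity)
  have h0' : (0 : ℝ) ^ (1 / (p / 2)) = 0 := Real.zero_rpow (by positivity)
  have hBz : ∀ k, k ≠ k₀ → pw p (B k) = 0 := fun k hk => by
    rw [hB k hk]
    exact s18_pw_zero p hp0
  unfold PhiE
  simp only [Fin.sum_univ_two, Matrix.cons_val_zero, Matrix.cons_val_one, h0, h0', mul_zero,
    zero_add]
  congr 1
  · rw [← Real.rpow_mul hS0, mul_one_div_cancel hr0.ne', Real.rpow_one,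
      Fintype.sum_eq_add_sum_subtype_ne _ k₀, add_comm, hr1]
  · rw [Finset.sum_eq_single k₀]
    · intro k _ hk
      rw [hBz k hk, h0']
    · intro h
      exact absurd (Finset.mem_univ _) h
  · rw [Finset.sum_eq_single k₀]
    · intro k _ hk
      rw [hBz k hk, h0, mul_zero]
    · intro h
      exact absurd (Finset.mem_univ _) h

theorem final {N : ℕ} {m₁ m₂ : Type} {n : Fin N → Type} [Fintype m₁] [DecidableEq m₁]
    [Fintype m₂] [DecidableEq m₂] [∀ k, Fintype (n k)] [∀ k, DecidableEq (n k)] (p : ℝ)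
    (h1 : 1 < p) (h2 : p < 2) (A : ∀ k, Matrix m₁ (n k) ℂ) (B : ∀ k, Matrix m₂ (n k) ℂ)
    (k₀ : Fin N) (h : (∀ k, k ≠ k₀ → B k = 0) ∨ (∀ k, k ≠ k₀ → A k = 0)) :
    sn p (comp p A B) ≤ sn p (blk A B) := by
  rcases h with h | h
  · exact main_lower p h1 h2 A B k₀ h
  · have := main_lower p h1 h2 B A k₀ h
    rwa [(fin_swap p A B).1, (fin_swap p A B).2] at this

end Pool.Agent.LibSchP
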